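import Mathlib

/-!
A fixed point form of amenability for subgroups, with its closure properties.
-/

set_option autoImplicit false

namespace Pool.Agent.H240Z.Amen

open Set Filter Topology

variable {P : Type} [Group P]

/-- Fixed point property of a subgroup `H` of `P`. -/
def Am (H : Subgroup P) : Prop :=
  ∀ (I : Type) (ρ : P →* Equiv.Perm I) (K : Set (I → ℝ)), K.Nonempty → IsCompact K →
    Convex ℝ K → (∀ h ∈ H, ∀ m ∈ K, m ∘ ρ h ∈ K) → ∃ m ∈ K, ∀ h ∈ H, m ∘ ρ h = m

/-- The stabiliser of a function. -/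
def stab {I : Type} (ρ : P →* Equiv.Perm I) (m : I → ℝ) : Subgroup P where
  carrier := {h | m ∘ ρ h = m}
  one_mem' := by simp
  mul_mem' := by
    intro a b ha hb
    simp only [mem_ofPred_eq, map_mul, Equiv.Perm.coe_mul] at *
    rw [← Function.comp_assoc, ha, hb]
  inv_mem' := by
    intro a ha
    simp only [mem_ofPred_eq] at *
    conv_lhs => rw [← ha]
    rw [Function.comp_assoc, ← Equiv.Perm.coe_mul, ← map_mul]
    simp

theorem mem_stab {I : Type} {ρ : P →* Equiv.Perm I} {m : I → ℝ} {h : P} :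
    h ∈ stab ρ m ↔ m ∘ ρ h = m := Iff.rfl

/-- The set of the points of `K` fixed by `H`. -/
def fixS {I : Type} (ρ : P →* Equiv.Perm I) (K : Set (I → ℝ)) (H : Subgroup P) : Set (I → ℝ) :=
  {m | m ∈ K ∧ ∀ h ∈ H, m ∘ ρ h = m}

theorem isClosed_fix {I : Type} (ρ : P →* Equiv.Perm I) (H : Subgroup P) :
    IsClosed {m : I → ℝ | ∀ h ∈ H, m ∘ ρ h = m} := by
  simp only [ofPred_forall]
  refine isClosed_iInter fun h => isClosed_iInter fun _ => ?_
  exact isClosed_eq (continuous_pi fun i => continuous_apply _) continuous_id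

theorem compact_fixS {I : Type} (ρ : P →* Equiv.Perm I) {K : Set (I → ℝ)} (hK : IsCompact K)
    (H : Subgroup P) : IsCompact (fixS ρ K H) :=
  hK.inter_right (isClosed_fix ρ H)

theorem convex_fixS {I : Type} (ρ : P →* Equiv.Perm I) {K : Set (I → ℝ)} (hK : Convex ℝ K)
    (H : Subgroup P) : Convex ℝ (fixS ρ K H) := by
  intro x hx y hy a b ha hb hab
  refine ⟨hK hx.1 hy.1 ha hb hab, fun h hh => ?_⟩
  funext i
  have h1 := congrFun (hx.2 h hh) i
  have h2 := congrFun (hy.2 h hh) i
  simp only [Function.comp_apply] at h1 h2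
  simp [h1, h2]

theorem am_bot : Am (⊥ : Subgroup P) := by
  intro I ρ K hne _ _ _
  obtain ⟨m, hm⟩ := hne
  refine ⟨m, hm, fun h hh => ?_⟩
  rw [Subgroup.mem_bot.1 hh]
  simp

theorem am_sup {N H : Subgroup P} (hN : Am N) (hH : Am H)
    (hn : ∀ k ∈ H, ∀ n ∈ N, k * n * k⁻¹ ∈ N) : Am (N ⊔ H) := by
  intro I ρ K hne hc hv hinv
  have h1 : (fixS ρ K N).Nonempty :=
    hN I ρ K hne hc hv fun h hh => hinv h (Subgroup.mem_sup_left hh)
  obtain ⟨m, hm, hfix⟩ := hH I ρ (fixS ρ K N) h1 (compact_fixS ρ hc N) (convex_fixS ρ hv N) (by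
    intro k hk m hm
    refine ⟨hinv k (Subgroup.mem_sup_right hk) m hm.1, fun n hn' => ?_⟩
    have h2 := hm.2 _ (hn k hk n hn')
    conv_rhs => rw [← h2]
    rw [Function.comp_assoc, Function.comp_assoc, ← Equiv.Perm.coe_mul, ← Equiv.Perm.coe_mul,
      ← map_mul, ← map_mul]
    simp)
  refine ⟨m, hm.1, fun h hh => ?_⟩
  have : N ⊔ H ≤ stab ρ m := sup_le (fun n hn' => hm.2 n hn') (fun k hk => hfix k hk)
  exact this hh

theorem am_iSup {ι : Type} [Nonempty ι] (H : ι → Subgroup P) (hd : Directed (· ≤ ·) H)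
    (h : ∀ i, Am (H i)) : Am (⨆ i, H i) := by
  intro I ρ K hne hc hv hinv
  have h1 : (⋂ i, fixS ρ K (H i)).Nonempty := by
    apply IsCompact.nonempty_iInter_of_directed_nonempty_isCompact_isClosed
    · intro i j
      obtain ⟨k, hik, hjk⟩ := hd i j
      exact ⟨k, fun m hm => ⟨hm.1, fun g hg => hm.2 g (hik hg)⟩,
        fun m hm => ⟨hm.1, fun g hg => hm.2 g (hjk hg)⟩⟩
    · intro i
      exact h i I ρ K hne hc hv fun g hg => hinv g (Subgroup.mem_iSup_of_mem i hg)
    · intro i
      exact compact_fixS ρ hc _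
    · intro i
      exact (compact_fixS ρ hc _).isClosed
  obtain ⟨m, hm⟩ := h1
  rw [mem_iInter] at hm
  obtain ⟨i⟩ := ‹Nonempty ι›
  refine ⟨m, (hm i).1, fun g hg => ?_⟩
  have : (⨆ i, H i) ≤ stab ρ m := iSup_le fun j g hg => (hm j).2 g hg
  exact this hg

theorem am_map {Q : Type} [Group Q] (φ : P →* Q) {H : Subgroup P} (h : Am H) : Am (H.map φ) := by
  intro I ρ K hne hc hv hinv
  obtain ⟨m, hm, hfix⟩ := h I (ρ.comp φ) K hne hc hv
    fun g hg m hm => hinv (φ g) (Subgroup.mem_map_of_mem φ hg) m hm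
  refine ⟨m, hm, ?_⟩
  rintro _ ⟨g, hg, rfl⟩
  exact hfix g hg

theorem am_zpowers (a : P) : Am (Subgroup.zpowers a) := by
  intro I ρ K hne hc hv hinv
  obtain ⟨m, hm⟩ := hne
  have hpow : ∀ n : ℕ, m ∘ ρ (a ^ n) ∈ K := fun n =>
    hinv _ (Subgroup.pow_mem _ (Subgroup.mem_zpowers a) n) m hm
  let A : ℕ → I → ℝ := fun n => ∑ k ∈ Finset.range (n + 1), (1 / ((n : ℝ) + 1)) • (m ∘ ρ (a ^ k))
  have hA : ∀ n, A n ∈ K := by
    intro n
    apply hv.sum_mem
    · intro k _
      positivity
    · rw [Finset.sum_const, Finset.card_range, nsmul_eq_mul]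
      push_cast
      field_simp
    · intro k _
      exact hpow k
  let U : Ultrafilter ℕ := Ultrafilter.of atTop
  have hU : (U : Filter ℕ) ≤ atTop := Ultrafilter.of_le _
  obtain ⟨x, hx, hlim⟩ := hc.ultrafilter_le_nhds (U.map A) (by
    rw [le_principal_iff]
    exact mem_map.2 (Eventually.of_forall hA))
  have hlim' : Tendsto A U (𝓝 x) := hlim
  have hfix : x ∘ ρ a = x := by
    funext i
    obtain ⟨C, hC⟩ : ∃ C : ℝ, ∀ (j : I) (y : I → ℝ), (j = i) → y ∈ K → |y j| ≤ C := by
      have hb := (hc.image (continuous_apply i)).isBounded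
      obtain ⟨C, hC⟩ := hb.exists_norm_le
      exact ⟨C, fun j y hj hy => by subst hj; exact hC _ ⟨y, hy, rfl⟩⟩
    have h1 : Tendsto (fun n => A n (ρ a i)) U (𝓝 (x (ρ a i))) :=
      ((continuous_apply _).tendsto x).comp hlim'
    have h2 : Tendsto (fun n => A n i) U (𝓝 (x i)) :=
      ((continuous_apply _).tendsto x).comp hlim'
    have h3 : ∀ n, A n (ρ a i) - A n i =
        (1 / ((n : ℝ) + 1)) * ((m ∘ ρ (a ^ (n + 1))) i - (m ∘ ρ (a ^ 0)) i) := by
      intro n
      simp only [A, Finset.sum_apply, Pi.smul_apply, smul_eq_mul]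
      rw [← Finset.sum_sub_distrib,
        ← Finset.sum_range_sub (fun k => (m ∘ ρ (a ^ k)) i) (n + 1), Finset.mul_sum]
      refine Finset.sum_congr rfl fun k _ => ?_
      simp only [Function.comp_apply, pow_succ, map_mul, Equiv.Perm.coe_mul]
      ring
    have h4 : Tendsto (fun n => A n (ρ a i) - A n i) U (𝓝 0) := by
      refine Tendsto.mono_left ?_ hU
      have h5 : Tendsto (fun n : ℕ => (1 / ((n : ℝ) + 1)) * (2 * C)) atTop (𝓝 0) := by
        simpa using tendsto_one_div_add_atTop_nhds_zero_nat.mul_const (2 * C)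
      refine squeeze_zero_norm (fun n => ?_) h5
      rw [h3, Real.norm_eq_abs, abs_mul, abs_of_pos (by positivity)]
      refine mul_le_mul_of_nonneg_left ?_ (by positivity)
      have h6 := hC i _ rfl (hpow (n + 1))
      have h7 := hC i _ rfl (hpow 0)
      have := abs_sub ((m ∘ ρ (a ^ (n + 1))) i) ((m ∘ ρ (a ^ 0)) i)
      linarith
    have := tendsto_nhds_unique (h1.sub h2) h4
    simp only [Function.comp_apply]
    linarith
  refine ⟨x, hx, fun g hg => ?_⟩
  have : Subgroup.zpowers a ≤ stab ρ x := (Subgroup.zpowers_le).2 hfix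
  exact this hg

/-- The elements that conjugate `N` into itself in both directions. -/
def nor (N : Subgroup P) : Subgroup P where
  carrier := {k | (∀ n ∈ N, k * n * k⁻¹ ∈ N) ∧ ∀ n ∈ N, k⁻¹ * n * k ∈ N}
  one_mem' := by simp
  mul_mem' := by
    rintro a b ⟨ha, ha'⟩ ⟨hb, hb'⟩
    refine ⟨fun n hn => ?_, fun n hn => ?_⟩
    · have := ha _ (hb n hn)
      simpa [mul_assoc] using this
    · have := hb' _ (ha' n hn)
      simpa [mul_assoc] using this
  inv_mem' := by
    rintro a ⟨ha, ha'⟩
    exact ⟨by simpa using ha', by simpa using ha⟩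

theorem le_nor {N H : Subgroup P} (hn : ∀ k ∈ H, ∀ n ∈ N, k * n * k⁻¹ ∈ N) : H ≤ nor N :=
  fun k hk => ⟨hn k hk, fun n h => by simpa using hn k⁻¹ (H.inv_mem hk) n h⟩

theorem am_chain {ι : Type} [LinearOrder ι] (H : ι → Subgroup P) (h : ∀ i, Am (H i))
    (hn : ∀ i j, j < i → ∀ k ∈ H j, ∀ n ∈ H i, k * n * k⁻¹ ∈ H i) : Am (⨆ i, H i) := by
  classical
  rw [iSup_eq_iSup_finset]
  apply am_iSup
  · intro s t
    exact ⟨s ∪ t, biSup_mono fun i hi => Finset.mem_union_left _ hi,
      biSup_mono fun i hi => Finset.mem_union_right _ hi⟩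
  · intro s
    induction s using Finset.induction_on_max with
    | empty => simpa using am_bot
    | insert a s ha ih =>
      rw [Finset.iSup_insert]
      apply am_sup (h a) ih
      have : (⨆ i ∈ s, H i) ≤ nor (H a) :=
        iSup₂_le fun j hj => le_nor (hn a j (ha j hj))
      exact fun k hk => (this hk).1

theorem am_comm {A : Subgroup P} (h : ∀ a ∈ A, ∀ b ∈ A, a * b = b * a) : Am A := by
  obtain ⟨_, -⟩ := exists_wellFoundedLT A
  have h1 : A = ⨆ a : A, Subgroup.zpowers (a : P) := by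
    apply le_antisymm
    · intro a ha
      exact Subgroup.mem_iSup_of_mem ⟨a, ha⟩ (Subgroup.mem_zpowers a)
    · exact iSup_le fun a => (Subgroup.zpowers_le).2 a.2
  rw [h1]
  apply am_chain _ fun a => am_zpowers _
  intro i j _ k hk n hn
  have hk' : k ∈ A := (Subgroup.zpowers_le).2 j.2 hk
  have hn' : n ∈ A := (Subgroup.zpowers_le).2 i.2 hn
  rw [h k hk' n hn']
  simpa using hn

/-- A subgroup with the fixed point property carries an invariant mean. -/
theorem exists_mean {G : Subgroup P} (hG : Am G) : ∃ m : Set G → ℝ,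
    (∀ A, 0 ≤ m A) ∧ m Set.univ = 1 ∧
    (∀ A B : Set G, Disjoint A B → m (A ∪ B) = m A + m B) ∧
    (∀ (g : G) (A : Set G), m ((fun h => g * h) '' A) = m A) := by
  classical
  let ρ : P →* Equiv.Perm (Set P) :=
    { toFun := fun g =>
        { toFun := fun A => (fun h => g * h) '' A
          invFun := fun A => (fun h => g⁻¹ * h) '' A
          left_inv := fun A => by
            simp only [Set.image_image, inv_mul_cancel_left, Set.image_id']
          right_inv := fun A => by
            simp only [Set.image_image, mul_inv_cancel_left, Set.image_id'] }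
      map_one' := by ext A : 1; simp
      map_mul' := by
        intro a b
        ext A : 1
        simp only [Equiv.coe_fn_mk, Equiv.Perm.coe_mul, Function.comp_apply, Set.image_image,
          mul_assoc] }
  have hρ : ∀ g A, ρ g A = (fun h => g * h) '' A := fun _ _ => rfl
  let K : Set (Set P → ℝ) := {m | (∀ A, m A ∈ Icc (0 : ℝ) 1) ∧ m univ = 1 ∧
    ∀ A B, Disjoint A B → m (A ∪ B) = m A + m B}
  have hne : K.Nonempty := by
    refine ⟨fun A => if (1 : P) ∈ A then 1 else 0, fun A => ?_, by simp, fun A B hAB => ?_⟩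
    · dsimp only
      split_ifs <;> simp
    · by_cases hA : (1 : P) ∈ A
      · have hB : (1 : P) ∉ B := fun hB => Set.disjoint_left.1 hAB hA hB
        simp [hA, hB]
      · by_cases hB : (1 : P) ∈ B <;> simp [hA, hB]
  have hc : IsCompact K := by
    have h1 : IsCompact (Set.pi univ fun _ : Set P => Icc (0 : ℝ) 1) :=
      isCompact_univ_pi fun _ => isCompact_Icc
    have h2 : IsClosed {m : Set P → ℝ | m univ = 1 ∧
        ∀ A B, Disjoint A B → m (A ∪ B) = m A + m B} := by
      refine IsClosed.inter (isClosed_eq (continuous_apply _) continuous_const) ?_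
      change IsClosed {m : Set P → ℝ | ∀ A B, Disjoint A B → m (A ∪ B) = m A + m B}
      simp only [ofPred_forall]
      refine isClosed_iInter fun A => isClosed_iInter fun B => isClosed_iInter fun _ => ?_
      exact isClosed_eq (continuous_apply _) (by fun_prop)
    convert h1.inter_right h2 using 1
    ext m
    simp only [K, Set.mem_pi, mem_ofPred_eq, mem_inter_iff, mem_univ, true_imp_iff]
  have hv : Convex ℝ K := by
    intro x hx y hy a b ha hb hab
    refine ⟨fun A => ?_, ?_, fun A B hAB => ?_⟩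
    · exact convex_Icc (0 : ℝ) 1 (hx.1 A) (hy.1 A) ha hb hab
    · simp [hx.2.1, hy.2.1, hab]
    · simp only [Pi.add_apply, Pi.smul_apply, smul_eq_mul, hx.2.2 A B hAB, hy.2.2 A B hAB]
      ring
  obtain ⟨m, hm, hfix⟩ := hG (Set P) ρ K hne hc hv (by
    intro g _ m hm
    refine ⟨fun A => hm.1 _, ?_, fun A B hAB => ?_⟩
    · simp only [Function.comp_apply, hρ]
      rw [Set.image_univ_of_surjective (Group.mulLeft_bijective g).2]
      exact hm.2.1
    · simp only [Function.comp_apply, hρ, Set.image_union]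
      exact hm.2.2 _ _ (Set.disjoint_image_of_injective (mul_right_injective g) hAB))
  let o : P → P := fun p => Quotient.out (Quotient.mk (QuotientGroup.rightRel G) p)
  have ho : ∀ p, p * (o p)⁻¹ ∈ G := by
    intro p
    have : (QuotientGroup.rightRel G) (o p) p := Quotient.exact (Quotient.out_eq _)
    exact QuotientGroup.rightRel_apply.1 this
  have ho2 : ∀ (g : G) (p : P), o (g * p) = o p := by
    intro g p
    have : Quotient.mk (QuotientGroup.rightRel G) (g * p) =
        Quotient.mk (QuotientGroup.rightRel G) p := by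
      apply Quotient.sound
      apply QuotientGroup.rightRel_apply.2
      simp
    simp only [o, this]
  let r : P → G := fun p => ⟨p * (o p)⁻¹, ho p⟩
  have hr : ∀ (g : G) (p : P), r (g * p) = g * r p := by
    intro g p
    apply Subtype.ext
    simp [r, ho2, mul_assoc]
  refine ⟨fun A => m (r ⁻¹' A), fun A => (hm.1 _).1, by simpa using hm.2.1, fun A B hAB => ?_,
    fun g A => ?_⟩
  · change m (r ⁻¹' (A ∪ B)) = m (r ⁻¹' A) + m (r ⁻¹' B)
    rw [Set.preimage_union]
    exact hm.2.2 _ _ (hAB.preimage r)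
  · have h1 := congrFun (hfix g g.2) (r ⁻¹' A)
    simp only [Function.comp_apply, hρ] at h1
    change m (r ⁻¹' ((fun h => g * h) '' A)) = m (r ⁻¹' A)
    rw [← h1]
    congr 1
    ext p
    constructor
    · rintro ⟨a, ha, hp⟩
      refine ⟨(g⁻¹ : G) * p, ?_, by simp⟩
      rw [Set.mem_preimage, hr, ← hp]
      simpa using ha
    · rintro ⟨q, hq, rfl⟩
      exact ⟨r q, hq, (hr g q).symm⟩

end Pool.Agent.H240Z.Amen
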