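import Mathlib

set_option autoImplicit false

open MeasureTheory Set Filter Topology

namespace Pool.Agent.H520Z.Sel

namespace LocSer

/-- A shifted sequence. -/
def sh (f : ℕ → ℝ) (d k : ℕ) : ℝ := if d ≤ k then f (k - d) else 0

theorem exists_rec (m : ℕ) (hm : 3 ≤ m) (x σ : ℝ) : ∃ f : ℕ → ℝ, ∀ k,
    f k = x * sh f 1 k + σ * x * sh f (m - 1) k - σ * sh f m k + (if k = 0 then 1 else 0) +
      σ * (if k = m then 1 else 0) := by
  let D : PowerSeries ℝ := 1 - PowerSeries.C x * PowerSeries.X ^ 1 -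
    PowerSeries.C (σ * x) * PowerSeries.X ^ (m - 1) + PowerSeries.C σ * PowerSeries.X ^ m
  have hD : PowerSeries.constantCoeff D ≠ 0 := by
    simp [D, show m - 1 ≠ 0 by omega, show m ≠ 0 by omega]
  let Φ : PowerSeries ℝ := D⁻¹ * (1 + PowerSeries.C σ * PowerSeries.X ^ m)
  have h : D * Φ = 1 + PowerSeries.C σ * PowerSeries.X ^ m := by
    rw [← mul_assoc, PowerSeries.mul_inv_cancel _ hD, one_mul]
  refine ⟨fun k => PowerSeries.coeff k Φ, fun k => ?_⟩
  have h1 := congrArg (PowerSeries.coeff k) h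
  simp only [D, add_mul, sub_mul, one_mul, mul_assoc, map_add, map_sub, PowerSeries.coeff_C_mul,
    PowerSeries.coeff_X_pow_mul', PowerSeries.coeff_one, PowerSeries.coeff_X_pow] at h1
  simp only [sh]
  linarith

theorem sh_le {f : ℕ → ℝ} {c : ℝ} (hc : 0 ≤ c) {k d e : ℕ} (he : 1 ≤ e) (hd : e ≤ d)
    (h : ∀ j < k, |f j| ≤ c * 2 ^ j) : |sh f d k| ≤ c * 2 ^ k / 2 ^ e := by
  unfold sh
  split_ifs with h1
  · refine (h _ (by omega)).trans ?_
    rw [le_div_iff₀ (by positivity), mul_assoc, ← pow_add]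
    exact mul_le_mul_of_nonneg_left (pow_le_pow_right₀ one_le_two (by omega)) hc
  · simp only [abs_zero]
    positivity

section

variable {m : ℕ} (hm : 3 ≤ m) {x σ : ℝ} {f : ℕ → ℝ}
  (hf : ∀ k, f k = x * sh f 1 k + σ * x * sh f (m - 1) k - σ * sh f m k +
    (if k = 0 then 1 else 0) + σ * (if k = m then 1 else 0))

include hm hf

theorem f_zero : f 0 = 1 := by
  rw [hf 0]
  simp [sh, show ¬ m - 1 ≤ 0 by omega, show ¬ m ≤ 0 by omega, show ¬ 0 = m by omega]

theorem f_one : f 1 = x := by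
  rw [hf 1]
  simp [sh, show ¬ m - 1 ≤ 1 by omega, show ¬ m ≤ 1 by omega, show ¬ 1 = m by omega,
    f_zero hm hf]

theorem f_rec (k : ℕ) (hk : 1 ≤ k) : f k = x * sh f 1 k + σ * x * sh f (m - 1) k -
    σ * (if k = m then 0 else sh f m k) := by
  rw [hf k, if_neg (by omega)]
  split_ifs with h
  · subst h
    simp [sh, f_zero hm hf]
  · simp

theorem f_bound (hx : |x| ≤ 1 / 2) (hσ : |σ| = 1) (k : ℕ) : |f k| ≤ 1 * 2 ^ k := by
  induction k using Nat.strong_induction_on with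
  | _ k ih =>
    rcases Nat.eq_zero_or_pos k with rfl | hk
    · simp [f_zero hm hf]
    have h1 := sh_le zero_le_one le_rfl le_rfl ih
    have h2 := sh_le zero_le_one (show 1 ≤ 2 by omega) (show 2 ≤ m - 1 by omega) ih
    have h3 : |if k = m then 0 else sh f m k| ≤ 1 * 2 ^ k / 2 ^ 3 := by
      split_ifs
      · simp only [abs_zero]
        positivity
      · exact sh_le zero_le_one (by omega) hm ih
    rw [f_rec hm hf k hk]
    refine (abs_sub _ _).trans ((add_le_add_left (abs_add_le _ _) _).trans ?_)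
    simp only [abs_mul, hσ, one_mul] at h1 h2 h3 ⊢
    have h4 := mul_le_mul hx h1 (abs_nonneg _) (by norm_num)
    have h5 := mul_le_mul hx h2 (abs_nonneg _) (by norm_num)
    have : (0 : ℝ) < 2 ^ k := by positivity
    linarith

theorem f_vanish (hx : x = 0) (k : ℕ) (hk : 1 ≤ k) : f k = 0 := by
  induction k using Nat.strong_induction_on with
  | _ k ih =>
    rw [f_rec hm hf k hk, hx]
    split_ifs with h
    · simp
    · have : sh f m k = 0 := by
        unfold sh
        split_ifs with h2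
        · exact ih (k - m) (by omega) (by omega)
        · rfl
      simp [this]

theorem f_lip {x' : ℝ} {g : ℕ → ℝ}
    (hg : ∀ k, g k = x' * sh g 1 k + σ * x' * sh g (m - 1) k - σ * sh g m k +
      (if k = 0 then 1 else 0) + σ * (if k = m then 1 else 0))
    (hx : |x| ≤ 1 / 2) (hx' : |x'| ≤ 1 / 2) (hσ : |σ| = 1) (k : ℕ) :
    |f k - g k| ≤ 2 * |x - x'| * 2 ^ k := by
  induction k using Nat.strong_induction_on with
  | _ k ih =>
    have hδ : 0 ≤ 2 * |x - x'| := by positivity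
    have e : ∀ d, sh f d k - sh g d k = sh (fun j => f j - g j) d k := fun d => by
      unfold sh
      split_ifs <;> simp
    have h1 := sh_le hδ le_rfl le_rfl ih
    have h2 := sh_le hδ (show 1 ≤ 2 by omega) (show 2 ≤ m - 1 by omega) ih
    have h3 := sh_le hδ (show 1 ≤ 3 by omega) hm ih
    have hb : ∀ j < k, |g j| ≤ 1 * 2 ^ j := fun j _ => f_bound hm hg hx' hσ j
    have h4 := sh_le zero_le_one le_rfl le_rfl hb
    have h5 := sh_le zero_le_one (show 1 ≤ 2 by omega) (show 2 ≤ m - 1 by omega) hb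
    have e2 : f k - g k = x * sh (fun j => f j - g j) 1 k + (x - x') * sh g 1 k +
        σ * (x * sh (fun j => f j - g j) (m - 1) k) + σ * ((x - x') * sh g (m - 1) k) -
        σ * sh (fun j => f j - g j) m k := by
      rw [← e, ← e, ← e, hf k, hg k]
      ring
    rw [e2]
    refine (abs_sub _ _).trans ((add_le_add_left ((abs_add_le _ _).trans (add_le_add_left
      ((abs_add_le _ _).trans (add_le_add_left (abs_add_le _ _) _)) _)) _).trans ?_)
    simp only [abs_mul, hσ, one_mul] at h4 h5 ⊢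
    have h6 := mul_le_mul hx h1 (abs_nonneg _) (by norm_num)
    have h7 := mul_le_mul hx h2 (abs_nonneg _) (by norm_num)
    have h8 := mul_le_mul_of_nonneg_left h4 (abs_nonneg (x - x'))
    have h9 := mul_le_mul_of_nonneg_left h5 (abs_nonneg (x - x'))
    have : (0 : ℝ) ≤ |x - x'| * 2 ^ k := by positivity
    linarith

theorem f_sum (hx : |x| ≤ 1 / 2) (hσ : |σ| = 1) (z : ℂ) (hz : ‖z‖ < 1 / 2) :
    HasSum (fun k => (f k : ℂ) * z ^ k)
      ((1 + σ * z ^ m) / (1 - x * z + σ * z ^ (m - 1) * (z - x))) := by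
  have hs : Summable fun k => (f k : ℂ) * z ^ k := by
    refine Summable.of_norm_bounded
      (summable_geometric_of_lt_one (r := 2 * ‖z‖) (by positivity) (by linarith)) fun k => ?_
    rw [norm_mul, norm_pow, Complex.norm_real, mul_pow]
    exact mul_le_mul_of_nonneg_right (by simpa using f_bound hm hf hx hσ k) (by positivity)
  obtain ⟨S, hS⟩ := hs
  have hsh : ∀ d, HasSum (fun k => (sh f d k : ℂ) * z ^ k) (z ^ d * S) := by
    intro d
    rw [← hasSum_nat_add_iff' d]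
    have : ∑ i ∈ Finset.range d, (sh f d i : ℂ) * z ^ i = 0 :=
      Finset.sum_eq_zero fun i hi => by simp [sh, not_le.2 (Finset.mem_range.1 hi)]
    rw [this, sub_zero]
    have e : (fun k => (sh f d (k + d) : ℂ) * z ^ (k + d)) =
        fun k => z ^ d * ((f k : ℂ) * z ^ k) := by
      funext k
      simp only [sh, le_add_self, if_true, Nat.add_sub_cancel, pow_add]
      ring
    rw [e]
    exact hS.mul_left _
  have h1 := ((((hsh 1).mul_left (x : ℂ)).add ((hsh (m - 1)).mul_left ((σ : ℂ) * x))).sub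
    ((hsh m).mul_left (σ : ℂ))).add
    ((hasSum_ite_eq 0 (1 : ℂ)).add (hasSum_ite_eq m ((σ : ℂ) * z ^ m)))
  have h2 : S = x * (z ^ 1 * S) + σ * x * (z ^ (m - 1) * S) - σ * (z ^ m * S) +
      (1 + σ * z ^ m) := by
    refine hS.unique (Eq.subst (motive := fun F : ℕ → ℂ => HasSum F _) (funext fun k => ?_) h1)
    symm
    rw [hf k]
    push_cast
    by_cases hk : k = 0
    · subst hk
      simp [show ¬ 0 = m by omega]
    · by_cases hk' : k = m
      · subst hk'
        simp [hk]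
        ring
      · simp [hk, hk']
        ring
  have hx' : ‖(x : ℂ)‖ ≤ 1 / 2 := by simpa using hx
  have hD : (1 - x * z + σ * z ^ (m - 1) * (z - x) : ℂ) ≠ 0 := by
    intro h
    have h3 : (1 : ℂ) = x * z - σ * z ^ (m - 1) * (z - x) := by linear_combination h
    have h4 : ‖z‖ ^ (m - 1) ≤ 1 / 2 :=
      (pow_le_of_le_one (norm_nonneg _) (by linarith) (by omega)).trans hz.le
    have h5 : ‖z - x‖ ≤ 1 := (norm_sub_le _ _).trans (by linarith)
    have h6 := (congrArg norm h3).trans_le (norm_sub_le _ _)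
    rw [norm_one, norm_mul, norm_mul, norm_mul, norm_pow, Complex.norm_real σ, Real.norm_eq_abs,
      hσ, one_mul] at h6
    have h7 := mul_le_mul h4 h5 (norm_nonneg _) (by norm_num)
    have h8 := mul_le_mul hx' hz.le (norm_nonneg _) (by norm_num)
    linarith
  have h3 : z ^ m = z ^ (m - 1) * z := by rw [← pow_succ]; congr 1; omega
  convert hS using 1
  rw [div_eq_iff hD]
  rw [h3] at h2 ⊢
  linear_combination -h2

end

theorem exists_roots (q : Polynomial ℂ) (hq : q.Monic) :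
    ∃ α : Fin q.natDegree → ℂ, ∀ z, q.eval z = ∏ j, (z - α j) := by
  have hs := IsAlgClosed.splits q
  have h1 : q.natDegree = q.roots.toList.length := by
    rw [Multiset.length_toList, hs.natDegree_eq_card_roots]
  rw [h1]
  refine ⟨fun j => q.roots.toList[j.1], fun z => ?_⟩
  rw [Fin.prod_univ_fun_getElem q.roots.toList fun a => z - a]
  conv_lhs => rw [hs.eq_prod_roots_of_monic hq]
  rw [Polynomial.eval_multiset_prod, Multiset.map_map, ← Multiset.prod_coe, ← Multiset.map_coe,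
    Multiset.coe_toList]
  simp

theorem roots_part (m : ℕ) (hm : 3 ≤ m) (x : ℝ) (hx : |x| ≤ 1 / 2) :
    ∃ α : Fin m → ℂ, (∀ j, ‖α j‖ = 1) ∧ ∏ j, α j = 1 ∧
      ∀ z : ℂ, ∏ j, (1 - α j * z) = 1 - x * z + (-1) ^ m * z ^ (m - 1) * (z - x) := by
  obtain ⟨n, rfl⟩ : ∃ n, m = n + 3 := ⟨m - 3, by omega⟩
  let q : Polynomial ℂ := Polynomial.X ^ (n + 3) - Polynomial.C (x : ℂ) * Polynomial.X ^ (n + 2) -
    Polynomial.C ((-1) ^ (n + 3) * x : ℂ) * Polynomial.X + Polynomial.C ((-1) ^ (n + 3))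
  have hq : q.Monic := by
    unfold q
    monicity!
    omega
  have hd : q.natDegree = n + 3 := by
    unfold q
    compute_degree!
    simp
  obtain ⟨α, hα⟩ := hd ▸ exists_roots q hq
  have he : ∀ z, ∏ j, (z - α j) = z ^ (n + 2) * (z - x) + (-1) ^ (n + 3) * (1 - x * z) := by
    intro z
    rw [← hα]
    simp [q]
    ring
  have hx2 : x ^ 2 < 1 := by
    have := sq_abs x
    nlinarith [abs_nonneg x]
  refine ⟨α, fun j => ?_, ?_, fun z => ?_⟩
  · have h1 := he (α j)
    rw [Finset.prod_eq_zero (Finset.mem_univ j) (sub_self _)] at h1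
    have h2 : α j ^ (n + 2) * (α j - x) = -((-1) ^ (n + 3) * (1 - x * α j)) := by
      linear_combination -h1
    have h3 := congrArg norm h2
    simp only [norm_mul, norm_pow, norm_neg, norm_one, one_pow, one_mul] at h3
    have h4 : ‖1 - x * α j‖ ^ 2 - ‖α j - x‖ ^ 2 = (1 - x ^ 2) * (1 - ‖α j‖ ^ 2) := by
      simp only [Complex.sq_norm, Complex.normSq_apply]
      simp
      ring
    have h5 := norm_nonneg (α j)
    have h6 := norm_nonneg (α j - x)
    rcases lt_trichotomy ‖α j‖ 1 with h | h | h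
    · have h7 : ‖α j‖ ^ (n + 2) ≤ 1 := pow_le_one₀ h5 h.le
      have h8 : ‖1 - x * α j‖ ≤ ‖α j - x‖ := by nlinarith
      have h9 := pow_le_pow_left₀ (norm_nonneg _) h8 2
      have h10 : 0 < (1 - x ^ 2) * (1 - ‖α j‖ ^ 2) := mul_pos (by linarith) (by nlinarith)
      linarith
    · exact h
    · have h7 : 1 ≤ ‖α j‖ ^ (n + 2) := one_le_pow₀ h.le
      have h8 : ‖α j - x‖ ≤ ‖1 - x * α j‖ := by nlinarith
      have h9 := pow_le_pow_left₀ (norm_nonneg _) h8 2
      have h10 : (1 - x ^ 2) * (1 - ‖α j‖ ^ 2) < 0 :=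
        mul_neg_of_pos_of_neg (by linarith) (by nlinarith)
      linarith
  · have h1 := he 0
    simp only [zero_sub, Finset.prod_neg, Finset.card_univ, Fintype.card_fin] at h1
    have h2 : ((-1 : ℂ)) ^ (n + 3) ≠ 0 := pow_ne_zero _ (by norm_num)
    apply mul_left_cancel₀ h2
    rw [h1]
    simp
  · by_cases hz : z = 0
    · simp [hz]
    · have h1 : ∏ j, (1 - α j * z) = ∏ j, (z * (z⁻¹ - α j)) :=
        Finset.prod_congr rfl fun j _ => by field_simp
      rw [h1, Finset.prod_mul_distrib, he, Finset.prod_const, Finset.card_univ, Fintype.card_fin,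
        show n + 3 - 1 = n + 2 by omega, inv_pow]
      field_simp
      ring

theorem euler_part (m : ℕ) (hm : 3 ≤ m) :
    ∃ (F0 : ℂ → ℂ) (C : ℝ), 0 < C ∧ DifferentiableOn ℂ F0 {s : ℂ | 1 / 2 < s.re} ∧
      ∀ s : ℂ, 1 / 2 < s.re → ‖F0 s‖ ≤ C ∧ 1 ≤ C * ‖F0 s‖ ∧
        F0 (starRingEnd ℂ s) = starRingEnd ℂ (F0 s) ∧
        HasProd (fun p : Nat.Primes => if (p : ℕ) = 2 then (1 : ℂ) else
          (1 + (-1) ^ m * (((p : ℕ) : ℂ) ^ (-s)) ^ m)⁻¹) (F0 s) := by
  let a : Nat.Primes → ℂ → ℂ := fun p s =>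
    if (p : ℕ) = 2 then 0 else (-1) ^ m * (((p : ℕ) : ℂ) ^ (-s)) ^ m
  let u : Nat.Primes → ℝ := fun p => (p : ℝ) ^ (-3 / 2 : ℝ)
  have hu : Summable u := Nat.Primes.summable_rpow.2 (by norm_num)
  have hp2 : ∀ p : Nat.Primes, (2 : ℝ) ≤ (p : ℕ) := fun p => by exact_mod_cast p.2.two_le
  have hu2 : ∀ p, u p ≤ 1 / 2 := by
    intro p
    calc u p ≤ (p : ℝ) ^ (-1 : ℝ) :=
          Real.rpow_le_rpow_of_exponent_le (by linarith [hp2 p]) (by norm_num)
      _ ≤ 1 / 2 := by
          rw [Real.rpow_neg_one, one_div]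
          exact inv_anti₀ two_pos (hp2 p)
  have ha : ∀ p s, 1 / 2 < s.re → ‖a p s‖ ≤ u p := by
    intro p s hs
    simp only [a]
    split_ifs
    · simp only [norm_zero, u]
      positivity
    · rw [norm_mul, norm_pow, norm_pow, norm_neg, norm_one, one_pow, one_mul,
        Complex.norm_natCast_cpow_of_pos p.2.pos, ← Real.rpow_natCast,
        ← Real.rpow_mul (Nat.cast_nonneg _)]
      refine Real.rpow_le_rpow_of_exponent_le (by linarith [hp2 p]) ?_
      have : (3 : ℝ) ≤ m := by exact_mod_cast hm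
      simp only [Complex.neg_re]
      nlinarith
  have hsl : ∀ p s, 1 / 2 < s.re → 1 + a p s ∈ Complex.slitPlane := fun p s hs =>
    Complex.mem_slitPlane_of_norm_lt_one (((ha p s hs).trans (hu2 p)).trans_lt (by norm_num))
  have hl : ∀ p s, 1 / 2 < s.re → ‖-Complex.log (1 + a p s)‖ ≤ 3 / 2 * u p := fun p s hs => by
    rw [norm_neg]
    exact (Complex.norm_log_one_add_half_le_self ((ha p s hs).trans (hu2 p))).trans
      (mul_le_mul_of_nonneg_left (ha p s hs) (by norm_num))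
  have hu' := hu.mul_left (3 / 2)
  have hprod : ∀ s : ℂ, 1 / 2 < s.re → HasProd (fun p : Nat.Primes => if (p : ℕ) = 2 then (1 : ℂ)
      else (1 + (-1) ^ m * (((p : ℕ) : ℂ) ^ (-s)) ^ m)⁻¹)
      (Complex.exp (∑' p, -Complex.log (1 + a p s))) := by
    intro s hs
    convert (Summable.of_norm_bounded hu' fun p => hl p s hs).hasSum.cexp using 2 with p
    rw [Function.comp_apply, Complex.exp_neg, Complex.exp_log (Complex.slitPlane_ne_zero (hsl p s hs))]
    simp only [a]
    split_ifs <;> simp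
  refine ⟨fun s => Complex.exp (∑' p, -Complex.log (1 + a p s)), Real.exp (∑' p, 3 / 2 * u p),
    Real.exp_pos _, ?_, fun s hs => ?_⟩
  · refine DifferentiableOn.cexp (Complex.differentiableOn_tsum_of_summable_norm hu' (fun p => ?_)
      (isOpen_lt continuous_const Complex.continuous_re) fun p s hs => hl p s hs)
    refine (DifferentiableOn.clog ?_ fun s hs => hsl p s hs).neg
    refine (differentiableOn_const _).add (Differentiable.differentiableOn ?_)
    simp only [a]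
    split_ifs
    · exact differentiable_const _
    · exact ((differentiable_id.neg.const_cpow
        (Or.inl (by exact_mod_cast p.2.ne_zero))).pow m).const_mul _
  · have h1 : ‖∑' p, -Complex.log (1 + a p s)‖ ≤ ∑' p, 3 / 2 * u p :=
      tsum_of_norm_bounded hu'.hasSum fun p => hl p s hs
    have h2 := abs_le.1 ((Complex.abs_re_le_norm _).trans h1)
    refine ⟨?_, ?_, ?_, hprod s hs⟩
    · rw [Complex.norm_exp]
      exact Real.exp_le_exp.2 h2.2
    · rw [Complex.norm_exp, ← Real.exp_add]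
      exact Real.one_le_exp (by linarith [h2.1])
    · refine (hprod _ (by simpa using hs)).unique ?_
      convert (hprod s hs).map (starRingEnd ℂ) Complex.continuous_conj using 2 with p
      rw [Function.comp_apply]
      split_ifs
      · simp
      · rw [← map_neg, Complex.cpow_conj _ _ (by
          rw [Complex.natCast_arg]
          exact Real.pi_ne_zero.symm)]
        simp

end LocSer

theorem local_series (m : ℕ) (hm : 3 ≤ m) : (∃ φ : ℝ → ℕ → ℝ,
    (∀ x, φ x 0 = 1 ∧ φ x 1 = x) ∧ (∀ k, 1 ≤ k → φ 0 k = 0) ∧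
    (∀ x x' : ℝ, |x| ≤ 1 / 2 → |x'| ≤ 1 / 2 → ∀ k, |φ x k - φ x' k| ≤ 2 * 2 ^ k * |x - x'|) ∧
    ∀ x : ℝ, |x| ≤ 1 / 2 → ∀ z : ℂ, ‖z‖ < 1 / 2 → HasSum (fun k => (φ x k : ℂ) * z ^ k)
      ((1 + (-1) ^ m * z ^ m) / (1 - x * z + (-1) ^ m * z ^ (m - 1) * (z - x)))) ∧
    (∀ x : ℝ, |x| ≤ 1 / 2 → ∃ α : Fin m → ℂ, (∀ j, ‖α j‖ = 1) ∧ ∏ j, α j = 1 ∧
      ∀ z : ℂ, ∏ j, (1 - α j * z) = 1 - x * z + (-1) ^ m * z ^ (m - 1) * (z - x)) ∧
    ∃ (F0 : ℂ → ℂ) (C : ℝ), 0 < C ∧ DifferentiableOn ℂ F0 {s : ℂ | 1 / 2 < s.re} ∧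
      ∀ s : ℂ, 1 / 2 < s.re → ‖F0 s‖ ≤ C ∧ 1 ≤ C * ‖F0 s‖ ∧
        F0 (starRingEnd ℂ s) = starRingEnd ℂ (F0 s) ∧
        HasProd (fun p : Nat.Primes => if (p : ℕ) = 2 then (1 : ℂ) else
          (1 + (-1) ^ m * (((p : ℕ) : ℂ) ^ (-s)) ^ m)⁻¹) (F0 s) := by
  refine ⟨?_, LocSer.roots_part m hm, LocSer.euler_part m hm⟩
  choose φ hφ using fun x => LocSer.exists_rec m hm x ((-1) ^ m)
  have hσ : |((-1 : ℝ)) ^ m| = 1 := by simp
  refine ⟨φ, fun x => ⟨LocSer.f_zero hm (hφ x), LocSer.f_one hm (hφ x)⟩,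
    LocSer.f_vanish hm (hφ 0) rfl, fun x x' hx hx' k => ?_, fun x hx z hz => ?_⟩
  · have := LocSer.f_lip hm (hφ x) (hφ x') hx hx' hσ k
    linarith
  · simpa using LocSer.f_sum hm (hφ x) hx hσ z hz

end Pool.Agent.H520Z.Sel
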