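import Mathlib

/-!
Platek's typed lambda calculus and its model of hereditarily monotone functionals.
-/

namespace Pool.Agent.H240Z.Pcf

/-- Finite types: the base type `o` (natural numbers) and arrow types. -/
inductive Ty : Type
  | o : Ty
  | arr : Ty → Ty → Ty

/-- The hierarchy of monotone functionals with its information order: the base type is `Part ℕ`
(a natural number or undefined, with the flat order), and an arrow type is the set of all
monotone maps, ordered pointwise. -/
def DomS : Ty → Σ α : Type, PartialOrder α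
  | .o => ⟨Part ℕ, inferInstance⟩
  | .arr s t =>
    ⟨@OrderHom (DomS s).1 (DomS t).1 (DomS s).2.toPreorder (DomS t).2.toPreorder,
      @OrderHom.instPartialOrder (DomS s).1 (DomS s).2.toPreorder (DomS t).1 (DomS t).2⟩

/-- The monotone functionals of type `s`. -/
def D (s : Ty) : Type := (DomS s).1

/-- The information order. -/
instance instD (s : Ty) : PartialOrder (D s) := (DomS s).2

/-- An object of base type, read as a possibly undefined number. -/
def toP (x : D .o) : Part ℕ := x

/-- A possibly undefined number, read as an object of base type. -/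
def ofP (x : Part ℕ) : D .o := x

/-- An object of arrow type, read as a monotone map. -/
def toF {s t : Ty} (f : D (.arr s t)) : D s →o D t := f

/-- A monotone map, read as an object of arrow type. -/
def ofF {s t : Ty} (f : D s →o D t) : D (.arr s t) := f

theorem le_o {x y : D .o} : x ≤ y ↔ ∀ n, n ∈ toP x → n ∈ toP y := Iff.rfl

theorem le_arr {s t : Ty} {f g : D (.arr s t)} : f ≤ g ↔ ∀ x, toF f x ≤ toF g x := Iff.rfl

/-- Every chain has a least upper bound, and it is computed pointwise. -/
theorem exists_lub (s : Ty) : ∀ c : Set (D s), IsChain (· ≤ ·) c → ∃ x, IsLUB c x := by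
  induction s with
  | o =>
    intro c hc
    classical
    by_cases h : ∃ x ∈ c, (toP x).Dom
    · obtain ⟨x, hx, hd⟩ := h
      refine ⟨x, fun y hy => ?_, fun y hy => hy hx⟩
      rcases hc.total hy hx with h1 | h1
      · exact h1
      · intro n hn
        have h2 : (toP x).get hd ∈ toP y := h1 _ (Part.get_mem hd)
        rw [Part.mem_unique hn h2]
        exact Part.get_mem hd
    · refine ⟨ofP Part.none, fun y hy n hn => ?_, fun y _ n hn => ?_⟩
      · exact absurd ⟨y, hy, Part.dom_iff_mem.2 ⟨n, hn⟩⟩ h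
      · exact absurd hn (Part.notMem_none n)
  | arr s t _ ih =>
    intro c hc
    have h : ∀ x : D s, ∃ y, IsLUB ((fun f => toF f x) '' c) y := fun x =>
      ih _ (by
        rintro _ ⟨f, hf, rfl⟩ _ ⟨g, hg, rfl⟩ _
        rcases hc.total hf hg with h1 | h1
        · exact Or.inl (h1 x)
        · exact Or.inr (h1 x))
    choose F hF using h
    refine ⟨ofF ⟨F, fun x y hxy => (hF x).2 ?_⟩, fun f hf x => (hF x).1 ⟨f, hf, rfl⟩,
      fun g hg x => (hF x).2 ?_⟩
    · rintro _ ⟨f, hf, rfl⟩
      exact ((toF f).monotone hxy).trans ((hF y).1 ⟨f, hf, rfl⟩)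
    · rintro _ ⟨f, hf, rfl⟩
      exact hg hf x

/-- Fixed point induction: a property closed under the map and under least upper bounds of
chains holds of a fixed point lying below all prefixed points. -/
theorem exists_fix_of {s : Ty} (f : D s →o D s) (S : Set (D s)) (h1 : ∀ x ∈ S, f x ∈ S)
    (h2 : ∀ c ⊆ S, IsChain (· ≤ ·) c → ∀ x, IsLUB c x → x ∈ S) :
    ∃ x ∈ S, f x = x ∧ ∀ y, f y ≤ y → x ≤ y := by
  obtain ⟨m, hm⟩ := zorn_le₀ {x | x ∈ S ∧ x ≤ f x ∧ ∀ y, f y ≤ y → x ≤ y} (fun c hc hch => by
    obtain ⟨x, hx⟩ := exists_lub s c hch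
    refine ⟨x, ⟨h2 c (fun z hz => (hc hz).1) hch x hx, hx.2 fun z hz => ?_,
      fun y hy => hx.2 fun z hz => (hc hz).2.2 y hy⟩, fun z hz => hx.1 hz⟩
    exact (hc hz).2.1.trans (f.monotone (hx.1 hz)))
  obtain ⟨hS, hle, hmin⟩ := hm.prop
  refine ⟨m, hS, le_antisymm (hm.le_of_ge ⟨h1 m hS, f.monotone hle, fun y hy => ?_⟩ hle) hle, hmin⟩
  exact (f.monotone (hmin y hy)).trans hy

theorem exists_lfp {s : Ty} (f : D s →o D s) : ∃ x, IsLeast {y | f y = y} x := by
  obtain ⟨x, -, h1, h2⟩ := exists_fix_of f Set.univ (fun _ _ => trivial) (fun _ _ _ _ _ => trivial)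
  exact ⟨x, h1, fun y hy => h2 y (le_of_eq hy)⟩

/-- The least fixed point of a monotone map. -/
noncomputable def lfp {s : Ty} (f : D s →o D s) : D s := Classical.choose (exists_lfp f)

theorem lfp_spec {s : Ty} (f : D s →o D s) : IsLeast {y | f y = y} (lfp f) :=
  Classical.choose_spec (exists_lfp f)

theorem lfp_induct {s : Ty} (f : D s →o D s) (S : Set (D s)) (h1 : ∀ x ∈ S, f x ∈ S)
    (h2 : ∀ c ⊆ S, IsChain (· ≤ ·) c → ∀ x, IsLUB c x → x ∈ S) :
    lfp f ∈ S ∧ ∀ y, f y ≤ y → lfp f ≤ y := by
  obtain ⟨x, hS, h3, h4⟩ := exists_fix_of f S h1 h2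
  have : lfp f = x := le_antisymm ((lfp_spec f).2 h3) (h4 _ (le_of_eq (lfp_spec f).1))
  rw [this]
  exact ⟨hS, h4⟩

theorem lfp_mono {s : Ty} {f g : D s →o D s} (h : f ≤ g) : lfp f ≤ lfp g :=
  (lfp_induct f Set.univ (fun _ _ => trivial) (fun _ _ _ _ _ => trivial)).2 _
    ((h _).trans (le_of_eq (lfp_spec g).1))

/-- Typed de Bruijn variables in a context. -/
inductive Var : List Ty → Ty → Type
  | z {Γ : List Ty} {s : Ty} : Var (s :: Γ) s
  | s {Γ : List Ty} {s t : Ty} : Var Γ s → Var (t :: Γ) s

/-- Terms of Platek's typed lambda calculus in a context of free variables. -/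
inductive Tm : List Ty → Ty → Type
  | var {Γ : List Ty} {s : Ty} : Var Γ s → Tm Γ s
  | zero {Γ : List Ty} : Tm Γ .o
  | succ {Γ : List Ty} : Tm Γ (.arr .o .o)
  | pred {Γ : List Ty} : Tm Γ (.arr .o .o)
  | cases {Γ : List Ty} : Tm Γ (.arr .o (.arr .o (.arr .o .o)))
  | app {Γ : List Ty} {s t : Ty} : Tm Γ (.arr s t) → Tm Γ s → Tm Γ t
  | lam {Γ : List Ty} {s t : Ty} : Tm (s :: Γ) t → Tm Γ (.arr s t)
  | fix {Γ : List Ty} {s : Ty} : Tm Γ (.arr s s) → Tm Γ s

/-- Assignments of values to the variables of a context, ordered pointwise. -/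
abbrev Env (Γ : List Ty) : Type := ∀ s : Ty, Var Γ s → D s

/-- The assignment for the empty context. -/
def Env.nil : Env [] := fun _ v => nomatch v

/-- Extending an assignment by a value for a new variable. -/
def Env.cons {Γ : List Ty} {t : Ty} (x : D t) (ρ : Env Γ) : Env (t :: Γ)
  | _, .z => x
  | _, .s v => ρ _ v

theorem Env.cons_mono {Γ : List Ty} {t : Ty} {x y : D t} {ρ ρ' : Env Γ} (h : x ≤ y)
    (h' : ρ ≤ ρ') : Env.cons x ρ ≤ Env.cons y ρ' := by
  intro s v
  cases v with
  | z => exact h
  | s v => exact h' _ v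

/-- A total function on numbers as a strict object of type `o → o`. -/
def liftN (f : ℕ → ℕ) : D (.arr .o .o) :=
  ofF ⟨fun x => ofP ((toP x).map f), fun x y h n hn => by
    obtain ⟨m, hm, rfl⟩ := (Part.mem_map_iff f).1 hn
    exact Part.mem_map f (h m hm)⟩

/-- Definition by cases on possibly undefined numbers: undefined if the first argument is, the
second argument if the first is `0`, and the third if the first is positive. -/
def caseP (z x y : Part ℕ) : Part ℕ := z.bind fun m => if m = 0 then x else y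

theorem caseP_mono {z z' x x' y y' : Part ℕ} (hz : z ≤ z') (hx : x ≤ x') (hy : y ≤ y') :
    caseP z x y ≤ caseP z' x' y' := by
  intro n hn
  obtain ⟨m, hm, h⟩ := Part.mem_bind_iff.1 hn
  refine Part.mem_bind_iff.2 ⟨m, hz m hm, ?_⟩
  split_ifs at h ⊢
  · exact hx n h
  · exact hy n h

/-- Definition by cases as an object of type `o → o → o → o`. -/
def casesD : D (.arr .o (.arr .o (.arr .o .o))) :=
  ofF ⟨fun z => ofF ⟨fun x => ofF ⟨fun y => ofP (caseP (toP z) (toP x) (toP y)),
      fun _ _ h => caseP_mono le_rfl le_rfl h⟩,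
    fun _ _ h _ => caseP_mono le_rfl h le_rfl⟩,
    fun _ _ h _ _ => caseP_mono h le_rfl le_rfl⟩

/-- The interpretation of a variable. -/
def varE {Γ : List Ty} {s : Ty} (v : Var Γ s) : Env Γ →o D s :=
  ⟨fun ρ => ρ s v, fun _ _ h => h s v⟩

/-- The interpretation of a constant. -/
def constE {Γ : List Ty} {s : Ty} (x : D s) : Env Γ →o D s :=
  ⟨fun _ => x, fun _ _ _ => le_rfl⟩

/-- The interpretation of an application. -/
def appE {Γ : List Ty} {s t : Ty} (a : Env Γ →o D (.arr s t)) (b : Env Γ →o D s) :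
    Env Γ →o D t :=
  ⟨fun ρ => toF (a ρ) (b ρ), fun _ _ h => ((toF _).monotone (b.monotone h)).trans (a.monotone h _)⟩

/-- The interpretation of an abstraction. -/
def lamE {Γ : List Ty} {s t : Ty} (b : Env (s :: Γ) →o D t) : Env Γ →o D (.arr s t) :=
  ⟨fun ρ => ofF ⟨fun x => b (Env.cons x ρ), fun _ _ h => b.monotone (Env.cons_mono h le_rfl)⟩,
    fun _ _ h _ => b.monotone (Env.cons_mono le_rfl h)⟩

/-- The interpretation of the fixed point operator. -/
noncomputable def fixE {Γ : List Ty} {s : Ty} (a : Env Γ →o D (.arr s s)) : Env Γ →o D s :=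
  ⟨fun ρ => lfp (toF (a ρ)), fun _ _ h => lfp_mono (a.monotone h)⟩

/-- The interpretation of a term, as a monotone function of the values of its free variables,
by recursion on the term. -/
noncomputable def den {Γ : List Ty} {s : Ty} (t : Tm Γ s) : Env Γ →o D s :=
  Tm.rec (motive := fun Γ s _ => Env Γ →o D s)
    (fun v => varE v)
    (constE (ofP (Part.some 0)))
    (constE (liftN fun n => n + 1))
    (constE (liftN fun n => n - 1))
    (constE casesD)
    (fun _ _ a b => appE a b)
    (fun _ b => lamE b)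
    (fun _ a => fixE a)
    t

/-- Pure type 1. -/
abbrev ty1 : Ty := .arr .o .o

/-- Pure type 2. -/
abbrev ty2 : Ty := .arr ty1 .o

/-- Pure type 3. -/
abbrev ty3 : Ty := .arr ty2 .o

open Classical in
/-- The truth value of a proposition as a number: `1` for true and `0` for false. -/
noncomputable def ind (p : Prop) : ℕ := if p then 1 else 0

/-- A point of Cantor space as a zero-one valued function. -/
def bits (g : ℕ → Bool) (n : ℕ) : ℕ := if g n = true then 1 else 0

/-- A type 1 object is total with values `f`. -/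
def Vals (φ : D ty1) (f : ℕ → ℕ) : Prop := ∀ n, f n ∈ toP (toF φ (ofP (Part.some n)))

theorem Vals.unique {φ : D ty1} {f g : ℕ → ℕ} (hf : Vals φ f) (hg : Vals φ g) : f = g :=
  funext fun n => Part.mem_unique (hf n) (hg n)

theorem Vals.mono {φ ψ : D ty1} {f : ℕ → ℕ} (hf : Vals φ f) (h : φ ≤ ψ) : Vals ψ f :=
  fun n => h _ _ (hf n)

/-- A total functional `(ℕ → ℕ) → ℕ` as a type 2 object, defined exactly on the total type 1
objects. -/
noncomputable def lift2 (F : (ℕ → ℕ) → ℕ) : D ty2 :=
  ofF ⟨fun φ => ofP ⟨∃ f, Vals φ f, fun h => F (Classical.choose h)⟩, fun φ ψ h n hn => by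
    obtain ⟨h1, rfl⟩ := hn
    have h2 : ∃ f, Vals ψ f := ⟨_, (Classical.choose_spec h1).mono h⟩
    exact ⟨h2, congrArg F
      ((Classical.choose_spec h2).unique ((Classical.choose_spec h1).mono h))⟩⟩

/-- Kleene's quantifier: `0` if the total input has a zero and `1` otherwise. -/
noncomputable def exists2 : D ty2 := lift2 fun f => ind (¬ ∃ n, f n = 0)

/-- The type 2 object `Φ` is, on Cantor space, the characteristic function of `X`. -/
def IsChar (Φ : D ty2) (X : Set (ℕ → Bool)) : Prop :=
  ∀ g : ℕ → Bool, ind (g ∈ X) ∈ toP (toF Φ (liftN (bits g)))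

theorem IsChar.unique {Φ : D ty2} {X Y : Set (ℕ → Bool)} (hX : IsChar Φ X) (hY : IsChar Φ Y) :
    X = Y := by
  ext g
  have h := Part.mem_unique (hX g) (hY g)
  unfold ind at h
  by_cases h1 : g ∈ X <;> by_cases h2 : g ∈ Y <;> simp_all

theorem IsChar.mono {Φ Ψ : D ty2} {X : Set (ℕ → Bool)} (hX : IsChar Φ X) (h : Φ ≤ Ψ) :
    IsChar Ψ X := fun g => h _ _ (hX g)

/-- The emptiness test restricted to a class `K` of subsets of Cantor space: it is defined exactly
on the characteristic functions of the sets `X` in `K`, with value `0` if `X` is empty and `1`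
otherwise. -/
noncomputable def omegaOn (K : Set (Set (ℕ → Bool))) : D ty3 :=
  ofF ⟨fun Φ => ofP ⟨∃ X, X ∈ K ∧ IsChar Φ X, fun h => ind (Classical.choose h).Nonempty⟩,
    fun Φ Ψ h n hn => by
      obtain ⟨h1, rfl⟩ := hn
      have h2 : ∃ X, X ∈ K ∧ IsChar Ψ X :=
        ⟨_, (Classical.choose_spec h1).1, (Classical.choose_spec h1).2.mono h⟩
      exact ⟨h2, congrArg (fun X : Set (ℕ → Bool) => ind X.Nonempty)
        ((Classical.choose_spec h2).2.unique ((Classical.choose_spec h1).2.mono h))⟩⟩

/-- The functional `Ω_C`, for closed sets. -/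
noncomputable def omegaC : D ty3 := omegaOn {X | IsClosed X}

/-- The functional `Ω_b`, for sets with at most one element. -/
noncomputable def omegaB : D ty3 := omegaOn {X | X.Subsingleton}

/-- The characteristic function of a subset of Cantor space, extended by `0` to a total functional
on Baire space. -/
noncomputable def chi (X : Set (ℕ → Bool)) : D ty2 := lift2 fun f => ind (∃ g ∈ X, bits g = f)

/-- The value of a term with free variables for `Ω_b` and for Kleene's quantifier. -/
noncomputable def denB {s : Ty} (t : Tm [ty3, ty2] s) : D s :=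
  den t (Env.cons omegaB (Env.cons exists2 Env.nil))

end Pool.Agent.H240Z.Pcf
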