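import Mathlib

/-!
A fusion lemma for Borel families.
-/

namespace Pool.Agent.H240Z.Pcf

open Set Filter Topology

theorem scheme_closed {W : Type} [TopologicalSpace W] [PolishSpace W] (B : Set W)
    (hB : IsClosed B) (hne : B.Nonempty) :
    ∃ c : ℕ → ℕ → Set W, (∀ k i, IsOpen (c k i)) ∧ (∀ k, B ⊆ ⋃ i, c k i) ∧
      ∀ x : ℕ → W, (∀ᶠ n in atTop, x n ∈ B) → (∀ k, ∃ i, ∀ᶠ n in atTop, x n ∈ c k i) →
        ∃ z ∈ B, Tendsto x atTop (𝓝 z) := by
  letI := TopologicalSpace.upgradeIsCompletelyMetrizable W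
  haveI : Nonempty W := ⟨hne.some⟩
  obtain ⟨u, hu⟩ := TopologicalSpace.exists_dense_seq W
  refine ⟨fun k i => Metric.ball (u i) (1 / ((k : ℝ) + 1)), fun _ _ => Metric.isOpen_ball,
    fun k w _ => ?_, fun x hx hc => ?_⟩
  · obtain ⟨i, hi⟩ := hu.exists_dist_lt w (Nat.one_div_pos_of_nat (α := ℝ) (n := k))
    exact mem_iUnion.2 ⟨i, hi⟩
  · have hcau : CauchySeq x := by
      rw [Metric.cauchySeq_iff]
      intro ε hε
      obtain ⟨k, hk⟩ := exists_nat_one_div_lt (half_pos hε)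
      obtain ⟨i, hi⟩ := hc k
      obtain ⟨N, hN⟩ := eventually_atTop.1 hi
      refine ⟨N, fun m hm n hn => ?_⟩
      have h1 := hN m hm
      have h2 := hN n hn
      rw [Metric.mem_ball] at h1 h2
      calc dist (x m) (x n) ≤ dist (x m) (u i) + dist (x n) (u i) := dist_triangle_right _ _ _
        _ < ε := by linarith
    obtain ⟨z, hz⟩ := cauchySeq_tendsto_of_complete hcau
    exact ⟨z, hB.mem_of_tendsto hz hx, hz⟩

theorem scheme {W : Type} [t : TopologicalSpace W] [hp : PolishSpace W] [MeasurableSpace W]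
    [hb : BorelSpace W] (B : Set W) (hB : MeasurableSet B) (hne : B.Nonempty) :
    ∃ c : ℕ → ℕ → Set W, (∀ k i, MeasurableSet (c k i)) ∧ (∀ k, B ⊆ ⋃ i, c k i) ∧
      ∀ x : ℕ → W, (∀ᶠ n in atTop, x n ∈ B) → (∀ k, ∃ i, ∀ᶠ n in atTop, x n ∈ c k i) →
        ∃ z ∈ B, Tendsto x atTop (𝓝 z) := by
  obtain ⟨t', hle, hp', hcl, -⟩ := hB.isClopenable
  obtain ⟨c, h1, h2, h3⟩ := @scheme_closed W t' hp' B hcl hne
  refine ⟨c, fun k i => ?_, h2, fun x hx hc => ?_⟩
  · rw [hb.measurable_eq, ← MeasureTheory.borel_eq_borel_of_le hp' hp hle]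
    exact MeasurableSpace.measurableSet_generateFrom (h1 k i)
  · obtain ⟨z, hz, h⟩ := h3 x hx hc
    exact ⟨z, hz, h.mono_right (nhds_mono hle)⟩

theorem fusion {W S : Type} [TopologicalSpace W] [PolishSpace W] [MeasurableSpace W]
    [BorelSpace W] (bad : S → Set W → Prop) (R : S × W → S × W → Prop)
    (hm : ∀ s B, bad s B → MeasurableSet B) (hne : ∀ s B, bad s B → B.Nonempty)
    (hσ : ∀ s B, bad s B → ∀ c : ℕ → Set W, (∀ i, MeasurableSet (c i)) → B ⊆ ⋃ i, c i →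
      ∃ i, bad s (B ∩ c i))
    (hstep : ∀ s B, bad s B → ∃ s' B' p, Continuous p ∧ bad s' B' ∧ MapsTo p B' B ∧
      ∀ w ∈ B', R (s', w) (s, p w))
    (s0 : S) (B0 : Set W) (h0 : bad s0 B0) :
    ∃ z : ℕ → S × W, (z 0).1 = s0 ∧ (z 0).2 ∈ B0 ∧ ∀ n, R (z (n + 1)) (z n) := by
  classical
  choose! c hc1 hc2 hc3 using fun B : Set W => scheme B
  let St := S × Set W × (ℕ → Set W) × (ℕ → W → W)
  let Inv : ℕ → St → Prop := fun n st => bad st.1 st.2.1 ∧ st.2.2.2 n = id ∧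
    ∀ j ≤ n, MeasurableSet (st.2.2.1 j) ∧ Continuous (st.2.2.2 j) ∧
      MapsTo (st.2.2.2 j) st.2.1 (st.2.2.1 j)
  let Nx : ℕ → St → St → (W → W) → Prop := fun n st st' p =>
    Continuous p ∧ MapsTo p (st'.2.2.1 (n + 1)) st.2.1 ∧
      (∀ w ∈ st'.2.2.1 (n + 1), R (st'.1, w) (st.1, p w)) ∧
      (∀ j ≤ n, st'.2.2.1 j = st.2.2.1 j ∧ st'.2.2.2 j = st.2.2.2 j ∘ p) ∧
      ∃ i, MapsTo (st'.2.2.2 (Nat.unpair n).1) st'.2.1
        (c (st'.2.2.1 (Nat.unpair n).1) (Nat.unpair n).2 i)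
  have step : ∀ n (st : {st // Inv n st}), ∃ st' : {st // Inv (n + 1) st}, ∃ p,
      Nx n st.1 st'.1 p := by
    rintro n ⟨⟨s, B, L, q⟩, hb, hid, hI⟩
    obtain ⟨s', B', p, hp, hb', hmap, hR⟩ := hstep s B hb
    have hj : (Nat.unpair n).1 ≤ n := Nat.unpair_left_le n
    obtain ⟨hLm, hqc, hqm⟩ := hI _ hj
    have hLne : (L (Nat.unpair n).1).Nonempty := by
      obtain ⟨w, hw⟩ := hne s B hb
      exact ⟨_, hqm hw⟩
    obtain ⟨i, hi⟩ := hσ s' B' hb'
      (fun i => (q (Nat.unpair n).1 ∘ p) ⁻¹' c (L (Nat.unpair n).1) (Nat.unpair n).2 i)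
      (fun i => (hqc.comp hp).measurable (hc1 _ hLm hLne _ _))
      (fun w hw => by
        obtain ⟨i, hi⟩ := mem_iUnion.1 (hc2 _ hLm hLne (Nat.unpair n).2 (hqm (hmap hw)))
        exact mem_iUnion.2 ⟨i, hi⟩)
    refine ⟨⟨(s', _, fun j => if j ≤ n then L j else B',
      fun j => if j ≤ n then q j ∘ p else id), hi, ?_, fun j hj' => ?_⟩, p, hp, ?_, ?_, ?_, i, ?_⟩
    · simp
    · by_cases h : j ≤ n
      · simp only [h, if_true]
        exact ⟨(hI j h).1, (hI j h).2.1.comp hp, fun w hw => (hI j h).2.2 (hmap hw.1)⟩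
      · simp only [h, if_false]
        exact ⟨hm _ _ hb', continuous_id, fun w hw => hw.1⟩
    · simpa using hmap
    · simpa using hR
    · intro j h
      simp [h]
    · simp only [hj, if_true]
      exact fun w hw => hw.2
  choose nx p hnx using step
  let st0 : {st // Inv 0 st} := ⟨(s0, B0, fun _ => B0, fun _ => id), h0, rfl,
    fun j _ => ⟨hm _ _ h0, continuous_id, fun w hw => hw⟩⟩
  let sq : ∀ n, {st // Inv n st} := fun n => Nat.rec st0 (fun n st => nx n st) n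
  let s : ℕ → S := fun n => (sq n).1.1
  let B : ℕ → Set W := fun n => (sq n).1.2.1
  let L : ℕ → ℕ → Set W := fun n => (sq n).1.2.2.1
  let q : ℕ → ℕ → W → W := fun n => (sq n).1.2.2.2
  let P : ℕ → W → W := fun n => p n (sq n)
  have hI : ∀ n, bad (s n) (B n) ∧ q n n = id ∧ ∀ j ≤ n, MeasurableSet (L n j) ∧
      Continuous (q n j) ∧ MapsTo (q n j) (B n) (L n j) := fun n => (sq n).2
  have hN : ∀ n, Continuous (P n) ∧ MapsTo (P n) (L (n + 1) (n + 1)) (B n) ∧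
      (∀ w ∈ L (n + 1) (n + 1), R (s (n + 1), w) (s n, P n w)) ∧
      (∀ j ≤ n, L (n + 1) j = L n j ∧ q (n + 1) j = q n j ∘ P n) ∧
      ∃ i, MapsTo (q (n + 1) (Nat.unpair n).1) (B (n + 1))
        (c (L (n + 1) (Nat.unpair n).1) (Nat.unpair n).2 i) := fun n => hnx n (sq n)
  have hBL : ∀ n, B n ⊆ L n n := fun n w hw => by
    have := ((hI n).2.2 n le_rfl).2.2 hw
    rwa [(hI n).2.1] at this
  have hL : ∀ j n, j ≤ n → L n j = L j j := fun j n h => by
    induction n, h using Nat.le_induction with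
    | base => rfl
    | succ n h ih => rw [((hN n).2.2.2.1 j h).1, ih]
  have hq : ∀ j n, j + 1 ≤ n → q n j = P j ∘ q n (j + 1) := fun j n h => by
    induction n, h using Nat.le_induction with
    | base => rw [((hN j).2.2.2.1 j le_rfl).2, (hI j).2.1, (hI (j + 1)).2.1]; rfl
    | succ n h ih =>
      rw [((hN n).2.2.2.1 j (by omega)).2, ((hN n).2.2.2.1 (j + 1) h).2, ih]; rfl
  have hdec : ∀ j m n, j ≤ m → m ≤ n → q n j '' B n ⊆ q m j '' B m := fun j m n hj h => by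
    induction n, h using Nat.le_induction with
    | base => exact subset_rfl
    | succ n h ih =>
      rintro _ ⟨w, hw, rfl⟩
      rw [((hN n).2.2.2.1 j (by omega)).2]
      exact ih ⟨P n w, (hN n).2.1 (hBL (n + 1) hw), rfl⟩
  choose w hw using fun n => hne _ _ (hI n).1
  have hlim : ∀ j, ∃ z ∈ L j j, Tendsto (fun n => q n j (w n)) atTop (𝓝 z) := fun j => by
    refine hc3 _ ((hI j).2.2 j le_rfl).1 ⟨_, hBL j (hw j)⟩ _ ?_ fun k => ?_
    · filter_upwards [eventually_ge_atTop j] with n hn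
      rw [← hL j n hn]
      exact ((hI n).2.2 j hn).2.2 (hw n)
    · obtain ⟨i, hi⟩ := (hN (Nat.pair j k)).2.2.2.2
      simp only [Nat.unpair_pair] at hi
      have hj : j ≤ Nat.pair j k + 1 := (Nat.left_le_pair j k).trans (Nat.le_succ _)
      rw [hL j _ hj] at hi
      refine ⟨i, ?_⟩
      filter_upwards [eventually_ge_atTop (Nat.pair j k + 1)] with n hn
      obtain ⟨v, hv, h⟩ := hdec j _ n hj hn ⟨w n, hw n, rfl⟩
      rw [← h]
      exact hi hv
  choose z hz1 hz2 using hlim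
  refine ⟨fun n => (s n, z n), rfl, hz1 0, fun n => ?_⟩
  have h1 : P n (z (n + 1)) = z n := by
    refine tendsto_nhds_unique (((hN n).1.tendsto _).comp (hz2 (n + 1))) ((hz2 n).congr' ?_)
    filter_upwards [eventually_ge_atTop (n + 1)] with m hm'
    rw [hq n m hm']
    rfl
  have h2 := (hN n).2.2.1 _ (hz1 (n + 1))
  rwa [h1] at h2

end Pool.Agent.H240Z.Pcf
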