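import Mathlib

/-!
Generic closed subsets of Cantor space.
-/

namespace Pool.Agent.H240Z.Pcf

open Set Filter Topology

/-- `φ` holds for comeagre many points of `U`. -/
def Gen {Z : Type} [TopologicalSpace Z] (U : Set Z) (φ : Z → Prop) : Prop :=
  ∀ᶠ y in residual Z, y ∈ U → φ y

section general

variable {Z : Type} [TopologicalSpace Z]

theorem Gen.mono {U : Set Z} {φ ψ : Z → Prop} (h : Gen U φ) (h' : ∀ y ∈ U, φ y → ψ y) :
    Gen U ψ := Eventually.mono h fun y hy hU => h' y hU (hy hU)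

theorem Gen.sub {U V : Set Z} {φ : Z → Prop} (h : Gen U φ) (h' : V ⊆ U) : Gen V φ :=
  Eventually.mono h fun _ hy hV => hy (h' hV)

theorem Gen.and {U : Set Z} {φ ψ : Z → Prop} (h : Gen U φ) (h' : Gen U ψ) :
    Gen U fun y => φ y ∧ ψ y :=
  (Eventually.and h h').mono fun _ hy hU => ⟨hy.1 hU, hy.2 hU⟩

theorem Gen.all {U : Set Z} {φ : ℕ → Z → Prop} (h : ∀ i, Gen U (φ i)) :
    Gen U fun y => ∀ i, φ i y :=
  (eventually_countable_forall.2 h).mono fun _ hy hU i => hy i hU

theorem Gen.of_ev (U : Set Z) {φ : Z → Prop} (h : ∀ᶠ y in residual Z, φ y) : Gen U φ :=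
  h.mono fun _ hy _ => hy

theorem Gen.exists [BaireSpace Z] {U : Set Z} {φ : Z → Prop} (h : Gen U φ) (hU : IsOpen U)
    (hne : U.Nonempty) : ∃ y ∈ U, φ y := by
  obtain ⟨y, hy1, hy2⟩ := (dense_of_mem_residual h).inter_open_nonempty U hU hne
  exact ⟨y, hy1, hy2 hy1⟩

theorem Gen.localise [SecondCountableTopology Z] {U : Set Z} (hU : IsOpen U) {φ : Z → Prop}
    (h : ∀ V, IsOpen V → V.Nonempty → V ⊆ U → ∃ T, IsOpen T ∧ T.Nonempty ∧ T ⊆ V ∧ Gen T φ) :
    Gen U φ := by
  have hb := TopologicalSpace.isBasis_countableBasis Z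
  let F : Set (Set Z) := {O | O ∈ TopologicalSpace.countableBasis Z ∧ Gen O φ}
  have hF : F.Countable := (TopologicalSpace.countable_countableBasis Z).mono fun _ h => h.1
  have h1 : ⋃₀ F ∪ (closure U)ᶜ ∈ residual Z := by
    refine residual_of_dense_open
      ((isOpen_sUnion fun O hO => hb.isOpen hO.1).union isClosed_closure.isOpen_compl) ?_
    rw [dense_iff_inter_open]
    intro T hT ⟨x, hx⟩
    by_cases hxU : x ∈ closure U
    · obtain ⟨V, hV, ⟨y, hy⟩, hsub, hG⟩ := h (T ∩ U) (hT.inter hU)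
        (mem_closure_iff.1 hxU T hT hx) inter_subset_right
      obtain ⟨O, hO, hyO, hOV⟩ := hb.exists_subset_of_mem_open hy hV
      exact ⟨y, (hsub hy).1, Or.inl ⟨O, ⟨hO, hG.sub hOV⟩, hyO⟩⟩
    · exact ⟨x, hx, Or.inr hxU⟩
  have h2 : ∀ᶠ y in residual Z, ∀ O ∈ F, y ∈ O → φ y :=
    (eventually_countable_ball hF).2 fun O hO => hO.2
  filter_upwards [h1, h2] with y hy1 hy2 hyU
  rcases hy1 with ⟨O, hO, hyO⟩ | hy1
  · exact hy2 O hO hyO
  · exact absurd (subset_closure hyU) hy1

theorem gen_dichotomy [MeasurableSpace Z] [BorelSpace Z] {S : Set Z} (hS : MeasurableSet S)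
    {U : Set Z} (hU : IsOpen U) :
    Gen U (fun y => y ∉ S) ∨ ∃ T, IsOpen T ∧ T.Nonempty ∧ T ⊆ U ∧ Gen T fun y => y ∈ S := by
  obtain ⟨O, hO, h⟩ := hS.residualEq_isOpen
  have h' : ∀ᶠ y in residual Z, (y ∈ S ↔ y ∈ O) := eventuallyEq_set.1 h
  by_cases hne : (O ∩ U).Nonempty
  · exact Or.inr ⟨_, hO.inter hU, hne, inter_subset_right, h'.mono fun y hy hy' => hy.2 hy'.1⟩
  · exact Or.inl (h'.mono fun y hy hy' hS => hne ⟨y, hy.1 hS, hy'⟩)

theorem gen_cover [BaireSpace Z] [MeasurableSpace Z] [BorelSpace Z] {S : ℕ → Set Z}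
    (hS : ∀ i, MeasurableSet (S i)) {U : Set Z} (hU : IsOpen U) (hne : U.Nonempty)
    (h : Gen U fun y => ∃ i, y ∈ S i) :
    ∃ i T, IsOpen T ∧ T.Nonempty ∧ T ⊆ U ∧ Gen T fun y => y ∈ S i := by
  by_contra hcon
  have h1 : ∀ i, Gen U fun y => y ∉ S i := fun i =>
    (gen_dichotomy (hS i) hU).resolve_right fun ⟨T, hT⟩ => hcon ⟨i, T, hT⟩
  obtain ⟨y, -, ⟨i, hi⟩, h2⟩ := (h.and (Gen.all h1)).exists hU hne
  exact h2 i hi

end general

/-- Codes for nonempty closed subsets of Cantor space: at each node, the allowed next bits. -/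
abbrev Y : Type := List Bool → Fin 3

def ok (s : Fin 3) (b : Bool) : Bool := s = 2 || (s = 0 && !b) || (s = 1 && b)

def comb (a b : Bool) (s t : Fin 3) : Fin 3 :=
  if a = b then (if s = t then s else 2) else if a = true then s else t

def res (g : ℕ → Bool) : ℕ → List Bool
  | 0 => []
  | n + 1 => g n :: res g n

def alive (y : Y) : List Bool → Bool
  | [] => true
  | b :: σ => alive y σ && ok (y σ) b

/-- The closed set coded by `y`. -/
def P (y : Y) : Set (ℕ → Bool) := {g | ∀ n, alive y (res g n) = true}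

/-- A code for the union. -/
def un (y z : Y) : Y := fun σ => comb (alive y σ) (alive z σ) (y σ) (z σ)

theorem comb_comm : ∀ a b s t, comb a b s t = comb b a t s := by decide

theorem comb_self : ∀ a b s, comb a b s s = s := by decide

theorem ok_comb : ∀ a b s t c, ((a || b) && ok (comb a b s t) c) =
    ((a && ok s c) || (b && ok t c)) := by decide

theorem un_comm (y z : Y) : un y z = un z y := funext fun _ => comb_comm _ _ _ _

theorem un_self (y : Y) : un y y = y := funext fun _ => comb_self _ _ _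

theorem alive_un (y z : Y) : ∀ σ, alive (un y z) σ = (alive y σ || alive z σ)
  | [] => rfl
  | b :: σ => by
    simp only [alive]
    rw [alive_un y z σ]
    exact ok_comb _ _ _ _ _

theorem alive_res_anti (y : Y) (g : ℕ → Bool) {m n : ℕ} (h : m ≤ n)
    (hn : alive y (res g n) = true) : alive y (res g m) = true := by
  induction n, h using Nat.le_induction with
  | base => exact hn
  | succ n _ ih =>
    simp only [res, alive, Bool.and_eq_true] at hn
    exact ih hn.1

theorem P_un (y z : Y) : P (un y z) = P y ∪ P z := by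
  ext g
  simp only [P, mem_ofPred_eq, mem_union, alive_un, Bool.or_eq_true]
  constructor
  · intro h
    by_contra hcon
    rw [not_or, not_forall, not_forall] at hcon
    obtain ⟨⟨m, hm⟩, ⟨n, hn⟩⟩ := hcon
    rcases h (max m n) with h1 | h1
    · exact hm (alive_res_anti y g (le_max_left _ _) h1)
    · exact hn (alive_res_anti z g (le_max_right _ _) h1)
  · rintro (h | h) n
    · exact Or.inl (h n)
    · exact Or.inr (h n)

def pick (s : Fin 3) : Bool := s = 1

theorem ok_pick : ∀ s, ok s (pick s) = true := by decide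

def path (y : Y) : ℕ → List Bool
  | 0 => []
  | n + 1 => pick (y (path y n)) :: path y n

theorem P_nonempty (y : Y) : (P y).Nonempty := by
  have h : ∀ n, res (fun n => pick (y (path y n))) n = path y n := fun n => by
    induction n with
    | zero => rfl
    | succ n ih => simp only [res, path, ih]
  refine ⟨fun n => pick (y (path y n)), fun n => ?_⟩
  rw [h]
  induction n with
  | zero => rfl
  | succ n ih => simp only [path, alive, ih, ok_pick, Bool.and_self]

theorem lc_dep {Z ι β : Type} [TopologicalSpace Z] {r : Z → ι} (hr : IsLocallyConstant r)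
    {F : ι → Z → β} (hF : ∀ i, IsLocallyConstant (F i)) :
    IsLocallyConstant fun z => F (r z) z := by
  rw [IsLocallyConstant.iff_eventually_eq]
  intro z
  filter_upwards [hr.eventually_eq z, (hF (r z)).eventually_eq z] with w h1 h2
  rw [h1, h2]

theorem lc_res (n : ℕ) : IsLocallyConstant fun g : ℕ → Bool => res g n := by
  induction n with
  | zero => exact IsLocallyConstant.const _
  | succ n ih =>
    exact IsLocallyConstant.comp₂
      ((IsLocallyConstant.iff_continuous _).2 (continuous_apply n)) ih List.cons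

theorem lc_eval (σ : List Bool) : IsLocallyConstant fun y : Y => y σ :=
  (IsLocallyConstant.iff_continuous _).2 (continuous_apply σ)

theorem lc_alive (σ : List Bool) : IsLocallyConstant fun y : Y => alive y σ := by
  induction σ with
  | nil => exact IsLocallyConstant.const _
  | cons b σ ih => exact IsLocallyConstant.comp₂ ih (lc_eval σ) fun a s => a && ok s b

theorem isClosed_mem_P : IsClosed {p : Y × (ℕ → Bool) | p.2 ∈ P p.1} := by
  have : {p : Y × (ℕ → Bool) | p.2 ∈ P p.1} =
      ⋂ n, {p : Y × (ℕ → Bool) | alive p.1 (res p.2 n) = true} := by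
    ext p
    simp [P]
  rw [this]
  refine isClosed_iInter fun n => ?_
  have h : IsLocallyConstant fun p : Y × (ℕ → Bool) => alive p.1 (res p.2 n) :=
    lc_dep (r := fun p : Y × (ℕ → Bool) => res p.2 n) (F := fun σ p => alive p.1 σ)
      ((lc_res n).comp_continuous continuous_snd)
      fun σ => (lc_alive σ).comp_continuous continuous_fst
  exact h.isClosed_fiber true

theorem isClosed_P (y : Y) : IsClosed (P y) :=
  isClosed_mem_P.preimage (f := fun g => (y, g)) (by fun_prop)

theorem continuous_un : Continuous fun p : Y × Y => un p.1 p.2 := by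
  refine continuous_pi fun σ => IsLocallyConstant.continuous ?_
  have h1 := ((lc_alive σ).comp_continuous (continuous_fst (X := Y) (Y := Y))).prodMk
    ((lc_alive σ).comp_continuous (continuous_snd (X := Y) (Y := Y)))
  have h2 := ((lc_eval σ).comp_continuous (continuous_fst (X := Y) (Y := Y))).prodMk
    ((lc_eval σ).comp_continuous (continuous_snd (X := Y) (Y := Y)))
  exact IsLocallyConstant.comp₂ h1 h2 fun a s => comb a.1 a.2 s.1 s.2

/-- Basic open sets of codes. -/
def cyl (a : Y) (m : ℕ) : Set Y := {y | ∀ σ : List Bool, σ.length < m → y σ = a σ}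

theorem mem_cyl (a : Y) (m : ℕ) : a ∈ cyl a m := fun _ _ => rfl

theorem cyl_anti (a : Y) {m n : ℕ} (h : m ≤ n) : cyl a n ⊆ cyl a m :=
  fun _ hy σ hσ => hy σ (hσ.trans_le h)

theorem cyl_sub {a b : Y} {m n : ℕ} (hb : b ∈ cyl a m) (h : m ≤ n) : cyl b n ⊆ cyl a m :=
  fun _ hy σ hσ => (hy σ (hσ.trans_le h)).trans (hb σ hσ)

theorem isOpen_cyl (a : Y) (m : ℕ) : IsOpen (cyl a m) := by
  have : cyl a m = ⋂ σ ∈ {σ : List Bool | σ.length < m}, {y : Y | y σ = a σ} := by
    ext y
    simp [cyl]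
  rw [this]
  exact (List.finite_length_lt Bool m).isOpen_biInter fun σ _ => (lc_eval σ).isOpen_fiber _

theorem exists_cyl {U : Set Y} (hU : IsOpen U) {a : Y} (ha : a ∈ U) : ∃ m, cyl a m ⊆ U := by
  obtain ⟨I, t, h1, h2⟩ := isOpen_pi_iff.1 hU a ha
  refine ⟨I.sup List.length + 1, fun y hy => h2 fun σ hσ => ?_⟩
  rw [hy σ (Nat.lt_succ_of_le (Finset.le_sup (f := List.length) hσ))]
  exact (h1 σ hσ).2

theorem alive_congr {a y : Y} {m : ℕ} (h : y ∈ cyl a m) :
    ∀ σ : List Bool, σ.length ≤ m → alive y σ = alive a σ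
  | [], _ => rfl
  | b :: σ, hσ => by
    simp only [alive]
    rw [alive_congr h σ (by simp at hσ; omega), h σ (by simp at hσ; omega)]

theorem un_mem_cyl {a b y z : Y} {m : ℕ} (hy : y ∈ cyl a m) (hz : z ∈ cyl b m) :
    un y z ∈ cyl (un a b) m := fun σ hσ => by
  simp only [un]
  rw [alive_congr hy σ hσ.le, alive_congr hz σ hσ.le, hy σ hσ, hz σ hσ]

theorem patch {a b w : Y} {m : ℕ} (hw : w ∈ cyl (un a b) m) :
    ∃ y ∈ cyl a m, ∃ z ∈ cyl b m, un y z = w := by
  have h1 : (fun σ : List Bool => if σ.length < m then a σ else w σ) ∈ cyl a m :=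
    fun σ hσ => if_pos hσ
  have h2 : (fun σ : List Bool => if σ.length < m then b σ else w σ) ∈ cyl b m :=
    fun σ hσ => if_pos hσ
  refine ⟨_, h1, _, h2, funext fun σ => ?_⟩
  by_cases hσ : σ.length < m
  · rw [un_mem_cyl h1 h2 σ hσ, hw σ hσ]
  · simp only [un, hσ, if_false, comb_self]

theorem ku_open {t : Set Y} (ho : IsOpen t) (hd : Dense t) :
    ∀ᶠ y in residual Y, ∀ᶠ z in residual Y, un y z ∈ t := by
  have hb := TopologicalSpace.isBasis_countableBasis Y
  have h1 : ∀ᶠ y in residual Y, ∀ O ∈ TopologicalSpace.countableBasis Y, ∃ z ∈ O, un y z ∈ t := by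
    refine (eventually_countable_ball (TopologicalSpace.countable_countableBasis Y)).2
      fun O hO => residual_of_dense_open ?_ ?_
    · have : {y : Y | ∃ z ∈ O, un y z ∈ t} = ⋃ z ∈ O, (fun y => un y z) ⁻¹' t := by
        ext y
        simp
      rw [this]
      exact isOpen_biUnion fun z _ =>
        ho.preimage (continuous_un.comp (f := fun y : Y => (y, z)) (by fun_prop))
    · rw [dense_iff_inter_open]
      intro T hT ⟨a, ha⟩
      obtain ⟨b, hb'⟩ := TopologicalSpace.nonempty_of_mem_countableBasis hO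
      obtain ⟨m, hm⟩ := exists_cyl hT ha
      obtain ⟨n, hn⟩ := exists_cyl (hb.isOpen hO) hb'
      obtain ⟨w, hw1, hw2⟩ := hd.inter_open_nonempty _ (isOpen_cyl (un a b) (max m n))
        ⟨_, mem_cyl _ _⟩
      obtain ⟨y, hy, z, hz, rfl⟩ := patch hw1
      exact ⟨y, hm (cyl_anti a (le_max_left _ _) hy), z, hn (cyl_anti b (le_max_right _ _) hz), hw2⟩
  filter_upwards [h1] with y hy
  refine residual_of_dense_open
    (ho.preimage (continuous_un.comp (f := fun z : Y => (y, z)) (by fun_prop))) ?_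
  rw [hb.dense_iff]
  intro O hO _
  obtain ⟨z, hz1, hz2⟩ := hy O hO
  exact ⟨z, hz1, hz2⟩

theorem ku {φ : Y → Prop} (h : ∀ᶠ y in residual Y, φ y) :
    ∀ᶠ y in residual Y, ∀ᶠ z in residual Y, φ (un y z) := by
  obtain ⟨S, h1, h2, h3, h4⟩ := mem_residual_iff.1 h
  have h5 : ∀ᶠ y in residual Y, ∀ t ∈ S, ∀ᶠ z in residual Y, un y z ∈ t :=
    (eventually_countable_ball h3).2 fun t ht => ku_open (h1 t ht) (h2 t ht)
  filter_upwards [h5] with y hy
  filter_upwards [(eventually_countable_ball h3).2 hy] with z hz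
  exact h4 (mem_sInter.2 hz)

theorem gen_un {S : Set Y} (hS : MeasurableSet S) {a b : Y} {m : ℕ}
    (h : Gen (cyl a m) fun y => Gen (cyl b m) fun z => un y z ∈ S) :
    Gen (cyl (un a b) m) fun y => y ∈ S := by
  rcases gen_dichotomy hS.compl (isOpen_cyl (un a b) m) with h1 | ⟨T, hT, ⟨w, hw⟩, hsub, h1⟩
  · exact h1.mono fun y _ hy => not_not.1 hy
  · exfalso
    obtain ⟨a', ha', b', hb', rfl⟩ := patch (hsub hw)
    obtain ⟨n, hn⟩ := exists_cyl hT hw
    obtain ⟨y, hy, h2, h3⟩ := ((h.sub (cyl_sub ha' (le_max_left m n))).and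
      (Gen.of_ev _ (ku h1))).exists (isOpen_cyl _ _) ⟨_, mem_cyl _ _⟩
    obtain ⟨z, hz, h4, h5⟩ := ((h2.sub (cyl_sub hb' (le_max_left m n))).and
      (Gen.of_ev _ h3)).exists (isOpen_cyl _ _) ⟨_, mem_cyl _ _⟩
    exact h5 (hn (cyl_anti _ (le_max_right m n) (un_mem_cyl hy hz))) h4

theorem length_res (g : ℕ → Bool) (n : ℕ) : (res g n).length = n := by
  induction n with
  | zero => rfl
  | succ n ih => simp [res, ih]

theorem gen_notMem (g : ℕ → Bool) : ∀ᶠ y in residual Y, g ∉ P y := by
  classical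
  refine residual_of_dense_open
    (isClosed_mem_P.preimage (f := fun y => (y, g)) (by fun_prop)).isOpen_compl ?_
  rw [dense_iff_inter_open]
  intro T hT ⟨a, ha⟩
  obtain ⟨m, hm⟩ := exists_cyl hT ha
  refine ⟨Function.update a (res g m) (if g m = true then 0 else 1), hm fun σ hσ => ?_,
    fun h => ?_⟩
  · rw [Function.update_of_ne]
    rintro rfl
    simp [length_res] at hσ
  · have h1 := h (m + 1)
    simp only [res, alive, Function.update_self, Bool.and_eq_true] at h1
    have h2 := h1.2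
    cases hg : g m <;> simp [hg, ok] at h2

end Pool.Agent.H240Z.Pcf
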