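import Pool.Agent.H240Z.PcfOp
import Pool.Agent.H240Z.PcfFusion
import Pool.Agent.H240Z.PcfGen

/-!
Total Borel families of computations are measurable and do not see generic closed sets.
-/

namespace Pool.Agent.H240Z.Pcf

open Set Filter Topology

/-- Parameters: a code for a closed set and a sequence of reals. -/
abbrev W : Type := Y × (ℕ → C)

instance polishW : PolishSpace W := {}

def E (X : Set C) (ρ : ℕ → C) (κ : Cfg ℕ) (n : ℕ) : Prop := Ev X (κ.map ρ) n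

theorem E.det {X : Set C} {ρ : ℕ → C} {κ : Cfg ℕ} {m n : ℕ} (h : E X ρ κ m) (h' : E X ρ κ n) :
    m = n := Ev.det h h'

def omc (a : AT ℕ) : Cfg ℕ := (.app (a.map Nat.succ) (.real 0), [])

theorem omc_map (a : AT ℕ) (g : C) (ρ : ℕ → C) :
    (omc a).map (consF g ρ) = (.app (a.map ρ) (.real g), []) := by
  simp only [omc, Cfg.map, AT.map, AT.map_map, List.map]
  rfl

section inv

variable {X : Set C} {ρ : ℕ → C} {κ : Cfg ℕ} {n : ℕ}

theorem E_stuck (hk : kind κ = .stuck) : ¬ E X ρ κ n := by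
  have hk2 := kind_map ρ κ
  rw [hk] at hk2
  intro h
  cases h with
  | val hk' | seq hk' | real hk' | ex hk' | setX hk' | om hk' => rw [hk2] at hk'; cases hk'

theorem E_val {m : ℕ} (hk : kind κ = .val m) : E X ρ κ m := by
  have hk2 := kind_map ρ κ
  rw [hk] at hk2
  exact .val hk2

theorem E_seq {a : Cfg ℕ} {k : ℕ → Cfg ℕ} (hk : kind κ = .seq a k) :
    E X ρ κ n ↔ ∃ m, E X ρ a m ∧ E X ρ (k m) n := by
  have hk2 := kind_map ρ κ
  rw [hk] at hk2
  refine ⟨fun h => ?_, fun ⟨m, h1, h2⟩ => .seq hk2 h1 h2⟩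
  cases h with
  | seq hk' h1 h2 => rw [hk2] at hk'; cases hk'; exact ⟨_, h1, h2⟩
  | val hk' | real hk' | ex hk' | setX hk' | om hk' => rw [hk2] at hk'; cases hk'

theorem E_real {a : Cfg ℕ} {i : ℕ} (hk : kind κ = .real i a) :
    E X ρ κ n ↔ ∃ m, E X ρ a m ∧ n = bits (ρ i) m := by
  have hk2 := kind_map ρ κ
  rw [hk] at hk2
  refine ⟨fun h => ?_, fun ⟨m, h1, h2⟩ => h2 ▸ .real hk2 h1⟩
  cases h with
  | real hk' h1 => rw [hk2] at hk'; cases hk'; exact ⟨_, h1, rfl⟩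
  | val hk' | seq hk' | ex hk' | setX hk' | om hk' => rw [hk2] at hk'; cases hk'

theorem E_ex {k : ℕ → Cfg ℕ} (hk : kind κ = .ex k) :
    E X ρ κ n ↔ ∃ f : ℕ → ℕ, (∀ i, E X ρ (k i) (f i)) ∧ n = exV f := by
  have hk2 := kind_map ρ κ
  rw [hk] at hk2
  refine ⟨fun h => ?_, fun ⟨m, h1, h2⟩ => h2 ▸ .ex hk2 h1⟩
  cases h with
  | ex hk' h1 => rw [hk2] at hk'; cases hk'; exact ⟨_, h1, rfl⟩
  | val hk' | seq hk' | real hk' | setX hk' | om hk' => rw [hk2] at hk'; cases hk'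

theorem E_setX {k : ℕ → Cfg ℕ} (hk : kind κ = .setX k) :
    E X ρ κ n ↔ ∃ f : ℕ → ℕ, (∀ i, E X ρ (k i) (f i)) ∧ n = chiV X f := by
  have hk2 := kind_map ρ κ
  rw [hk] at hk2
  refine ⟨fun h => ?_, fun ⟨m, h1, h2⟩ => h2 ▸ .setX hk2 h1⟩
  cases h with
  | setX hk' h1 => rw [hk2] at hk'; cases hk'; exact ⟨_, h1, rfl⟩
  | val hk' | seq hk' | real hk' | ex hk' | om hk' => rw [hk2] at hk'; cases hk'

theorem E_om {a : AT ℕ} (hk : kind κ = .om a) :
    E X ρ κ n ↔ ∃ S : Set C, S.Subsingleton ∧ (∀ g, E X (consF g ρ) (omc a) (ind (g ∈ S))) ∧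
      n = ind S.Nonempty := by
  have hk2 := kind_map ρ κ
  rw [hk] at hk2
  simp only [E, omc_map]
  refine ⟨fun h => ?_, fun ⟨m, h1, h2, h3⟩ => h3 ▸ .om hk2 h1 h2⟩
  cases h with
  | om hk' h1 h2 => rw [hk2] at hk'; cases hk'; exact ⟨_, h1, h2, rfl⟩
  | val hk' | seq hk' | real hk' | ex hk' | setX hk' => rw [hk2] at hk'; cases hk'

end inv

def Tot (κ : Cfg ℕ) (B : Set W) : Prop := ∀ w ∈ B, ∃ n, E (P w.1) w.2 κ n

def Meas (κ : Cfg ℕ) (B : Set W) : Prop :=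
  ∀ n, MeasurableSet {w : W | w ∈ B ∧ E (P w.1) w.2 κ n}

def GG (κ : Cfg ℕ) (B : Set W) : Prop :=
  ∀ (A : Set C) (ρ : ℕ → C) (U : Set Y) (c : Y → Y), IsOpen U → U.Nonempty → Measurable c →
    Gen U (fun y => (c y, ρ) ∈ B ∧ P (c y) = A ∪ P y) →
    ∃ n, E A ρ κ n ∧ Gen U fun y => E (A ∪ P y) ρ κ n

def Good (κ : Cfg ℕ) (B : Set W) : Prop := Meas κ B ∧ GG κ B

theorem GG_of_weak {κ : Cfg ℕ} {B : Set W}
    (h : ∀ (A : Set C) (ρ : ℕ → C) (U : Set Y) (c : Y → Y), IsOpen U → U.Nonempty →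
      Measurable c → Gen U (fun y => (c y, ρ) ∈ B ∧ P (c y) = A ∪ P y) →
      ∃ n T, IsOpen T ∧ T.Nonempty ∧ T ⊆ U ∧ E A ρ κ n ∧ Gen T fun y => E (A ∪ P y) ρ κ n) :
    GG κ B := by
  intro A ρ U c hU hne hc hD
  obtain ⟨n, -, -, -, -, hn, -⟩ := h A ρ U c hU hne hc hD
  refine ⟨n, hn, Gen.localise hU fun V hV hVne hVU => ?_⟩
  obtain ⟨m, T, h1, h2, h3, hm, h4⟩ := h A ρ V c hV hVne hc (hD.sub hVU)
  obtain rfl := hm.det hn
  exact ⟨T, h1, h2, h3, h4⟩

theorem good_union {κ : Cfg ℕ} {B : Set W} {d : ℕ → Set W} (hd : ∀ i, MeasurableSet (d i))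
    (hB : B ⊆ ⋃ i, d i) (h : ∀ i, Good κ (B ∩ d i)) : Good κ B := by
  refine ⟨fun n => ?_, GG_of_weak fun A ρ U c hU hne hc hD => ?_⟩
  · have : {w : W | w ∈ B ∧ E (P w.1) w.2 κ n} =
        ⋃ i, {w : W | w ∈ B ∩ d i ∧ E (P w.1) w.2 κ n} := by
      ext w
      simp only [mem_iUnion, mem_ofPred_eq]
      refine ⟨fun h => ?_, fun ⟨i, h⟩ => ⟨h.1.1, h.2⟩⟩
      obtain ⟨i, hi⟩ := mem_iUnion.1 (hB h.1)
      exact ⟨i, ⟨h.1, hi⟩, h.2⟩
    rw [this]
    exact MeasurableSet.iUnion fun i => (h i).1 n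
  · obtain ⟨i, T, h1, h2, h3, h4⟩ := gen_cover (S := fun i => (fun y => (c y, ρ)) ⁻¹' d i)
      (fun i => (hc.prodMk measurable_const) (hd i)) hU hne
      (hD.mono fun y _ hy => (mem_iUnion (s := d)).1 (hB hy.1))
    obtain ⟨n, h5, h6⟩ := (h i).2 A ρ T c h1 h2 hc
      (((hD.sub h3).and h4).mono fun y _ hy => ⟨⟨hy.1.1, hy.2⟩, hy.1.2⟩)
    exact ⟨n, T, h1, h2, h3, h5, h6⟩

theorem good_empty (κ : Cfg ℕ) : Good κ ∅ := by
  refine ⟨fun n => by simp, fun A ρ U c hU hne hc hD => ?_⟩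
  obtain ⟨y, -, hy, -⟩ := hD.exists hU hne
  exact hy.elim

theorem meas_of_val {κ : Cfg ℕ} {B : Set W} (hB : MeasurableSet B) {F : W → ℕ}
    (hF : Measurable F) (h : ∀ w ∈ B, E (P w.1) w.2 κ (F w)) : Meas κ B := by
  intro n
  have : {w : W | w ∈ B ∧ E (P w.1) w.2 κ n} = B ∩ F ⁻¹' {n} := by
    ext w
    exact ⟨fun hw => ⟨hw.1, (h w hw.1).det hw.2⟩, fun hw => ⟨hw.1, hw.2 ▸ h w hw.1⟩⟩
  rw [this]
  exact hB.inter (hF (measurableSet_singleton n))

theorem exists_val {κ : Cfg ℕ} {B : Set W} (hB : MeasurableSet B) (hT : Tot κ B)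
    (hM : Meas κ B) : ∃ F : W → ℕ, Measurable F ∧ ∀ w ∈ B, E (P w.1) w.2 κ (F w) := by
  classical
  choose! F hF using hT
  refine ⟨fun w => if w ∈ B then F w else 0, measurable_to_countable' fun n => ?_,
    fun w hw => by simpa [hw] using hF w hw⟩
  have : (fun w => if w ∈ B then F w else 0) ⁻¹' {n} =
      {w : W | w ∈ B ∧ E (P w.1) w.2 κ n} ∪ (Bᶜ ∩ {_w | 0 = n}) := by
    ext w
    by_cases hw : w ∈ B
    · simp only [mem_preimage, hw, if_true, mem_singleton_iff, mem_union, mem_ofPred_eq, true_and,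
        mem_inter_iff, mem_compl_iff, not_true, false_and, or_false]
      exact ⟨fun h => h ▸ hF w hw, fun h => (hF w hw).det h⟩
    · simp [hw]
  rw [this]
  exact (hM n).union (hB.compl.inter (MeasurableSet.const _))

theorem good_val {κ : Cfg ℕ} {B : Set W} (hB : MeasurableSet B) {m : ℕ} (hk : kind κ = .val m) :
    Good κ B :=
  ⟨meas_of_val hB measurable_const fun _ _ => E_val hk,
    fun _ _ U _ _ _ _ _ => ⟨m, E_val hk, Gen.of_ev U (Eventually.of_forall fun _ => E_val hk)⟩⟩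

theorem good_seq {κ a : Cfg ℕ} {k : ℕ → Cfg ℕ} {B : Set W} (hk : kind κ = .seq a k)
    (h1 : Good a B) (h2 : ∀ m, Good (k m) {w : W | w ∈ B ∧ E (P w.1) w.2 a m}) : Good κ B := by
  refine ⟨fun n => ?_, fun A ρ U c hU hne hc hD => ?_⟩
  · have : {w : W | w ∈ B ∧ E (P w.1) w.2 κ n} = ⋃ m, {w : W |
        w ∈ {w : W | w ∈ B ∧ E (P w.1) w.2 a m} ∧ E (P w.1) w.2 (k m) n} := by
      ext w
      simp only [mem_iUnion, mem_ofPred_eq, E_seq hk]
      exact ⟨fun ⟨h, m, h3, h4⟩ => ⟨m, ⟨h, h3⟩, h4⟩, fun ⟨m, ⟨h, h3⟩, h4⟩ => ⟨h, m, h3, h4⟩⟩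
    rw [this]
    exact MeasurableSet.iUnion fun m => (h2 m).1 n
  · obtain ⟨m, h3, h4⟩ := h1.2 A ρ U c hU hne hc hD
    obtain ⟨n, h5, h6⟩ := (h2 m).2 A ρ U c hU hne hc
      ((hD.and h4).mono fun y _ hy => ⟨⟨hy.1.1, by simpa only [hy.1.2] using hy.2⟩, hy.1.2⟩)
    exact ⟨n, (E_seq hk).2 ⟨m, h3, h5⟩,
      (h4.and h6).mono fun y _ hy => (E_seq hk).2 ⟨m, hy.1, hy.2⟩⟩

theorem good_real {κ a : Cfg ℕ} {i : ℕ} {B : Set W} (hB : MeasurableSet B)
    (hk : kind κ = .real i a) (hT : Tot a B) (h1 : Good a B) : Good κ B := by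
  refine ⟨?_, fun A ρ U c hU hne hc hD => ?_⟩
  · obtain ⟨F, hF, h⟩ := exists_val hB hT h1.1
    refine meas_of_val hB (F := fun w => bits (w.2 i) (F w)) ?_
      fun w hw => (E_real hk).2 ⟨_, h w hw, rfl⟩
    have h2 : Measurable fun p : W × ℕ => bits (p.1.2 i) p.2 := by
      refine measurable_from_prod_countable_left fun m => ?_
      exact (measurable_of_countable fun b : Bool => if b = true then 1 else 0).comp
        (f := fun w : W => w.2 i m) (by fun_prop)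
    exact h2.comp (measurable_id.prodMk hF)
  · obtain ⟨m, h3, h4⟩ := h1.2 A ρ U c hU hne hc hD
    exact ⟨_, (E_real hk).2 ⟨m, h3, rfl⟩, h4.mono fun y _ hy => (E_real hk).2 ⟨m, hy, rfl⟩⟩

theorem good_fam {κ : Cfg ℕ} {k : ℕ → Cfg ℕ} {B : Set W} (hB : MeasurableSet B)
    (V : Set C → (ℕ → ℕ) → ℕ)
    (hk : ∀ X ρ n, E X ρ κ n ↔ ∃ f : ℕ → ℕ, (∀ i, E X ρ (k i) (f i)) ∧ n = V X f)
    (hV : Measurable fun p : Y × (ℕ → ℕ) => V (P p.1) p.2)
    (hV' : ∀ A f, ∀ᶠ y in residual Y, V A f = V (A ∪ P y) f)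
    (hT : ∀ i, Tot (k i) B) (h1 : ∀ i, Good (k i) B) : Good κ B := by
  refine ⟨?_, fun A ρ U c hU hne hc hD => ?_⟩
  · choose F hF h using fun i => exists_val hB (hT i) (h1 i).1
    refine meas_of_val hB (F := fun w => V (P w.1) fun i => F i w) ?_
      fun w hw => (hk _ _ _).2 ⟨_, fun i => h i w hw, rfl⟩
    exact hV.comp (measurable_fst.prodMk (measurable_pi_lambda _ hF))
  · choose f h3 h4 using fun i => (h1 i).2 A ρ U c hU hne hc hD
    exact ⟨_, (hk _ _ _).2 ⟨f, h3, rfl⟩, ((Gen.all h4).and (Gen.of_ev U (hV' A f))).mono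
      fun y _ hy => (hk _ _ _).2 ⟨f, hy.1, hy.2⟩⟩

theorem measurable_ind {Z : Type} [MeasurableSpace Z] {p : Z → Prop}
    (h : MeasurableSet {z | p z}) : Measurable fun z => ind (p z) := by
  unfold ind
  exact Measurable.ite h measurable_const measurable_const

theorem measurable_exV : Measurable fun p : Y × (ℕ → ℕ) => exV p.2 := by
  refine measurable_ind ?_
  have : {p : Y × (ℕ → ℕ) | ¬ ∃ n, p.2 n = 0} = (⋃ n, (fun p => p.2 n) ⁻¹' {0})ᶜ := by
    ext p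
    simp
  rw [this]
  exact (MeasurableSet.iUnion fun n =>
    (show Measurable fun p : Y × (ℕ → ℕ) => p.2 n by fun_prop) (measurableSet_singleton 0)).compl

theorem bits_eq_iff {g : C} {f : ℕ → ℕ} :
    bits g = f ↔ (∀ i, f i ≤ 1) ∧ g = fun i => decide (f i = 1) := by
  constructor
  · rintro rfl
    refine ⟨fun i => ?_, funext fun i => ?_⟩
    · unfold bits
      split_ifs <;> omega
    · unfold bits
      cases g i <;> simp
  · rintro ⟨h, rfl⟩
    funext i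
    have := h i
    unfold bits
    split_ifs with h1
    · simpa [eq_comm] using h1
    · simp at h1
      omega

theorem measurable_chiV : Measurable fun p : Y × (ℕ → ℕ) => chiV (P p.1) p.2 := by
  refine measurable_ind ?_
  have : {p : Y × (ℕ → ℕ) | ∃ g ∈ P p.1, bits g = p.2} =
      (⋂ i, (fun p => p.2 i) ⁻¹' {n | n ≤ 1}) ∩
        (fun p : Y × (ℕ → ℕ) => (p.1, fun i => decide (p.2 i = 1))) ⁻¹'
          {p : Y × (ℕ → Bool) | p.2 ∈ P p.1} := by
    ext p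
    simp only [mem_ofPred_eq, bits_eq_iff, mem_inter_iff, mem_iInter, mem_preimage]
    exact ⟨fun ⟨g, h1, h2, h3⟩ => ⟨h2, h3 ▸ h1⟩, fun ⟨h1, h2⟩ => ⟨_, h2, h1, rfl⟩⟩
  rw [this]
  refine (MeasurableSet.iInter fun i =>
    (show Measurable fun p : Y × (ℕ → ℕ) => p.2 i by fun_prop) (MeasurableSet.of_discrete)).inter ?_
  refine (measurable_fst.prodMk (measurable_pi_lambda _ fun i => ?_)) isClosed_mem_P.measurableSet
  exact (measurable_of_countable fun n : ℕ => decide (n = 1)).comp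
    (f := fun p : Y × (ℕ → ℕ) => p.2 i) (by fun_prop)

theorem gen_chiV (A : Set C) (f : ℕ → ℕ) : ∀ᶠ y in residual Y, chiV A f = chiV (A ∪ P y) f := by
  filter_upwards [gen_notMem fun i => decide (f i = 1)] with y hy
  unfold chiV
  congr 1
  refine propext ⟨fun ⟨g, h1, h2⟩ => ⟨g, Or.inl h1, h2⟩, fun ⟨g, h1, h2⟩ => ⟨g, ?_, h2⟩⟩
  exact h1.resolve_right ((bits_eq_iff.1 h2).2 ▸ hy)

def tl (w : W) : W := (w.1, fun i => w.2 (i + 1))

theorem continuous_tl : Continuous tl := by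
  unfold tl
  fun_prop

theorem cons_tl (w : W) : consF (w.2 0) (tl w).2 = w.2 := by
  funext i
  cases i <;> rfl

theorem tot_om {κ : Cfg ℕ} {a : AT ℕ} {B : Set W} (hk : kind κ = .om a) (hT : Tot κ B) :
    Tot (omc a) (tl ⁻¹' B) := by
  intro w hw
  obtain ⟨n, hn⟩ := hT _ hw
  obtain ⟨S, -, h, -⟩ := (E_om hk).1 hn
  have := h (w.2 0)
  rw [cons_tl] at this
  exact ⟨_, this⟩

theorem ind_eq_one {p : Prop} (h : ind p = 1) : p := by
  by_contra hp
  rw [ind_neg hp] at h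
  omega

theorem good_om {κ : Cfg ℕ} {a : AT ℕ} {B : Set W} (hB : MeasurableSet B)
    (hk : kind κ = .om a) (hT : Tot κ B) (h1 : Good (omc a) (tl ⁻¹' B)) : Good κ B := by
  obtain ⟨hM, hG⟩ := h1
  set Gr : Set W := {w : W | w ∈ tl ⁻¹' B ∧ E (P w.1) w.2 (omc a) 1} with hGr
  have hinj : InjOn tl Gr := by
    intro w hw v hv hwv
    obtain ⟨n, hn⟩ := hT _ hw.1
    obtain ⟨S, hS, h, -⟩ := (E_om hk).1 hn
    have h2 := h (w.2 0)
    rw [cons_tl] at h2
    have h3 := h (v.2 0)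
    rw [hwv, cons_tl] at h3
    have h4 : w.2 0 = v.2 0 := hS (ind_eq_one (h2.det hw.2)) (ind_eq_one (h3.det hv.2))
    refine Prod.ext (congrArg Prod.fst hwv : (tl w).1 = (tl v).1) ?_
    rw [← cons_tl w, ← cons_tl v, h4, hwv]
  have hmeas : ∀ Q : Set W, MeasurableSet Q → MeasurableSet (tl '' (Gr ∩ Q)) := fun Q hQ =>
    ((hM 1).inter hQ).image_of_continuousOn_injOn continuous_tl.continuousOn
      (hinj.mono inter_subset_left)
  have hmeas1 : MeasurableSet (tl '' Gr) := by simpa using hmeas univ MeasurableSet.univ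
  have hval : ∀ w ∈ B, E (P w.1) w.2 κ (ind (w ∈ tl '' Gr)) := by
    intro w hw
    obtain ⟨n, hn⟩ := hT _ hw
    obtain ⟨S, hS, h, rfl⟩ := (E_om hk).1 hn
    have : S.Nonempty ↔ w ∈ tl '' Gr := by
      constructor
      · rintro ⟨g, hg⟩
        refine ⟨(w.1, consF g w.2), ⟨hw, ?_⟩, rfl⟩
        have := h g
        rwa [ind_pos hg] at this
      · rintro ⟨v, hv, rfl⟩
        have h2 := h (v.2 0)
        rw [cons_tl] at h2
        exact ⟨_, ind_eq_one (h2.det hv.2)⟩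
    rwa [propext this] at hn
  refine ⟨meas_of_val hB (measurable_ind hmeas1) hval,
    GG_of_weak fun A ρ U c hU hne hc hD => ?_⟩
  choose Φ hΦ1 hΦ2 using fun g => hG A (consF g ρ) U c hU hne hc hD
  have key : ∀ y, (c y, ρ) ∈ B ∧ P (c y) = A ∪ P y → ∃ S : Set C, S.Subsingleton ∧
      ∀ g, E (A ∪ P y) (consF g ρ) (omc a) (ind (g ∈ S)) := by
    intro y hy
    obtain ⟨n, hn⟩ := hT _ hy.1
    obtain ⟨S, hS, h, -⟩ := (E_om hk).1 hn
    exact ⟨S, hS, hy.2 ▸ h⟩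
  have hΦ3 : ∀ g, Φ g = ind (g ∈ {g | Φ g = 1}) := by
    intro g
    obtain ⟨y, -, h2, h3⟩ := (hD.and (hΦ2 g)).exists hU hne
    obtain ⟨S, -, h⟩ := key y h2
    have h4 := h3.det (h g)
    by_cases hg : g ∈ S
    · rw [ind_pos hg] at h4
      rw [ind_pos (show g ∈ {g | Φ g = 1} from h4), h4]
    · rw [ind_neg hg] at h4
      rw [ind_neg (show g ∉ {g | Φ g = 1} from by simp [h4]), h4]
  have hΦ4 : {g | Φ g = 1}.Subsingleton := by
    intro g hg g' hg'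
    obtain ⟨y, -, ⟨h2, h3⟩, h4⟩ := ((hD.and (hΦ2 g)).and (hΦ2 g')).exists hU hne
    obtain ⟨S, hS, h⟩ := key y h2
    exact hS (ind_eq_one (((h g).det h3).trans hg)) (ind_eq_one (((h g').det h4).trans hg'))
  have hA : E A ρ κ (ind {g | Φ g = 1}.Nonempty) :=
    (E_om hk).2 ⟨_, hΦ4, fun g => hΦ3 g ▸ hΦ1 g, rfl⟩
  by_cases hne' : {g | Φ g = 1}.Nonempty
  · refine ⟨_, U, hU, hne, subset_rfl, hA, ?_⟩
    obtain ⟨g, hg⟩ := hne'
    refine (hD.and (hΦ2 g)).mono fun y _ hy => ?_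
    obtain ⟨S, hS, h⟩ := key y hy.1
    refine (E_om hk).2 ⟨S, hS, h, ?_⟩
    rw [ind_pos ⟨g, hg⟩, ind_pos ⟨g, ind_eq_one (((h g).det hy.2).trans hg)⟩]
  have hcm : Measurable fun y => ((c y, ρ) : W) := hc.prodMk measurable_const
  rcases gen_dichotomy (hcm hmeas1) hU with h2 | ⟨T, hT1, ⟨a0, ha0⟩, hTU, h2⟩
  · refine ⟨_, U, hU, hne, subset_rfl, hA, (hD.and h2).mono fun y _ hy => ?_⟩
    have h3 := hval _ hy.1.1
    rw [ind_neg (p := (c y, ρ) ∈ tl '' Gr) hy.2] at h3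
    rw [ind_neg hne', ← hy.1.2]
    exact h3
  exfalso
  obtain ⟨m0, hm0⟩ := exists_cyl hT1 ha0
  have hD' := hD.sub (hm0.trans hTU)
  have h2' := h2.sub hm0
  let Ej : ℕ → Bool → Set Y := fun j b =>
    (fun y => ((c y, ρ) : W)) ⁻¹' (tl '' (Gr ∩ {w : W | w.2 0 j = b}))
  have hEj : ∀ j b, MeasurableSet (Ej j b) := fun j b => hcm (hmeas _
    ((show Measurable fun w : W => w.2 0 j by fun_prop) (measurableSet_singleton b)))
  have hstep : ∀ j b (a1 a2 : Y) m, cyl a1 m ⊆ cyl a0 m0 → cyl a2 m ⊆ cyl a0 m0 →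
      Gen (cyl a1 m) (fun y => y ∈ Ej j b) → Gen (cyl (un a1 a2) m) fun y => y ∈ Ej j b := by
    intro j b a1 a2 m hs1 hs2 hg
    refine gen_un (hEj j b) (((hg.and (hD'.sub hs1)).and (Gen.of_ev _ (ku hD'))).mono ?_)
    rintro y hy ⟨⟨⟨w, ⟨hw1, hw2⟩, hw3⟩, hDy⟩, hku⟩
    have hw4 : E (A ∪ P y) (consF (w.2 0) ρ) (omc a) 1 := by
      have h5 := hw1.2
      rw [← cons_tl w, hw3] at h5
      have h6 : w.1 = c y := congrArg Prod.fst hw3
      rw [h6, hDy.2] at h5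
      simpa only [cons_tl] using h5
    have hD2 : Gen (cyl a2 m) fun z => (c (un y z), ρ) ∈ B ∧ P (c (un y z)) = A ∪ P y ∪ P z := by
      refine Eventually.mono hku fun z hz hz' => ?_
      have h5 : un y z ∈ cyl a0 m0 := by
        have := un_mem_cyl (hs1 hy) (hs2 hz')
        rwa [un_self] at this
      have h6 : (c (un y z), ρ) ∈ B ∧ P (c (un y z)) = A ∪ P (un y z) := hz h5
      rw [P_un, ← union_assoc] at h6
      exact h6
    obtain ⟨n, hn1, hn2⟩ := hG (A ∪ P y) (consF (w.2 0) ρ) (cyl a2 m) (fun z => c (un y z))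
      (isOpen_cyl _ _) ⟨_, mem_cyl _ _⟩
      (hc.comp (continuous_un.comp (f := fun z : Y => (y, z)) (by fun_prop)).measurable) hD2
    obtain rfl := hn1.det hw4
    refine (hD2.and hn2).mono fun z _ hz => ?_
    refine ⟨(c (un y z), consF (w.2 0) ρ), ⟨⟨hz.1.1, ?_⟩, hw2⟩, rfl⟩
    simpa only [hz.1.2] using hz.2
  have hconst : ∀ j, ∃ b, Gen (cyl a0 m0) fun y => y ∈ Ej j b := by
    intro j
    by_contra hcon
    have h3 : ∀ b, ∃ T', IsOpen T' ∧ T'.Nonempty ∧ T' ⊆ cyl a0 m0 ∧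
        Gen T' fun y => y ∈ Ej j b := by
      intro b
      rcases gen_dichotomy (hEj j b) (isOpen_cyl a0 m0) with h4 | h4
      · refine absurd ⟨!b, (h4.and h2').mono ?_⟩ hcon
        rintro y _ ⟨h5, w, hw1, hw2⟩
        refine ⟨w, ⟨hw1, ?_⟩, hw2⟩
        have h6 : ¬ w.2 0 j = b := fun h => h5 ⟨w, ⟨hw1, h⟩, hw2⟩
        exact Bool.eq_not.2 h6
      · exact h4
    obtain ⟨T0, hT0, ⟨a1, ha1⟩, hs0, hg0⟩ := h3 false
    obtain ⟨T1, hT1', ⟨a2, ha2⟩, hs1, hg1⟩ := h3 true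
    obtain ⟨m1, hm1⟩ := exists_cyl hT0 ha1
    obtain ⟨m2, hm2⟩ := exists_cyl hT1' ha2
    have hm1' := (cyl_anti a1 (le_max_left m1 m2)).trans hm1
    have hm2' := (cyl_anti a2 (le_max_right m1 m2)).trans hm2
    have h4 := hstep j false a1 a2 _ (hm1'.trans hs0) (hm2'.trans hs1) (hg0.sub hm1')
    have h5 := hstep j true a2 a1 _ (hm2'.trans hs1) (hm1'.trans hs0) (hg1.sub hm2')
    rw [un_comm] at h5
    obtain ⟨y, -, ⟨w, hw1, hw2⟩, ⟨v, hv1, hv2⟩⟩ :=
      (h4.and h5).exists (isOpen_cyl _ _) ⟨_, mem_cyl _ _⟩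
    obtain rfl := hinj hw1.1 hv1.1 (hw2.trans hv2.symm)
    exact Bool.false_ne_true (hw1.2.symm.trans hv1.2)
  choose g hg using hconst
  obtain ⟨y, -, ⟨h3, h4⟩, h5⟩ := (((Gen.all hg).and hD').and
    ((hΦ2 g).sub (hm0.trans hTU))).exists (isOpen_cyl _ _) ⟨_, mem_cyl _ _⟩
  obtain ⟨w, hw1, hw2⟩ := h3 0
  have h6 : w.2 0 = g := by
    funext j
    obtain ⟨v, hv1, hv2⟩ := h3 j
    obtain rfl := hinj hw1.1 hv1.1 (hw2.trans hv2.symm)
    exact hv1.2
  have h7 := hw1.1.2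
  rw [← cons_tl w, hw2] at h7
  have h8 : w.1 = c y := congrArg Prod.fst hw2
  rw [h8, h4.2] at h7
  rw [h6] at h7
  exact hne' ⟨g, h5.det h7⟩

theorem good_of_tot {κ : Cfg ℕ} {B : Set W} (hB : MeasurableSet B) (hT : Tot κ B) :
    Good κ B := by
  by_contra hcon
  obtain ⟨z, h1, h2, h3⟩ := fusion (fun κ B => MeasurableSet B ∧ Tot κ B ∧ ¬ Good κ B)
    (fun p q => p.2.1 = q.2.1 ∧ Sub (P q.2.1) (p.1.map p.2.2) (q.1.map q.2.2))
    (fun _ _ h => h.1)
    (fun κ B h => nonempty_iff_ne_empty.2 fun h' => h.2.2 (h' ▸ good_empty κ))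
    (fun κ B h d hd hc => by
      by_contra hcon
      refine h.2.2 (good_union hd hc fun i => ?_)
      by_contra hcon'
      exact hcon ⟨i, h.1.inter (hd i), fun w hw => h.2.1 w hw.1, hcon'⟩)
    (fun κ B ⟨hB, hT, hG⟩ => by
      have hk2 : ∀ ρ : ℕ → C, kind (κ.map ρ) = (kind κ).map ρ := fun ρ => kind_map ρ κ
      cases hk : kind κ with
      | stuck =>
        have : B = ∅ := eq_empty_of_forall_notMem fun w hw => by
          obtain ⟨n, hn⟩ := hT w hw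
          exact E_stuck hk hn
        exact absurd (this ▸ good_empty κ) hG
      | val m => exact absurd (good_val hB hk) hG
      | seq a k =>
        rw [hk] at hk2
        by_cases ha : Good a B
        · by_cases hb : ∀ m, Good (k m) {w : W | w ∈ B ∧ E (P w.1) w.2 a m}
          · exact absurd (good_seq hk ha hb) hG
          · obtain ⟨m, hm⟩ := not_forall.1 hb
            refine ⟨k m, _, id, continuous_id, ⟨ha.1 m, fun w hw => ?_, hm⟩, fun w hw => hw.1,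
              fun w hw => ⟨rfl, .seq2 (hk2 _) hw.2⟩⟩
            obtain ⟨n, hn⟩ := hT w hw.1
            obtain ⟨m', h1, h2⟩ := (E_seq hk).1 hn
            obtain rfl := h1.det hw.2
            exact ⟨n, h2⟩
        · refine ⟨a, B, id, continuous_id, ⟨hB, fun w hw => ?_, ha⟩, fun w hw => hw,
            fun w hw => ⟨rfl, .seq1 (hk2 _)⟩⟩
          obtain ⟨n, hn⟩ := hT w hw
          obtain ⟨m', h1, -⟩ := (E_seq hk).1 hn
          exact ⟨m', h1⟩
      | real i a =>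
        rw [hk] at hk2
        have hT' : Tot a B := fun w hw => by
          obtain ⟨n, hn⟩ := hT w hw
          obtain ⟨m', h1, -⟩ := (E_real hk).1 hn
          exact ⟨m', h1⟩
        exact ⟨a, B, id, continuous_id, ⟨hB, hT', fun h => hG (good_real hB hk hT' h)⟩,
          fun w hw => hw, fun w hw => ⟨rfl, .real (hk2 _)⟩⟩
      | ex k =>
        rw [hk] at hk2
        have hT' : ∀ i, Tot (k i) B := fun i w hw => by
          obtain ⟨n, hn⟩ := hT w hw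
          obtain ⟨f, h1, -⟩ := (E_ex hk).1 hn
          exact ⟨_, h1 i⟩
        obtain ⟨i, hi⟩ := not_forall.1 fun h => hG (good_fam hB (fun _ f => exV f)
          (fun _ _ _ => E_ex hk) measurable_exV (fun _ _ => Eventually.of_forall fun _ => rfl) hT' h)
        exact ⟨k i, B, id, continuous_id, ⟨hB, hT' i, hi⟩, fun w hw => hw,
          fun w hw => ⟨rfl, .ex i (hk2 _)⟩⟩
      | setX k =>
        rw [hk] at hk2
        have hT' : ∀ i, Tot (k i) B := fun i w hw => by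
          obtain ⟨n, hn⟩ := hT w hw
          obtain ⟨f, h1, -⟩ := (E_setX hk).1 hn
          exact ⟨_, h1 i⟩
        obtain ⟨i, hi⟩ := not_forall.1 fun h => hG (good_fam hB chiV
          (fun _ _ _ => E_setX hk) measurable_chiV gen_chiV hT' h)
        exact ⟨k i, B, id, continuous_id, ⟨hB, hT' i, hi⟩, fun w hw => hw,
          fun w hw => ⟨rfl, .setX i (hk2 _)⟩⟩
      | om a =>
        rw [hk] at hk2
        refine ⟨omc a, tl ⁻¹' B, tl, continuous_tl, ⟨continuous_tl.measurable hB, tot_om hk hT,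
          fun h => hG (good_om hB hk hT h)⟩, fun w hw => hw, fun w hw => ⟨rfl, ?_⟩⟩
        have h := Sub.om (X := P (tl w).1) (w.2 0) (hk2 (tl w).2)
        rw [← omc_map, cons_tl] at h
        exact h)
    κ B ⟨hB, hT, hcon⟩
  have h4 : ∀ n, (z n).2.1 = (z 0).2.1 := fun n => by
    induction n with
    | zero => rfl
    | succ n ih => exact (h3 n).1.trans ih
  obtain ⟨n, hn⟩ := hT _ h2
  have h5 : ∀ κ', Acc (Sub (P (z 0).2.1)) κ' → ∀ i, (z i).1.map (z i).2.2 ≠ κ' := by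
    intro κ' hacc
    induction hacc with
    | intro x _ ih =>
      rintro i rfl
      exact ih _ (h4 i ▸ (h3 i).2) (i + 1) rfl
  exact h5 _ (Ev.acc hn) 0 (by rw [h1])

theorem not_computable : ¬ ∃ t : Tm [ty3, ty2] ty3, ∀ X : Set C, IsClosed X →
    ind X.Nonempty ∈ toP (toF (denB t) (chi X)) := by
  rintro ⟨t, ht⟩
  have h1 : ∀ X ρ, IsClosed X → E X ρ (start t) (ind X.Nonempty) := fun X ρ hX => by
    unfold E
    rw [start_map]
    exact ev_start X t _ (ht X hX)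
  obtain ⟨n, h2, h3⟩ := (good_of_tot (κ := start t) MeasurableSet.univ
    fun w _ => ⟨_, h1 _ _ (isClosed_P _)⟩).2 ∅ (fun _ _ => true) univ id isOpen_univ univ_nonempty
      measurable_id (Gen.of_ev _ (Eventually.of_forall fun y => ⟨trivial, by simp⟩))
  obtain ⟨y, -, hy⟩ := h3.exists isOpen_univ univ_nonempty
  rw [empty_union] at hy
  have h4 := h2.det (h1 _ _ isClosed_empty)
  have h5 := hy.det (h1 _ _ (isClosed_P y))
  rw [ind_neg Set.not_nonempty_empty] at h4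
  rw [ind_pos (P_nonempty y)] at h5
  omega

end Pool.Agent.H240Z.Pcf
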