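import Pool.Agent.H240Z.PcfDefs

/-!
An abstract machine with infinitary rules, and its adequacy for the monotone model.
-/

namespace Pool.Agent.H240Z.Pcf

/-- Cantor space. -/
abbrev C : Type := ℕ → Bool

/-- Applicative expressions with closures, and constants for reals named in `R`. -/
inductive AT (R : Type) : Type
  | num : ℕ → AT R
  | succ : AT R
  | pred : AT R
  | cases : AT R
  | app : AT R → AT R → AT R
  | lam (Γ : List Ty) (s t : Ty) : Tm (s :: Γ) t → (ℕ → AT R) → AT R
  | fix : AT R → AT R
  | real : R → AT R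
  | ex : AT R
  | om : AT R
  | setX : AT R

def Var.idx : {Γ : List Ty} → {s : Ty} → Var Γ s → ℕ
  | _, _, .z => 0
  | _, _, .s v => v.idx + 1

def consF {α : Type} (a : α) (e : ℕ → α) : ℕ → α
  | 0 => a
  | n + 1 => e n

def inst {R : Type} : {Γ : List Ty} → {s : Ty} → Tm Γ s → (ℕ → AT R) → AT R
  | _, _, .var v, e => e v.idx
  | _, _, .zero, _ => .num 0
  | _, _, .succ, _ => .succ
  | _, _, .pred, _ => .pred
  | _, _, .cases, _ => .cases
  | _, _, .app a b, e => .app (inst a e) (inst b e)
  | Γ, _, .lam (s := s) (t := t) b, e => .lam Γ s t b e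
  | _, _, .fix a, e => .fix (inst a e)

def AT.map {R S : Type} (f : R → S) : AT R → AT S
  | .num n => .num n
  | .succ => .succ
  | .pred => .pred
  | .cases => .cases
  | .app a b => .app (a.map f) (b.map f)
  | .lam Γ s t b e => .lam Γ s t b fun i => (e i).map f
  | .fix a => .fix (a.map f)
  | .real r => .real (f r)
  | .ex => .ex
  | .om => .om
  | .setX => .setX

theorem AT.map_map {R S T : Type} (f : R → S) (g : S → T) (a : AT R) :
    (a.map f).map g = a.map (fun r => g (f r)) := by
  induction a with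
  | app a b iha ihb => simp [AT.map, iha, ihb]
  | lam Γ s t b e ih => simp [AT.map, ih]
  | fix a ih => simp [AT.map, ih]
  | _ => rfl

theorem map_inst {R S : Type} (f : R → S) {Γ : List Ty} {s : Ty} (t : Tm Γ s) (e : ℕ → AT R) :
    (inst t e).map f = inst t fun i => (e i).map f := by
  induction t with
  | app a b iha ihb => simp [inst, AT.map, iha, ihb]
  | fix a ih => simp [inst, AT.map, ih]
  | _ => rfl

/-- Configurations: an expression and a stack of arguments. -/
abbrev Cfg (R : Type) : Type := AT R × List (AT R)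

def Cfg.map {R S : Type} (f : R → S) (κ : Cfg R) : Cfg S := (κ.1.map f, κ.2.map (AT.map f))

/-- What the machine does at a configuration. -/
inductive Kind (R : Type) : Type
  | stuck : Kind R
  | val : ℕ → Kind R
  | seq : Cfg R → (ℕ → Cfg R) → Kind R
  | real : R → Cfg R → Kind R
  | ex : (ℕ → Cfg R) → Kind R
  | setX : (ℕ → Cfg R) → Kind R
  | om : AT R → Kind R

def Kind.map {R S : Type} (f : R → S) : Kind R → Kind S
  | .stuck => .stuck
  | .val n => .val n
  | .seq a k => .seq (a.map f) fun i => (k i).map f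
  | .real r a => .real (f r) (a.map f)
  | .ex k => .ex fun i => (k i).map f
  | .setX k => .setX fun i => (k i).map f
  | .om a => .om (a.map f)

def Kind.step {R : Type} (κ : Cfg R) : Kind R := .seq (.num 0, []) fun _ => κ

def kind1 {R : Type} (F : AT R → Kind R) : List (AT R) → Kind R
  | [a] => F a
  | _ => .stuck

def kind {R : Type} : Cfg R → Kind R
  | (.num n, π) => match π with
    | [] => .val n
    | _ :: _ => .stuck
  | (.succ, π) => kind1 (fun a => .seq (a, []) fun m => (.num (m + 1), [])) π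
  | (.pred, π) => kind1 (fun a => .seq (a, []) fun m => (.num (m - 1), [])) π
  | (.cases, π) => match π with
    | [] => .stuck
    | a :: π => match π with
      | [] => .stuck
      | b :: π => kind1 (fun c => .seq (a, []) fun m => if m = 0 then (b, []) else (c, [])) π
  | (.app a b, π) => .step (a, b :: π)
  | (.lam _ _ _ b e, π) => match π with
    | [] => .stuck
    | a :: π => .step (inst b (consF a e), π)
  | (.fix a, π) => .step (a, .fix a :: π)
  | (.real r, π) => kind1 (fun a => .real r (a, [])) π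
  | (.ex, π) => kind1 (fun a => .ex fun i => (.app a (.num i), [])) π
  | (.om, π) => kind1 (fun a => .om a) π
  | (.setX, π) => kind1 (fun a => .setX fun i => (.app a (.num i), [])) π

theorem kind1_map {R S : Type} (f : R → S) (F : AT R → Kind R) (G : AT S → Kind S)
    (h : ∀ a, G (a.map f) = (F a).map f) (π : List (AT R)) :
    kind1 G (π.map (AT.map f)) = (kind1 F π).map f := by
  match π with
  | [] => rfl
  | [a] => exact h a
  | _ :: _ :: _ => rfl

theorem kind_map {R S : Type} (f : R → S) (κ : Cfg R) : kind (κ.map f) = (kind κ).map f := by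
  obtain ⟨a, π⟩ := κ
  cases a with
  | num n => cases π <;> rfl
  | succ => exact kind1_map f _ _ (fun _ => rfl) π
  | pred => exact kind1_map f _ _ (fun _ => rfl) π
  | cases =>
    match π with
    | [] => rfl
    | [_] => rfl
    | a :: b :: π =>
      refine kind1_map f _ _ (fun c => ?_) π
      simp only [Kind.map]
      congr 1
      funext m
      split_ifs <;> rfl
  | app a b => rfl
  | lam Γ s t b e =>
    match π with
    | [] => rfl
    | a :: π =>
      simp only [Cfg.map, AT.map, List.map, kind, Kind.step, Kind.map, map_inst]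
      congr 1
      funext _
      congr 2
      funext i
      cases i <;> rfl
  | fix a => rfl
  | real r => exact kind1_map f _ _ (fun _ => rfl) π
  | ex => exact kind1_map f _ _ (fun _ => rfl) π
  | om => exact kind1_map f _ _ (fun _ => rfl) π
  | setX => exact kind1_map f _ _ (fun _ => rfl) π

/-- The value of Kleene's quantifier. -/
noncomputable def exV (f : ℕ → ℕ) : ℕ := ind (¬ ∃ n, f n = 0)

/-- The value of the characteristic function. -/
noncomputable def chiV (X : Set C) (f : ℕ → ℕ) : ℕ := ind (∃ g ∈ X, bits g = f)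

/-- Evaluation relative to the set `X`. -/
inductive Ev (X : Set C) : Cfg C → ℕ → Prop
  | val {κ : Cfg C} {n : ℕ} : kind κ = .val n → Ev X κ n
  | seq {κ a : Cfg C} {k : ℕ → Cfg C} {m n : ℕ} :
      kind κ = .seq a k → Ev X a m → Ev X (k m) n → Ev X κ n
  | real {κ a : Cfg C} {g : C} {m : ℕ} : kind κ = .real g a → Ev X a m → Ev X κ (bits g m)
  | ex {κ : Cfg C} {k : ℕ → Cfg C} {f : ℕ → ℕ} :
      kind κ = .ex k → (∀ i, Ev X (k i) (f i)) → Ev X κ (exV f)
  | setX {κ : Cfg C} {k : ℕ → Cfg C} {f : ℕ → ℕ} :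
      kind κ = .setX k → (∀ i, Ev X (k i) (f i)) → Ev X κ (chiV X f)
  | om {κ : Cfg C} {a : AT C} {S : Set C} :
      kind κ = .om a → S.Subsingleton → (∀ g, Ev X (.app a (.real g), []) (ind (g ∈ S))) →
      Ev X κ (ind S.Nonempty)

theorem ind_inj {p q : Prop} (h : ind p = ind q) : p ↔ q := by
  unfold ind at h
  by_cases h1 : p <;> by_cases h2 : q <;> simp_all

theorem ind_pos {p : Prop} (h : p) : ind p = 1 := by simp [ind, h]

theorem ind_neg {p : Prop} (h : ¬ p) : ind p = 0 := by simp [ind, h]

theorem Ev.det {X : Set C} {κ : Cfg C} {m : ℕ} (h : Ev X κ m) : ∀ {n : ℕ}, Ev X κ n → m = n := by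
  induction h with
  | val hk =>
    intro n h'
    cases h' with
    | val hk' => rw [hk] at hk'; cases hk'; rfl
    | seq hk' | real hk' | ex hk' | setX hk' | om hk' => rw [hk] at hk'; cases hk'
  | seq hk _ _ ih1 ih2 =>
    intro n h'
    cases h' with
    | seq hk' h1 h2 =>
      rw [hk] at hk'; cases hk'
      obtain rfl := ih1 h1
      exact ih2 h2
    | val hk' | real hk' | ex hk' | setX hk' | om hk' => rw [hk] at hk'; cases hk'
  | real hk _ ih =>
    intro n h'
    cases h' with
    | real hk' h1 =>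
      rw [hk] at hk'; cases hk'
      rw [ih h1]
    | val hk' | seq hk' | ex hk' | setX hk' | om hk' => rw [hk] at hk'; cases hk'
  | ex hk _ ih =>
    intro n h'
    cases h' with
    | ex hk' h1 =>
      rw [hk] at hk'; cases hk'
      rw [funext fun i => ih i (h1 i)]
    | val hk' | seq hk' | real hk' | setX hk' | om hk' => rw [hk] at hk'; cases hk'
  | setX hk _ ih =>
    intro n h'
    cases h' with
    | setX hk' h1 =>
      rw [hk] at hk'; cases hk'
      rw [funext fun i => ih i (h1 i)]
    | val hk' | seq hk' | real hk' | ex hk' | om hk' => rw [hk] at hk'; cases hk'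
  | om hk _ _ ih =>
    intro n h'
    cases h' with
    | om hk' _ h1 =>
      rw [hk] at hk'; cases hk'
      rw [Set.ext fun g => ind_inj (ih g (h1 g))]
    | val hk' | seq hk' | real hk' | ex hk' | setX hk' => rw [hk] at hk'; cases hk'

/-- The immediate subcomputation relation. -/
inductive Sub (X : Set C) : Cfg C → Cfg C → Prop
  | seq1 {κ a : Cfg C} {k : ℕ → Cfg C} : kind κ = .seq a k → Sub X a κ
  | seq2 {κ a : Cfg C} {k : ℕ → Cfg C} {m : ℕ} : kind κ = .seq a k → Ev X a m → Sub X (k m) κ
  | real {κ a : Cfg C} {g : C} : kind κ = .real g a → Sub X a κ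
  | ex {κ : Cfg C} {k : ℕ → Cfg C} (i : ℕ) : kind κ = .ex k → Sub X (k i) κ
  | setX {κ : Cfg C} {k : ℕ → Cfg C} (i : ℕ) : kind κ = .setX k → Sub X (k i) κ
  | om {κ : Cfg C} {a : AT C} (g : C) : kind κ = .om a → Sub X (.app a (.real g), []) κ

theorem Ev.acc {X : Set C} {κ : Cfg C} {m : ℕ} (h : Ev X κ m) : Acc (Sub X) κ := by
  induction h with
  | val hk =>
    refine ⟨_, fun y h' => ?_⟩
    cases h' with
    | seq1 hk' | seq2 hk' | real hk' | ex _ hk' | setX _ hk' | om _ hk' =>
      rw [hk] at hk'; cases hk'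
  | seq hk h1 _ ih1 ih2 =>
    refine ⟨_, fun y h' => ?_⟩
    cases h' with
    | seq1 hk' => rw [hk] at hk'; cases hk'; exact ih1
    | seq2 hk' h2 =>
      rw [hk] at hk'; cases hk'
      obtain rfl := h1.det h2
      exact ih2
    | real hk' | ex _ hk' | setX _ hk' | om _ hk' => rw [hk] at hk'; cases hk'
  | real hk _ ih =>
    refine ⟨_, fun y h' => ?_⟩
    cases h' with
    | real hk' => rw [hk] at hk'; cases hk'; exact ih
    | seq1 hk' | seq2 hk' | ex _ hk' | setX _ hk' | om _ hk' => rw [hk] at hk'; cases hk'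
  | ex hk _ ih =>
    refine ⟨_, fun y h' => ?_⟩
    cases h' with
    | ex i hk' => rw [hk] at hk'; cases hk'; exact ih i
    | seq1 hk' | seq2 hk' | real hk' | setX _ hk' | om _ hk' => rw [hk] at hk'; cases hk'
  | setX hk _ ih =>
    refine ⟨_, fun y h' => ?_⟩
    cases h' with
    | setX i hk' => rw [hk] at hk'; cases hk'; exact ih i
    | seq1 hk' | seq2 hk' | real hk' | ex _ hk' | om _ hk' => rw [hk] at hk'; cases hk'
  | om hk _ _ ih =>
    refine ⟨_, fun y h' => ?_⟩
    cases h' with
    | om g hk' => rw [hk] at hk'; cases hk'; exact ih g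
    | seq1 hk' | seq2 hk' | real hk' | ex _ hk' | setX _ hk' => rw [hk] at hk'; cases hk'

theorem Ev.num (X : Set C) (n : ℕ) : Ev X (.num n, []) n := .val rfl

theorem Ev.step {X : Set C} {κ κ' : Cfg C} {n : ℕ} (hk : kind κ = .step κ') (h : Ev X κ' n) :
    Ev X κ n := .seq hk (Ev.num X 0) h

theorem Ev.of_step {X : Set C} {κ κ' : Cfg C} {n : ℕ} (hk : kind κ = .step κ') (h : Ev X κ n) :
    Ev X κ' n := by
  cases h with
  | seq hk' h1 h2 => rw [hk] at hk'; cases hk'; exact h2
  | val hk' | real hk' | ex hk' | setX hk' | om hk' => rw [hk] at hk'; cases hk'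

/-- The logical relation between the model and the machine. -/
def Rel (X : Set C) : (s : Ty) → D s → AT C → Prop
  | .o, d, a => ∀ n, n ∈ toP d → Ev X (a, []) n
  | .arr s t, d, a => ∀ e b, Rel X s e b → Rel X t (toF d e) (.app a b)

theorem Rel.expand {X : Set C} : ∀ (s : Ty) (d : D s) (a a' : AT C),
    (∀ π n, Ev X (a', π) n → Ev X (a, π) n) → Rel X s d a' → Rel X s d a
  | .o, _, _, _, h, hr => fun n hn => h _ _ (hr n hn)
  | .arr _ t, _, _, _, h, hr => fun e b hb =>
    Rel.expand t _ _ _ (fun _ _ h' => .step rfl (h _ _ (Ev.of_step rfl h'))) (hr e b hb)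

theorem Rel.lub {X : Set C} : ∀ (s : Ty) (a : AT C) (c : Set (D s)), (∀ d ∈ c, Rel X s d a) →
    IsChain (· ≤ ·) c → ∀ x, IsLUB c x → Rel X s x a
  | .o, a, c, h, hc, x, hx => by
    intro n hn
    by_contra hne
    have h1 : ofP Part.none ∈ upperBounds c := by
      intro y hy m hm
      exfalso
      have : m = n := Part.mem_unique (hx.1 hy m hm) hn
      exact hne (this ▸ h y hy m hm)
    exact Part.notMem_none n (hx.2 h1 n hn)
  | .arr s t, a, c, h, hc, x, hx => by
    intro e b hb
    have hch : ∀ e : D s, IsChain (· ≤ ·) ((fun f => toF f e) '' c) := fun e => by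
      rintro _ ⟨f, hf, rfl⟩ _ ⟨g, hg, rfl⟩ _
      rcases hc.total hf hg with h1 | h1
      · exact Or.inl (h1 e)
      · exact Or.inr (h1 e)
    choose F hF using fun e => exists_lub t _ (hch e)
    have hm : Monotone F := fun x y hxy => (hF x).2 (by
      rintro _ ⟨f, hf, rfl⟩
      exact ((toF f).monotone hxy).trans ((hF y).1 ⟨f, hf, rfl⟩))
    have h1 : x ≤ ofF ⟨F, hm⟩ := hx.2 fun f hf e => (hF e).1 ⟨f, hf, rfl⟩
    have h2 : toF x e = F e := le_antisymm (h1 e) ((hF e).2 (by
      rintro _ ⟨f, hf, rfl⟩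
      exact hx.1 hf e))
    rw [h2]
    refine Rel.lub t _ _ ?_ (hch e) _ (hF e)
    rintro _ ⟨f, hf, rfl⟩
    exact h f hf e b hb

theorem rel_num (X : Set C) (n : ℕ) : Rel X .o (ofP (Part.some n)) (.num n) := by
  intro m hm
  obtain rfl := Part.mem_some_iff.1 hm
  exact Ev.num X _

theorem adequacy (X : Set C) {Γ : List Ty} {s : Ty} (t : Tm Γ s) : ∀ (ρ : Env Γ) (e : ℕ → AT C),
    (∀ (u : Ty) (v : Var Γ u), Rel X u (ρ u v) (e v.idx)) → Rel X s (den t ρ) (inst t e) := by
  induction t with
  | var v => exact fun ρ e h => h _ v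
  | zero => exact fun _ _ _ => rel_num X 0
  | succ =>
    intro _ _ _ x b hb n hn
    obtain ⟨m, hm, rfl⟩ := (Part.mem_map_iff _).1 hn
    exact .step rfl (.seq rfl (hb m hm) (Ev.num X _))
  | pred =>
    intro _ _ _ x b hb n hn
    obtain ⟨m, hm, rfl⟩ := (Part.mem_map_iff _).1 hn
    exact .step rfl (.seq rfl (hb m hm) (Ev.num X _))
  | cases =>
    intro _ _ _ x a ha y b hb z c hc n hn
    have hn' : n ∈ (toP x).bind fun m => if m = 0 then toP y else toP z := hn
    obtain ⟨m, hm, h⟩ := Part.mem_bind_iff.1 hn'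
    refine .step rfl (.step rfl (.step rfl (.seq rfl (ha m hm) ?_)))
    split_ifs at h ⊢
    · exact hb n h
    · exact hc n h
  | app a b iha ihb => exact fun ρ e h => iha ρ e h _ _ (ihb ρ e h)
  | lam b ih =>
    intro ρ e h x a ha
    refine Rel.expand _ _ _ (inst b (consF a e)) (fun π n h' => .step rfl (.step rfl h')) ?_
    refine ih (Env.cons x ρ) (consF a e) fun u v => ?_
    cases v with
    | z => exact ha
    | s v => exact h _ v
  | fix a ih =>
    intro ρ e h
    refine (lfp_induct (toF (den a ρ)) {d | Rel X _ d (.fix (inst a e))} (fun d hd => ?_)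
      (fun c hc hch x hx => Rel.lub _ _ c hc hch x hx)).1
    exact Rel.expand _ _ _ (.app (inst a e) (.fix (inst a e)))
      (fun π n h' => .step rfl (Ev.of_step rfl h')) (ih ρ e h d _ hd)

theorem rel_real (X : Set C) (g : C) : Rel X ty1 (liftN (bits g)) (.real g) := by
  intro x b hb n hn
  obtain ⟨m, hm, rfl⟩ := (Part.mem_map_iff _).1 hn
  exact .step rfl (.real rfl (hb m hm))

theorem rel_ex (X : Set C) : Rel X ty2 exists2 .ex := by
  intro φ b hb n hn
  obtain ⟨h1, rfl⟩ := hn
  exact .step rfl (.ex rfl fun i => hb _ _ (rel_num X i) _ (Classical.choose_spec h1 i))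

theorem rel_setX (X : Set C) : Rel X ty2 (chi X) .setX := by
  intro φ b hb n hn
  obtain ⟨h1, rfl⟩ := hn
  exact .step rfl (.setX rfl fun i => hb _ _ (rel_num X i) _ (Classical.choose_spec h1 i))

theorem rel_om (X : Set C) : Rel X ty3 omegaB .om := by
  intro Φ b hb n hn
  obtain ⟨h1, rfl⟩ := hn
  exact .step rfl (.om rfl (Classical.choose_spec h1).1
    fun g => hb _ _ (rel_real X g) _ ((Classical.choose_spec h1).2 g))

/-- The starting configuration of a term. -/
def start {R : Type} (t : Tm [ty3, ty2] ty3) : Cfg R :=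
  (.app (inst t (consF .om fun _ => .ex)) .setX, [])

theorem start_map {R S : Type} (f : R → S) (t : Tm [ty3, ty2] ty3) :
    (start t).map f = start t := by
  simp only [start, Cfg.map, AT.map, map_inst, List.map]
  congr 3
  funext i
  cases i <;> rfl

theorem ev_start (X : Set C) (t : Tm [ty3, ty2] ty3) (n : ℕ)
    (h : n ∈ toP (toF (denB t) (chi X))) : Ev X (start t) n := by
  refine adequacy X t _ (consF .om fun _ => .ex) (fun u v => ?_) _ _ (rel_setX X) n h
  match u, v with
  | _, .z => exact rel_om X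
  | _, .s .z => exact rel_ex X

end Pool.Agent.H240Z.Pcf
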