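import Pool.Agent.H240Z.QcDisc

/-!
The radial shear is pointwise Lipschitz, and pointwise bi-Lipschitz maps have bounded dilatation.
-/

namespace Pool.Agent.H240Z.Qc

open UpperHalfPlane Filter Topology
open scoped MatrixGroups

theorem ch_eq (a b : ℍ) :
    ch a b = ((a.re - b.re) ^ 2 + (a.im - b.im) ^ 2) / (2 * a.im * b.im) := by
  have := a.im_pos
  have := b.im_pos
  unfold ch
  rw [cosh_dist']
  field_simp
  ring

theorem ch_eq' (a b : ℍ) : ch a b = ‖(a : ℂ) - b‖ ^ 2 / (2 * a.im * b.im) := by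
  unfold ch
  rw [cosh_dist, dist_eq_norm]
  ring

theorem ch_nonneg (a b : ℍ) : 0 ≤ ch a b := sub_nonneg.2 (Real.one_le_cosh _)

theorem continuous_slope : Continuous fun z : ℍ => z.re / z.im :=
  continuous_re.div continuous_im fun z => z.im_ne_zero

theorem alg_rad {m M L p q x y x' y' : ℝ} (hm : 0 < m) (hp : m ≤ p) (hq : m ≤ q) (hpM : p ≤ M)
    (hL : |p - q| ≤ L * |x' / y' - x / y|) (hy : 0 < y) (hx : x ^ 2 ≤ y ^ 2) (ha : y / 2 < y') :
    ((p * x' - q * x) ^ 2 + (p * y' - q * y) ^ 2) / (2 * (p * y') * (q * y)) ≤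
      (2 * M ^ 2 + 32 * L ^ 2) / m ^ 2 * (((x' - x) ^ 2 + (y' - y) ^ 2) / (2 * y' * y)) := by
  have hya : 0 < y' := by linarith
  have hp0 : 0 < p := by linarith
  have hq0 : 0 < q := by linarith
  obtain ⟨E, hE⟩ : ∃ E, E = (x' - x) ^ 2 + (y' - y) ^ 2 := ⟨_, rfl⟩
  have hE0 : 0 ≤ E := by rw [hE]; positivity
  have hu : (x' / y' - x / y) ^ 2 * y ^ 2 ≤ 8 * E := by
    have e1 : (x' / y' - x / y) ^ 2 * y ^ 2 = ((x' - x) * y - x * (y' - y)) ^ 2 / y' ^ 2 := by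
      field_simp
      ring
    have e2 : ((x' - x) * y - x * (y' - y)) ^ 2 ≤ E * (y ^ 2 + x ^ 2) := by
      have : E * (y ^ 2 + x ^ 2) - ((x' - x) * y - x * (y' - y)) ^ 2 =
          ((x' - x) * x + y * (y' - y)) ^ 2 := by
        rw [hE]
        ring
      nlinarith [sq_nonneg ((x' - x) * x + y * (y' - y))]
    have e3 : y ^ 2 ≤ (2 * y') ^ 2 := pow_le_pow_left₀ hy.le (by linarith) 2
    have e4 : E * (y ^ 2 + x ^ 2) ≤ E * (8 * y' ^ 2) :=
      mul_le_mul_of_nonneg_left (by linarith) hE0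
    rw [e1, div_le_iff₀ (by positivity)]
    linarith
  have hpq : (p - q) ^ 2 ≤ L ^ 2 * (x' / y' - x / y) ^ 2 := by
    have := pow_le_pow_left₀ (abs_nonneg _) hL 2
    rwa [mul_pow, sq_abs, sq_abs] at this
  have hpM2 : p ^ 2 ≤ M ^ 2 := pow_le_pow_left₀ hp0.le hpM 2
  have hnum : (p * x' - q * x) ^ 2 + (p * y' - q * y) ^ 2 ≤ (2 * M ^ 2 + 32 * L ^ 2) * E := by
    have e1 : (p * x' - q * x) ^ 2 + (p * y' - q * y) ^ 2 ≤
        2 * p ^ 2 * E + 2 * (p - q) ^ 2 * (x ^ 2 + y ^ 2) := by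
      have : 2 * p ^ 2 * E + 2 * (p - q) ^ 2 * (x ^ 2 + y ^ 2) -
          ((p * x' - q * x) ^ 2 + (p * y' - q * y) ^ 2) =
          (p * (x' - x) - (p - q) * x) ^ 2 + (p * (y' - y) - (p - q) * y) ^ 2 := by
        rw [hE]
        ring
      have h1 := sq_nonneg (p * (x' - x) - (p - q) * x)
      have h2 := sq_nonneg (p * (y' - y) - (p - q) * y)
      linarith
    have e2 : (p - q) ^ 2 * (x ^ 2 + y ^ 2) ≤ (p - q) ^ 2 * (2 * y ^ 2) :=
      mul_le_mul_of_nonneg_left (by linarith) (sq_nonneg _)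
    have e3 : (p - q) ^ 2 * y ^ 2 ≤ L ^ 2 * (8 * E) := by
      calc (p - q) ^ 2 * y ^ 2 ≤ L ^ 2 * (x' / y' - x / y) ^ 2 * y ^ 2 :=
            mul_le_mul_of_nonneg_right hpq (sq_nonneg _)
        _ ≤ L ^ 2 * (8 * E) := by
            rw [mul_assoc]
            exact mul_le_mul_of_nonneg_left hu (sq_nonneg _)
    have e4 := mul_le_mul_of_nonneg_right hpM2 hE0
    linarith
  have hden : m ^ 2 ≤ p * q := by
    rw [sq]
    exact mul_le_mul hp hq hm.le hp0.le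
  rw [← hE, div_mul_div_comm]
  refine div_le_div₀ (by positivity) hnum (by positivity) ?_
  have := mul_le_mul_of_nonneg_right hden (show 0 ≤ 2 * y' * y by positivity)
  linarith

theorem rad_lip (φ : ℝ → ℝ) (hφ : ∀ u, 0 < φ u) {m M L : ℝ} (hm : 0 < m) (h1 : ∀ u, m ≤ φ u)
    (h2 : ∀ u, φ u ≤ M) (h3 : ∀ u v, |φ u - φ v| ≤ L * |u - v|)
    (h4 : ∀ u, u ≤ -1 → φ u = φ (-1)) (h5 : ∀ u, 1 ≤ u → φ u = φ 1) :
    ∃ K, 0 < K ∧ ∀ z, Lip K (rad φ hφ) z := by
  refine ⟨(2 * M ^ 2 + 32 * L ^ 2) / m ^ 2 + 1, by positivity, fun z => ?_⟩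
  have hK : 0 ≤ (2 * M ^ 2 + 32 * L ^ 2) / m ^ 2 := by positivity
  have hconst : (∀ᶠ a : ℍ in 𝓝 z, φ (a.re / a.im) = φ (z.re / z.im)) →
      Lip ((2 * M ^ 2 + 32 * L ^ 2) / m ^ 2 + 1) (rad φ hφ) z := by
    intro h
    filter_upwards [h] with a ha
    have h6 : ch (rad φ hφ a) (rad φ hφ z) = ch a z := by
      have := a.im_pos
      have := z.im_pos
      have := hφ (z.re / z.im)
      simp only [ch_eq, rad_re, rad_im, ha]
      field_simp
    rw [h6]
    nlinarith [ch_nonneg a z]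
  rcases lt_or_ge (z.re / z.im) (-1) with hz | hz
  · refine hconst ?_
    filter_upwards [continuous_slope.continuousAt.eventually (gt_mem_nhds hz)] with a ha
    rw [h4 _ ha.le, h4 _ hz.le]
  rcases lt_or_ge 1 (z.re / z.im) with hz' | hz'
  · refine hconst ?_
    filter_upwards [continuous_slope.continuousAt.eventually (lt_mem_nhds hz')] with a ha
    rw [h5 _ ha.le, h5 _ hz'.le]
  have hy := z.im_pos
  have hx : z.re ^ 2 ≤ z.im ^ 2 := by
    rw [le_div_iff₀ hy] at hz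
    rw [div_le_iff₀ hy] at hz'
    exact sq_le_sq' (by linarith) (by linarith)
  filter_upwards [continuous_im.continuousAt.eventually (lt_mem_nhds (half_lt_self hy))] with a ha
  have h7 : ch (rad φ hφ a) (rad φ hφ z) ≤ (2 * M ^ 2 + 32 * L ^ 2) / m ^ 2 * ch a z := by
    simp only [ch_eq, rad_re, rad_im]
    exact alg_rad hm (h1 _) (h1 _) (h2 _) (h3 _ _) hy hx ha
  have h8 := ch_nonneg a z
  rw [add_mul]
  linarith

theorem Lip.continuousAt {K : ℝ} {w : ℍ → ℍ} {z : ℍ} (h : Lip K w z) : ContinuousAt w z := by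
  rw [ContinuousAt, Metric.tendsto_nhds]
  intro ε hε
  have h1 : Tendsto (fun a => K * ch a z) (𝓝 z) (𝓝 0) := by
    have : Continuous fun a => K * ch a z := by
      unfold ch
      fun_prop
    simpa [ch] using this.tendsto z
  have h2 : 0 < Real.cosh ε - 1 := sub_pos.2 (Real.one_lt_cosh.2 hε.ne')
  filter_upwards [h, h1.eventually (gt_mem_nhds h2)] with a h3 h4
  have h5 : Real.cosh (dist (w a) (w z)) < Real.cosh ε := by
    unfold ch at h3
    unfold ch at h4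
    linarith
  rw [Real.cosh_lt_cosh, abs_of_nonneg dist_nonneg, abs_of_pos hε] at h5
  exact h5

theorem dilatation (w : Equiv.Perm ℍ) {K K' : ℝ} (hK : 0 < K) (hK' : 0 < K')
    (h : ∀ z, Lip K w z) (h' : ∀ z, Lip K' w.symm z) :
    ∃ H : ℝ, ∀ z : ℍ, ∀ᶠ ρ in 𝓝[>] (0 : ℝ), ∀ a b : ℍ, ‖(a : ℂ) - z‖ = ρ → ‖(b : ℂ) - z‖ = ρ →
      ‖(w a : ℂ) - w z‖ ≤ H * ‖(w b : ℂ) - w z‖ := by
  refine ⟨4 * (K + K'), fun z => ?_⟩
  have hy := z.im_pos
  have hY := (w z).im_pos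
  have hc := (h z).continuousAt
  have hci : ContinuousAt (fun a => (w a).im) z := continuous_im.continuousAt.comp hc
  have h1 : ∀ᶠ a in 𝓝 z, ch (w a) (w z) ≤ K * ch a z ∧ ch a z ≤ K' * ch (w a) (w z) ∧
      z.im / 2 < a.im ∧ a.im < 2 * z.im ∧ (w z).im / 2 < (w a).im ∧ (w a).im < 2 * (w z).im := by
    filter_upwards [h z, hc.eventually (h' (w z)),
      continuous_im.continuousAt.eventually (lt_mem_nhds (half_lt_self hy)),
      continuous_im.continuousAt.eventually (gt_mem_nhds (show z.im < 2 * z.im by linarith)),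
      hci.eventually (lt_mem_nhds (half_lt_self hY)),
      hci.eventually (gt_mem_nhds (show (w z).im < 2 * (w z).im by linarith))]
      with a h1 h2 h3 h4 h5 h6
    exact ⟨h1, by simpa using h2, h3, h4, h5, h6⟩
  rw [isEmbedding_coe.nhds_eq_comap, eventually_comap, Metric.eventually_nhds_iff] at h1
  obtain ⟨ε, hε, h1⟩ := h1
  filter_upwards [nhdsWithin_le_nhds (gt_mem_nhds hε)] with ρ hρ a b ha hb
  obtain ⟨a1, -, a3, -, -, a6⟩ := h1 (y := a) (by rw [dist_eq_norm, ha]; exact hρ) a rfl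
  obtain ⟨-, b2, -, b4, b5, -⟩ := h1 (y := b) (by rw [dist_eq_norm, hb]; exact hρ) b rfl
  have hya := a.im_pos
  have hyb := b.im_pos
  have hYa := (w a).im_pos
  have hYb := (w b).im_pos
  rw [ch_eq', ch_eq', ha] at a1
  rw [ch_eq', ch_eq', hb] at b2
  set A := ‖(w a : ℂ) - w z‖
  set B := ‖(w b : ℂ) - w z‖
  have hB : 0 ≤ B := norm_nonneg _
  have e1 : A ^ 2 * z.im ^ 2 ≤ 4 * K * ρ ^ 2 * (w z).im ^ 2 := by
    rw [← mul_div_assoc, div_le_div_iff₀ (by positivity) (by positivity)] at a1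
    have f1 : A ^ 2 * z.im ^ 2 ≤ A ^ 2 * (2 * a.im * z.im) :=
      mul_le_mul_of_nonneg_left (by nlinarith) (sq_nonneg _)
    have f2 : K * ρ ^ 2 * (2 * (w a).im * (w z).im) ≤ K * ρ ^ 2 * (4 * (w z).im ^ 2) :=
      mul_le_mul_of_nonneg_left (by nlinarith) (by positivity)
    linarith
  have e2 : ρ ^ 2 * (w z).im ^ 2 ≤ 4 * K' * B ^ 2 * z.im ^ 2 := by
    rw [← mul_div_assoc, div_le_div_iff₀ (by positivity) (by positivity)] at b2
    have f1 : ρ ^ 2 * (w z).im ^ 2 ≤ ρ ^ 2 * (2 * (w b).im * (w z).im) :=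
      mul_le_mul_of_nonneg_left (by nlinarith) (sq_nonneg _)
    have f2 : K' * B ^ 2 * (2 * b.im * z.im) ≤ K' * B ^ 2 * (4 * z.im ^ 2) :=
      mul_le_mul_of_nonneg_left (by nlinarith) (by positivity)
    linarith
  have e3 : A ^ 2 * z.im ^ 2 ≤ (16 * K * K' * B ^ 2) * z.im ^ 2 := by
    have := mul_le_mul_of_nonneg_left e2 (show 0 ≤ 4 * K by positivity)
    linarith
  have e4 : A ^ 2 ≤ 16 * K * K' * B ^ 2 := le_of_mul_le_mul_right e3 (by positivity)
  apply le_of_sq_le_sq _ (by positivity)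
  have e5 : 16 * K * K' ≤ (4 * (K + K')) ^ 2 := by nlinarith [mul_pos hK hK']
  rw [mul_pow]
  exact e4.trans (mul_le_mul_of_nonneg_right e5 (sq_nonneg _))

theorem isQC_of (w : Equiv.Perm ℍ) {K K' : ℝ} (hK : 0 < K) (hK' : 0 < K')
    (h : ∀ z, Lip K w z) (h' : ∀ z, Lip K' w.symm z) {z : ℍ} (hz : ∀ᶠ a in 𝓝 z, w a = a) :
    IsQC w := by
  refine ⟨continuous_iff_continuousAt.2 fun z => (h z).continuousAt,
    continuous_iff_continuousAt.2 fun z => (h' z).continuousAt, dilatation w hK hK' h h',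
    z, ContinuousLinearMap.id ℝ ℂ, (hasFDerivAt_id (z : ℂ)).congr_of_eventuallyEq ?_, ?_⟩
  · rw [← isOpenEmbedding_coe.map_nhds_eq]
    refine eventually_map.2 ?_
    filter_upwards [hz] with a ha
    simp [ha]
  · simp [ContinuousLinearMap.det]

theorem isQC_one : IsQC 1 :=
  isQC_of 1 one_pos one_pos (fun _ => Eventually.of_forall fun _ => by simp)
    (fun _ => Eventually.of_forall fun _ => by simp [← Equiv.Perm.inv_def]) (z := I)
    (Eventually.of_forall fun _ => rfl)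

end Pool.Agent.H240Z.Qc
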