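import Pool.Agent.H240Z.QcSum
import Pool.Agent.H240Z.QcRad

/-!
The construction of the system of discs.
-/

namespace Pool.Agent.H240Z.Qc

open UpperHalfPlane Filter Topology Set
open scoped MatrixGroups

theorem subset_single {s : Set ℝ} (hs : IsPreconnected s) (hne : s.Nonempty) (A : ℕ → Set ℝ)
    (hA : ∀ j, IsClosed (A j)) : ∀ n, (∀ i < n, ∀ j < n, i ≠ j → Disjoint (A i) (A j)) →
    s ⊆ ⋃ j < n, A j → ∃ j < n, s ⊆ A j := by
  intro n
  induction n with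
  | zero =>
    intro _ h
    obtain ⟨x, hx⟩ := hne
    simpa using h hx
  | succ n ih =>
    intro hd h
    rw [biUnion_lt_succ] at h
    have hcl : IsClosed (⋃ j < n, A j) := (finite_lt_nat n).isClosed_biUnion fun j _ => hA j
    rcases isPreconnected_iff_subset_of_disjoint_closed.1 hs _ _ hcl (hA n) h (by
      refine eq_empty_of_forall_notMem fun x ⟨_, h1, h2⟩ => ?_
      obtain ⟨j, hj, h3⟩ := mem_iUnion₂.1 h1
      exact disjoint_left.1 (hd j (by omega) n (by omega) (by omega)) h3 h2) with h1 | h1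
    · obtain ⟨j, hj, h2⟩ := ih (fun i hi j hj => hd i (by omega) j (by omega)) h1
      exact ⟨j, by omega, h2⟩
    · exact ⟨n, by omega, h1⟩

theorem exists_point (n : ℕ) (g : ℕ → ℝ × ℝ) (a b : ℝ) : ∃ c : ℝ, c ≠ 0 ∧
    (∀ j < n, (g j).2 < |c - (g j).1|) ∧ (a < b →
      (∀ i < n, ∀ j < n, i ≠ j → (g i).2 + (g j).2 < |(g i).1 - (g j).1|) →
      (∀ j < n, ¬ ((g j).1 - (g j).2 ≤ a ∧ b ≤ (g j).1 + (g j).2)) → a < c ∧ c < b) := by
  have hU : IsOpen {x : ℝ | ∀ j < n, (g j).2 < |x - (g j).1|} := by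
    have : {x : ℝ | ∀ j < n, (g j).2 < |x - (g j).1|} =
        ⋂ j < n, {x : ℝ | (g j).2 < |x - (g j).1|} := by
      ext x
      simp
    rw [this]
    exact (finite_lt_nat n).isOpen_biInter fun j _ => isOpen_lt continuous_const (by fun_prop)
  by_cases h : a < b ∧ (∀ i < n, ∀ j < n, i ≠ j → (g i).2 + (g j).2 < |(g i).1 - (g j).1|) ∧
      ∀ j < n, ¬ ((g j).1 - (g j).2 ≤ a ∧ b ≤ (g j).1 + (g j).2)
  · have h1 : (Ioo a b ∩ {x : ℝ | ∀ j < n, (g j).2 < |x - (g j).1|}).Nonempty := by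
      by_contra hcon
      obtain ⟨j, hj, h2⟩ := subset_single isPreconnected_Ioo (nonempty_Ioo.2 h.1)
        (fun j => Icc ((g j).1 - (g j).2) ((g j).1 + (g j).2)) (fun _ => isClosed_Icc) n
        (fun i hi j hj hij => disjoint_left.2 fun x h1 h2 => by
          have h3 := h.2.1 i hi j hj hij
          have h4 : |(g i).1 - (g j).1| ≤ (g i).2 + (g j).2 :=
            abs_le.2 ⟨by linarith [h1.2, h2.1], by linarith [h1.1, h2.2]⟩
          linarith)
        (fun x hx => by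
          by_contra h3
          refine hcon ⟨x, hx, fun j hj => ?_⟩
          by_contra h4
          have h5 := abs_le.1 (not_lt.1 h4)
          exact h3 (mem_iUnion₂.2 ⟨j, hj, by linarith [h5.1], by linarith [h5.2]⟩))
      have h3 := closure_minimal h2 isClosed_Icc
      rw [closure_Ioo h.1.ne] at h3
      exact h.2.2 j hj ((Icc_subset_Icc_iff h.1.le).1 h3)
    obtain ⟨c, ⟨h2, h3⟩, h4⟩ :=
      (dense_compl_singleton (0 : ℝ)).inter_open_nonempty _ (isOpen_Ioo.inter hU) h1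
    exact ⟨c, h4, h3, fun _ _ _ => h2⟩
  · have h1 : ∀ᶠ x : ℝ in atTop, ∀ j ∈ {j | j < n}, (g j).2 < |x - (g j).1| := by
      rw [(finite_lt_nat n).eventually_all]
      intro j _
      filter_upwards [eventually_gt_atTop ((g j).1 + (g j).2)] with x hx
      exact lt_of_lt_of_le (by linarith) (le_abs_self _)
    obtain ⟨c, h2, h3⟩ := (h1.and (eventually_gt_atTop 0)).exists
    exact ⟨c, h3.ne', h2, fun h4 h5 h6 => absurd ⟨h4, h5, h6⟩ h⟩

theorem exists_disc (n : ℕ) (g : ℕ → ℝ × ℝ) (a b t : ℝ) (ht : 0 < t) : ∃ p : ℝ × ℝ,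
    0 < p.2 ∧ p.2 ≤ t ∧ p.2 ≤ t * |p.1| ∧ (∀ j < n, p.2 ≤ t * (|p.1 - (g j).1| - (g j).2)) ∧
    (a < b → (∀ i < n, ∀ j < n, i ≠ j → (g i).2 + (g j).2 < |(g i).1 - (g j).1|) →
      (∀ j < n, ¬ ((g j).1 - (g j).2 ≤ a ∧ b ≤ (g j).1 + (g j).2)) →
      a < p.1 - p.2 ∧ p.1 + p.2 < b) := by
  obtain ⟨c, h1, h2, h3⟩ := exists_point n g a b
  have e : ∀ x : ℝ, 0 < x → ∀ᶠ r in 𝓝[>] (0 : ℝ), r < x := fun x hx =>
    nhdsWithin_le_nhds (gt_mem_nhds hx)
  have h4 : ∀ᶠ r in 𝓝[>] (0 : ℝ), ∀ j ∈ {j | j < n}, r ≤ t * (|c - (g j).1| - (g j).2) := by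
    rw [(finite_lt_nat n).eventually_all]
    intro j hj
    exact (e _ (mul_pos ht (sub_pos.2 (h2 j hj)))).mono fun r hr => hr.le
  have h5 : ∀ᶠ r in 𝓝[>] (0 : ℝ), a < c ∧ c < b → a < c - r ∧ c + r < b := by
    by_cases h : a < c ∧ c < b
    · filter_upwards [e _ (sub_pos.2 h.1), e _ (sub_pos.2 h.2)] with r h6 h7 _
      constructor <;> linarith
    · exact Eventually.of_forall fun _ h' => absurd h' h
  obtain ⟨r, ⟨⟨⟨h6, h7⟩, h8⟩, h9⟩, h10⟩ := ((((h4.and h5).and (e t ht)).and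
    (e _ (mul_pos ht (abs_pos.2 h1)))).and self_mem_nhdsWithin).exists
  exact ⟨(c, r), h10, h8.le, h9.le, h6, fun h11 h12 h13 => h7 (h3 h11 h12 h13)⟩

noncomputable def seqF (F : ℕ → (ℕ → ℝ × ℝ) → ℝ × ℝ) (n : ℕ) : ℝ × ℝ :=
  F n fun j => if _h : j < n then seqF F j else 0
termination_by n

theorem exists_sys (l : ℝ) (hl : 0 < l) (hl' : l ≤ 1 / 4) (τ : ℕ → ℝ) (hτ : ∀ i, 0 < τ i)
    (hτ' : ∀ i, τ i ≤ 1 / 4) (hτ0 : Tendsto τ atTop (𝓝 0)) :
    ∃ S : Sys, S.c 0 = -3 ∧ S.r 0 = 1 ∧ S.c 1 = -10 ∧ S.r 1 = l ∧ S.c 2 = 3 * l ∧ S.r 2 = l ∧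
      (∀ i, 3 ≤ i → S.r i ≤ τ i ∧ S.r i ≤ τ i * |S.c i| ∧
        ∀ j < i, S.r i ≤ τ i * (|S.c i - S.c j| - S.r j)) ∧
      ∀ a b : ℚ, a < b → (∃ i, a < S.c i - S.r i ∧ S.c i + S.r i < b) ∨
        ∃ i, S.c i - S.r i ≤ a ∧ b ≤ S.c i + S.r i := by
  obtain ⟨e, he⟩ := exists_surjective_nat (ℚ × ℚ)
  choose G hG using fun n g => exists_disc n g (e (n - 3)).1 (e (n - 3)).2 (τ n) (hτ n)
  let F : ℕ → (ℕ → ℝ × ℝ) → ℝ × ℝ := fun n g =>
    if n = 0 then (-3, 1) else if n = 1 then (-10, l) else if n = 2 then (3 * l, l) else G n g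
  let p := seqF F
  have p0 : p 0 = (-3, 1) := by simp only [p]; rw [seqF]; simp [F]
  have p1 : p 1 = (-10, l) := by simp only [p]; rw [seqF]; simp [F]
  have p2 : p 2 = (3 * l, l) := by simp only [p]; rw [seqF]; simp [F]
  have p3 : ∀ n, 3 ≤ n → p n = G n fun j => if j < n then p j else 0 := by
    intro n hn
    simp only [p]
    rw [seqF]
    simp [F, show n ≠ 0 by omega, show n ≠ 1 by omega, show n ≠ 2 by omega]
  have hP : ∀ n, 3 ≤ n → 0 < (p n).2 ∧ (p n).2 ≤ τ n ∧ (p n).2 ≤ τ n * |(p n).1| ∧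
      (∀ j < n, (p n).2 ≤ τ n * (|(p n).1 - (p j).1| - (p j).2)) ∧
      (((e (n - 3)).1 : ℝ) < (e (n - 3)).2 →
        (∀ i < n, ∀ j < n, i ≠ j → (p i).2 + (p j).2 < |(p i).1 - (p j).1|) →
        (∀ j < n, ¬ ((p j).1 - (p j).2 ≤ (e (n - 3)).1 ∧ (e (n - 3)).2 ≤ (p j).1 + (p j).2)) →
        (e (n - 3)).1 < (p n).1 - (p n).2 ∧ (p n).1 + (p n).2 < (e (n - 3)).2) := by
    intro n hn
    obtain ⟨h1, h2, h3, h4, h5⟩ := hG n fun j => if j < n then p j else 0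
    rw [← p3 n hn] at h1 h2 h3 h4 h5
    refine ⟨h1, h2, h3, fun j hj => by simpa only [hj, if_true] using h4 j hj,
      fun h6 h7 h8 => h5 h6 (fun i hi j hj hij => ?_) fun j hj => ?_⟩
    · simpa only [hi, hj, if_true] using h7 i hi j hj hij
    · simpa only [hj, if_true] using h8 j hj
  have hpos : ∀ i, 0 < (p i).2 := by
    intro i
    rcases (show i = 0 ∨ i = 1 ∨ i = 2 ∨ 3 ≤ i by omega) with rfl | rfl | rfl | h
    · simp [p0]
    · simpa [p1]
    · simpa [p2]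
    · exact (hP i h).1
  have hdisj' : ∀ i j, j < i → (p i).2 + (p j).2 < |(p i).1 - (p j).1| := by
    intro i j hij
    rcases (show (i = 1 ∧ j = 0) ∨ (i = 2 ∧ j = 0) ∨ (i = 2 ∧ j = 1) ∨ 3 ≤ i by omega) with
      ⟨rfl, rfl⟩ | ⟨rfl, rfl⟩ | ⟨rfl, rfl⟩ | h
    · rw [p0, p1]
      exact lt_abs.2 (Or.inr (by simp only; linarith))
    · rw [p0, p2]
      exact lt_abs.2 (Or.inl (by simp only; linarith))
    · rw [p1, p2]
      exact lt_abs.2 (Or.inl (by simp only; linarith))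
    · have h1 := (hP i h).2.2.2.1 j hij
      have h2 := hpos i
      have h3 : 0 < |(p i).1 - (p j).1| - (p j).2 := (mul_pos_iff_of_pos_left (hτ i)).1 (h2.trans_le h1)
      have h4 := mul_le_mul_of_nonneg_right (hτ' i) h3.le
      linarith
  have hdisj : ∀ i j, i ≠ j → (p i).2 + (p j).2 < |(p i).1 - (p j).1| := by
    intro i j hij
    rcases lt_or_gt_of_ne hij with h | h
    · rw [add_comm, abs_sub_comm]
      exact hdisj' j i h
    · exact hdisj' i j h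
  refine ⟨⟨fun i => (p i).1, fun i => (p i).2, hpos, hdisj, ?_⟩, by simp [p0], by simp [p0],
    by simp [p1], by simp [p1], by simp [p2], by simp [p2],
    fun i hi => ⟨(hP i hi).2.1, (hP i hi).2.2.1, (hP i hi).2.2.2.1⟩, fun a b hab => ?_⟩
  · refine squeeze_zero' (Eventually.of_forall fun i => (hpos i).le) ?_ hτ0
    filter_upwards [eventually_ge_atTop 3] with i hi using (hP i hi).2.1
  · obtain ⟨k, hk⟩ := he (a, b)
    have h1 := (hP (k + 3) (by omega)).2.2.2.2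
    simp only [Nat.add_sub_cancel, hk] at h1
    by_contra hcon
    rw [not_or] at hcon
    exact hcon.1 ⟨k + 3, h1 (by exact_mod_cast hab) (fun i _ j _ hij => hdisj i j hij)
      fun j _ h => hcon.2 ⟨j, h⟩⟩

namespace Sys

variable {S T : Sys}

theorem not_cl_I (h : ∀ i, 3 * S.r i ≤ |S.c i|) (i : ℕ) : ¬ S.Cl i I := fun h' => by
  have h1 := h'.re
  rw [I_re, zero_sub, abs_neg] at h1
  linarith [h i, S.pos i]

theorem slope_pos (h : ∀ i, 3 * S.r i ≤ |S.c i|) {i : ℕ} {z : ℍ} (hz : S.Cl i z)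
    (hc : 0 < S.c i) : 1 < z.re / z.im := by
  have h1 := abs_le.1 hz.re
  have h2 := hz.im
  have h3 := h i
  rw [abs_of_pos hc] at h3
  rw [lt_div_iff₀ z.im_pos]
  linarith [S.pos i, h1.1]

theorem slope_neg (h : ∀ i, 3 * S.r i ≤ |S.c i|) {i : ℕ} {z : ℍ} (hz : S.Cl i z)
    (hc : ¬ 0 < S.c i) : z.re / z.im < -1 := by
  have h1 := abs_le.1 hz.re
  have h2 := hz.im
  have h3 := h i
  rw [abs_of_nonpos (not_lt.1 hc)] at h3
  rw [div_lt_iff₀ z.im_pos]
  linarith [S.pos i, h1.2]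

theorem rad_eq_sc {φ : ℝ → ℝ} (hφ : ∀ u, 0 < φ u) {μ : ℝ} (hμ : 0 < μ) {z : ℍ}
    (h : φ (z.re / z.im) = μ) : rad φ hφ z = sc μ hμ z := by
  apply ext_re_im <;> simp only [sc, rad_re, rad_im, h]

theorem slope_rad {φ : ℝ → ℝ} (hφ : ∀ u, 0 < φ u) (z : ℍ) :
    (rad φ hφ z).re / (rad φ hφ z).im = z.re / z.im := by
  rw [rad_re, rad_im, mul_div_mul_left _ _ (hφ _).ne']

theorem compat_rad {φ : ℝ → ℝ} (hφ : ∀ u, 0 < φ u) (h4 : ∀ u, u ≤ -1 → φ u = φ (-1))
    (h5 : ∀ u, 1 ≤ u → φ u = φ 1) (h : ∀ i, 3 * S.r i ≤ |S.c i|)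
    (hc : ∀ i, T.c i = φ (if 0 < S.c i then 1 else -1) * S.c i)
    (hr : ∀ i, T.r i = φ (if 0 < S.c i then 1 else -1) * S.r i) :
    Compat S T (rad φ hφ) ∧ ∀ z, S.F z → T.F (rad φ hφ z) := by
  have hT : ∀ i, 3 * T.r i ≤ |T.c i| := by
    intro i
    rw [hc, hr, abs_mul, abs_of_pos (hφ _), mul_left_comm]
    exact mul_le_mul_of_nonneg_left (h i) (hφ _).le
  have hs : ∀ i, 0 < T.c i ↔ 0 < S.c i := fun i => by
    rw [hc]
    exact mul_pos_iff_of_pos_left (hφ _)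
  refine ⟨fun i => ⟨_, hφ _, hc i, hr i, fun z hz => ?_⟩, fun z hz i hi => hz i ?_⟩
  · by_cases hi : 0 < S.c i
    · filter_upwards [continuous_slope.continuousAt.eventually (lt_mem_nhds (slope_pos h hz hi))]
        with a ha
      exact rad_eq_sc hφ _ (by rw [if_pos hi, h5 _ ha.le])
    · filter_upwards [continuous_slope.continuousAt.eventually (gt_mem_nhds (slope_neg h hz hi))]
        with a ha
      exact rad_eq_sc hφ _ (by rw [if_neg hi, h4 _ ha.le])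
  · have h6 : φ (z.re / z.im) = φ (if 0 < S.c i then 1 else -1) := by
      by_cases hi' : 0 < S.c i
      · have := slope_pos hT hi.cl ((hs i).2 hi')
        rw [slope_rad] at this
        rw [if_pos hi', h5 _ this.le]
      · have := slope_neg hT hi.cl (mt (hs i).1 hi')
        rw [slope_rad] at this
        rw [if_neg hi', h4 _ this.le]
    unfold In at hi ⊢
    rw [rad_eq_sc hφ (hφ _) h6, hc, hr, N_sc, mul_pow] at hi
    exact lt_of_mul_lt_mul_left hi (sq_nonneg _)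

theorem fac_of {s : ℝ} (hs : 0 < s) (t : ℕ → ℝ)
    (h1 : ∀ i, 1 ≤ i → S.r i ≤ t i ∨ S.r i ≤ t i * |S.c i|)
    (h2 : ∀ i, ∀ j < i, S.r i ≤ t i * (|S.c i - S.c j| - S.r j))
    (h3 : ∀ i, 1 ≤ i → (t i ^ 2) ^ s ≤ (1 / 4) ^ (2 * i ^ 2 + i + 1)) :
    ∀ i, 1 ≤ i → ∀ w, (w = I ∨ ∃ j < i, S.Cl j w) →
      (S.r i ^ 2 / N (S.c i) w) ^ s ≤ (1 / 4) ^ (2 * i ^ 2 + i + 1) := by
  intro i hi w hw
  have hN := N_pos (S.c i) w
  have hr := S.pos i
  refine (Real.rpow_le_rpow (by positivity) ?_ hs.le).trans (h3 i hi)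
  rw [div_le_iff₀ hN]
  rcases hw with rfl | ⟨j, hj, hw⟩
  · have h4 : N (S.c i) I = S.c i ^ 2 + 1 := by simp [N]
    rw [h4]
    rcases h1 i hi with h5 | h5
    · have := pow_le_pow_left₀ hr.le h5 2
      nlinarith [sq_nonneg (t i * S.c i)]
    · have := pow_le_pow_left₀ hr.le h5 2
      rw [mul_pow, sq_abs] at this
      nlinarith [sq_nonneg (t i)]
  · have := pow_le_pow_left₀ hr.le (h2 i j hj) 2
    rw [mul_pow] at this
    exact this.trans (mul_le_mul_of_nonneg_left (N_ge hw hj.ne') (sq_nonneg _))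

/-- The system obtained by scaling the discs on the positive axis. -/
noncomputable def scale (S : Sys) (h : ∀ i, 3 * S.r i ≤ |S.c i|) (M : ℝ) (hM : 1 ≤ M) : Sys where
  c i := (if 0 < S.c i then M else 1) * S.c i
  r i := (if 0 < S.c i then M else 1) * S.r i
  pos i := by
    have := S.pos i
    split_ifs <;> positivity
  disj i j hij := by
    have h1 := S.disj i j hij
    have h2 := h i
    have h3 := h j
    have h4 := S.pos i
    have h5 := S.pos j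
    split_ifs with h6 h7 h7
    · rw [← mul_add, ← mul_sub, abs_mul, abs_of_pos (by linarith)]
      exact mul_lt_mul_of_pos_left h1 (by linarith)
    · rw [abs_of_pos h6] at h2
      rw [abs_of_nonpos (not_lt.1 h7)] at h3
      exact lt_abs.2 (Or.inl (by nlinarith))
    · rw [abs_of_pos h7] at h3
      rw [abs_of_nonpos (not_lt.1 h6)] at h2
      exact lt_abs.2 (Or.inr (by nlinarith))
    · simpa using h1
  small := by
    refine squeeze_zero (fun i => ?_) (fun i => ?_) (by simpa using S.small.const_mul M)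
    · have := S.pos i
      split_ifs <;> positivity
    · have := S.pos i
      split_ifs <;> nlinarith

end Sys

end Pool.Agent.H240Z.Qc
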