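import Mathlib

/-!
Fuchsian groups, quasiconformal deformations and the critical exponent.
-/

namespace Pool.Agent.H240Z.Qc

open UpperHalfPlane Filter Topology
open scoped MatrixGroups

/-- The Moebius transformation of the upper half-plane given by a matrix. -/
noncomputable def mob : SL(2, ℝ) →* Equiv.Perm ℍ := MulAction.toPermHom SL(2, ℝ) ℍ

/-- A Fuchsian group: a group of Moebius transformations (a subgroup of `PSL(2, ℝ)`, the range of
`mob`) in which the identity is isolated. -/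
def IsFuchsian (Γ : Subgroup (Equiv.Perm ℍ)) : Prop :=
  Γ ≤ mob.range ∧ ∀ᶠ A in 𝓝 (1 : SL(2, ℝ)), mob A ∈ Γ → mob A = 1

/-- The orbit of `i`, as a set of complex numbers. -/
def orbitI (Γ : Subgroup (Equiv.Perm ℍ)) : Set ℂ := {w | ∃ γ ∈ Γ, w = (γ I : ℍ)}

/-- The limit set is the whole circle at infinity: every real point is in the closure of the
orbit of `i`, and the orbit is unbounded. -/
def FirstKind (Γ : Subgroup (Equiv.Perm ℍ)) : Prop :=
  (∀ x : ℝ, (x : ℂ) ∈ closure (orbitI Γ)) ∧ ¬ Bornology.IsBounded (orbitI Γ)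

/-- A quasiconformal homeomorphism (metric definition): a homeomorphism whose linear dilatation is
bounded, and which preserves orientation (it has a point of differentiability with positive
Jacobian). -/
def IsQC (w : Equiv.Perm ℍ) : Prop :=
  Continuous w ∧ Continuous w.symm ∧
  (∃ H : ℝ, ∀ z : ℍ, ∀ᶠ ρ in 𝓝[>] (0 : ℝ), ∀ a b : ℍ, ‖(a : ℂ) - z‖ = ρ → ‖(b : ℂ) - z‖ = ρ →
    ‖(w a : ℂ) - w z‖ ≤ H * ‖(w b : ℂ) - w z‖) ∧
  ∃ (z : ℍ) (D : ℂ →L[ℝ] ℂ), HasFDerivAt (fun ζ : ℂ => (w (ofComplex ζ) : ℂ)) D z ∧ 0 < D.det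

/-- The conjugate group `w Γ w⁻¹`. -/
def conjBy (w : Equiv.Perm ℍ) (Γ : Subgroup (Equiv.Perm ℍ)) : Subgroup (Equiv.Perm ℍ) :=
  Γ.map (MulAut.conj w).toMonoidHom

/-- `w` represents a point of the quasiconformal deformation space of `Γ`. -/
def InTqc (Γ : Subgroup (Equiv.Perm ℍ)) (w : Equiv.Perm ℍ) : Prop :=
  IsQC w ∧ conjBy w Γ ≤ mob.range

/-- The exponents at which the Poincare series with base point `i` converges. -/
def convSet (Γ : Subgroup (Equiv.Perm ℍ)) : Set ℝ :=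
  {s | 0 < s ∧ Summable fun γ : Γ => Real.exp (-s * dist I ((γ : Equiv.Perm ℍ) I))}

/-- The critical exponent. -/
noncomputable def delta (Γ : Subgroup (Equiv.Perm ℍ)) : ℝ := sInf (convSet Γ)

end Pool.Agent.H240Z.Qc
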