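import Pool.Agent.H240Z.QcDefs

/-!
Systems of disjoint half-discs, the involutions in them, and equivariant extension.
-/

namespace Pool.Agent.H240Z.Qc

open UpperHalfPlane Filter Topology
open scoped MatrixGroups

/-- Squared Euclidean distance to a real point. -/
def N (c : ℝ) (z : ℍ) : ℝ := (z.re - c) ^ 2 + z.im ^ 2

theorem N_pos (c : ℝ) (z : ℍ) : 0 < N c z := by
  have := z.im_pos
  unfold N
  positivity

theorem continuous_N (c : ℝ) : Continuous (N c) := by
  unfold N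
  fun_prop

/-- The involution exchanging the two sides of the half-circle with centre `c` and radius `r`. -/
noncomputable def inv (c r : ℝ) (hr : 0 < r) : SL(2, ℝ) :=
  ⟨!![c / r, -(c ^ 2 + r ^ 2) / r; 1 / r, -c / r], by
    rw [Matrix.det_fin_two_of]
    field_simp
    ring⟩

theorem coe_inv (c r : ℝ) (hr : 0 < r) (z : ℍ) :
    ((inv c r hr • z : ℍ) : ℂ) = c - (r : ℂ) ^ 2 / (z - c) := by
  rw [coe_specialLinearGroup_apply]
  have h1 : (z : ℂ) - c ≠ 0 := sub_ne_zero.2 (ne_ofReal z c)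
  have h2 : (r : ℂ) ≠ 0 := by exact_mod_cast hr.ne'
  have h3 : (1 / r * (z : ℂ) + -c / r) = (z - c) / r := by ring
  simp only [inv, Matrix.SpecialLinearGroup.coe_mk, Matrix.of_apply, Matrix.cons_val', Matrix.cons_val_zero,
    Matrix.cons_val_one, Matrix.cons_val_fin_one, Algebra.algebraMap_self, RingHom.id_apply]
  push_cast
  rw [h3]
  field_simp
  ring

theorem normSq_sub (c : ℝ) (z : ℍ) : Complex.normSq ((z : ℂ) - c) = N c z := by
  simp [Complex.normSq_apply, N, sq]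

theorem inv_re (c r : ℝ) (hr : 0 < r) (z : ℍ) :
    (inv c r hr • z).re = c - r ^ 2 * (z.re - c) / N c z := by
  rw [← coe_re, coe_inv, Complex.sub_re, Complex.div_re, normSq_sub]
  simp [sq]

theorem inv_im (c r : ℝ) (hr : 0 < r) (z : ℍ) :
    (inv c r hr • z).im = r ^ 2 * z.im / N c z := by
  rw [← coe_im, coe_inv, Complex.sub_im, Complex.div_im, normSq_sub]
  simp [sq]

theorem N_inv (c r : ℝ) (hr : 0 < r) (z : ℍ) : N c (inv c r hr • z) = r ^ 4 / N c z := by
  have h := (N_pos c z).ne'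
  conv_lhs => unfold N
  rw [inv_re, inv_im]
  field_simp
  unfold N
  ring

theorem inv_inv' (c r : ℝ) (hr : 0 < r) (z : ℍ) : inv c r hr • inv c r hr • z = z := by
  have h := (N_pos c z).ne'
  have h2 := hr.ne'
  apply ext_re_im
  · rw [inv_re, N_inv, inv_re]
    field_simp
    ring
  · rw [inv_im, N_inv, inv_im]
    field_simp

/-- The radial shear by a positive function of the slope. -/
noncomputable def rad (φ : ℝ → ℝ) (hφ : ∀ u, 0 < φ u) (z : ℍ) : ℍ :=
  ⟨(φ (z.re / z.im) : ℂ) * z, by simpa using mul_pos (hφ _) z.im_pos⟩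

theorem rad_re (φ : ℝ → ℝ) (hφ : ∀ u, 0 < φ u) (z : ℍ) :
    (rad φ hφ z).re = φ (z.re / z.im) * z.re := by
  simp [rad]

theorem rad_im (φ : ℝ → ℝ) (hφ : ∀ u, 0 < φ u) (z : ℍ) :
    (rad φ hφ z).im = φ (z.re / z.im) * z.im := by
  simp [rad]

/-- Multiplication by a positive constant. -/
noncomputable def sc (μ : ℝ) (hμ : 0 < μ) : ℍ → ℍ := rad (fun _ => μ) fun _ => hμ

theorem N_sc (μ : ℝ) (hμ : 0 < μ) (c : ℝ) (z : ℍ) : N (μ * c) (sc μ hμ z) = μ ^ 2 * N c z := by
  simp only [N, sc, rad_re, rad_im]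
  ring

theorem inv_sc (μ : ℝ) (hμ : 0 < μ) (c r : ℝ) (hr : 0 < r) (hr' : 0 < μ * r) (z : ℍ) :
    inv (μ * c) (μ * r) hr' • sc μ hμ z = sc μ hμ (inv c r hr • z) := by
  have h := (N_pos c z).ne'
  have h2 := hμ.ne'
  apply ext_re_im
  · rw [inv_re, N_sc]
    simp only [sc, rad_re, inv_re]
    field_simp
  · rw [inv_im, N_sc]
    simp only [sc, rad_im, inv_im]
    field_simp

/-- A sequence of pairwise disjoint closed half-discs with radii tending to zero. -/
structure Sys where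
  c : ℕ → ℝ
  r : ℕ → ℝ
  pos : ∀ i, 0 < r i
  disj : ∀ i j, i ≠ j → r i + r j < |c i - c j|
  small : Tendsto r atTop (𝓝 0)

namespace Sys

variable (S : Sys)

noncomputable def g (i : ℕ) : SL(2, ℝ) := inv (S.c i) (S.r i) (S.pos i)

def In (i : ℕ) (z : ℍ) : Prop := N (S.c i) z < S.r i ^ 2

def Cl (i : ℕ) (z : ℍ) : Prop := N (S.c i) z ≤ S.r i ^ 2

def F (z : ℍ) : Prop := ∀ i, ¬ S.In i z

variable {S}

theorem In.cl {i : ℕ} {z : ℍ} (h : S.In i z) : S.Cl i z := le_of_lt h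

theorem Cl.re {i : ℕ} {z : ℍ} (h : S.Cl i z) : |z.re - S.c i| ≤ S.r i := by
  apply abs_le_of_sq_le_sq _ (S.pos i).le
  have := sq_nonneg z.im
  unfold Cl N at h
  linarith

theorem Cl.im {i : ℕ} {z : ℍ} (h : S.Cl i z) : z.im ≤ S.r i := by
  apply le_of_sq_le_sq _ (S.pos i).le
  have := sq_nonneg (z.re - S.c i)
  unfold Cl N at h
  linarith

theorem Cl.eq {i j : ℕ} {z : ℍ} (hi : S.Cl i z) (hj : S.Cl j z) : i = j := by
  by_contra hne
  have h1 := S.disj i j hne
  have h2 := hi.re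
  have h3 := hj.re
  have h4 : |S.c i - S.c j| ≤ |z.re - S.c j| + |z.re - S.c i| := by
    have := abs_sub (z.re - S.c j) (z.re - S.c i)
    rwa [show z.re - S.c j - (z.re - S.c i) = S.c i - S.c j by ring] at this
  linarith

theorem g_g (i : ℕ) (z : ℍ) : S.g i • S.g i • z = z := inv_inv' _ _ _ _

theorem in_g {i : ℕ} {z : ℍ} : S.In i (S.g i • z) ↔ ¬ S.Cl i z := by
  have h := N_pos (S.c i) z
  have h2 := S.pos i
  unfold In Cl g
  rw [N_inv, div_lt_iff₀ h, not_le]
  constructor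
  · intro h3
    by_contra h4
    nlinarith [pow_pos h2 2]
  · intro h3
    nlinarith [pow_pos h2 2]

theorem cl_g {i : ℕ} {z : ℍ} : S.Cl i (S.g i • z) ↔ ¬ S.In i z := by
  have := (in_g (S := S) (i := i) (z := S.g i • z))
  rw [g_g] at this
  tauto

theorem finite_big (S : Sys) {η : ℝ} (hη : 0 < η) : {i | η ≤ S.r i}.Finite := by
  obtain ⟨n, hn⟩ := eventually_atTop.1 (S.small.eventually (gt_mem_nhds hη))
  refine (Set.finite_lt_nat n).subset fun i hi => ?_
  by_contra h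
  exact absurd (hn i (not_lt.1 h)) (not_lt.2 hi)

theorem exists_bound (S : Sys) : ∃ R, ∀ i, S.r i ≤ R := by
  obtain ⟨R, hR⟩ := S.small.bddAbove_range
  exact ⟨R, fun i => hR ⟨i, rfl⟩⟩

theorem exists_factor (S : Sys) {η : ℝ} (hη : 0 < η) : ∃ q : ℝ, 1 < q ∧ ∀ i j, i ≠ j →
    η ≤ S.r i → η ≤ S.r j → q * S.r i ≤ |S.c i - S.c j| - S.r j := by
  have hfin : {p : ℕ × ℕ | p.1 ≠ p.2 ∧ η ≤ S.r p.1 ∧ η ≤ S.r p.2}.Finite :=
    ((S.finite_big hη).prod (S.finite_big hη)).subset fun p hp => ⟨hp.2.1, hp.2.2⟩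
  have h1 : ∀ᶠ q in 𝓝[>] (1 : ℝ), ∀ p ∈ {p : ℕ × ℕ | p.1 ≠ p.2 ∧ η ≤ S.r p.1 ∧ η ≤ S.r p.2},
      q * S.r p.1 ≤ |S.c p.1 - S.c p.2| - S.r p.2 := by
    rw [hfin.eventually_all]
    intro p hp
    apply nhdsWithin_le_nhds
    have h2 : 1 * S.r p.1 < |S.c p.1 - S.c p.2| - S.r p.2 := by
      have := S.disj _ _ hp.1
      linarith
    have h3 : ContinuousAt (fun q : ℝ => q * S.r p.1) 1 := by fun_prop
    exact (h3.eventually (gt_mem_nhds h2)).mono fun q hq => hq.le
  obtain ⟨q, hq1, hq2⟩ := (h1.and self_mem_nhdsWithin).exists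
  exact ⟨q, hq2, fun i j h1 h2 h3 => hq1 (i, j) ⟨h1, h2, h3⟩⟩

theorem N_ge {i j : ℕ} {z : ℍ} (h : S.Cl j z) (hij : i ≠ j) :
    (|S.c i - S.c j| - S.r j) ^ 2 ≤ N (S.c i) z := by
  have h1 := h.re
  have h2 := S.disj i j hij
  have h3 := S.pos i
  have h4 : |S.c i - S.c j| ≤ |z.re - S.c j| + |z.re - S.c i| := by
    have := abs_sub (z.re - S.c j) (z.re - S.c i)
    rwa [show z.re - S.c j - (z.re - S.c i) = S.c i - S.c j by ring] at this
  have h5 : (|S.c i - S.c j| - S.r j) ^ 2 ≤ |z.re - S.c i| ^ 2 :=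
    pow_le_pow_left₀ (by linarith) (by linarith) 2
  rw [sq_abs] at h5
  unfold N
  nlinarith [sq_nonneg z.im]

theorem wf (S : Sys) : WellFounded fun a z : ℍ => ∃ i, S.In i z ∧ a = S.g i • z := by
  refine ⟨fun z0 => ?_⟩
  obtain ⟨R, hR⟩ := S.exists_bound
  obtain ⟨q, hq, hq'⟩ := S.exists_factor z0.im_pos
  have key : ∀ k : ℕ, ∀ z : ℍ, z0.im ≤ z.im → R < z.im * q ^ k →
      Acc (fun a z : ℍ => ∃ i, S.In i z ∧ a = S.g i • z) z := by
    intro k
    induction k with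
    | zero =>
      intro z _ h
      refine ⟨_, fun a ⟨i, hi, _⟩ => ?_⟩
      have := hi.cl.im
      have := hR i
      simp at h
      linarith
    | succ k ih =>
      intro z h0 h
      refine ⟨_, ?_⟩
      rintro _ ⟨i, hi, rfl⟩
      by_cases hF : ∃ j, S.In j (S.g i • z)
      · obtain ⟨j, hj⟩ := hF
        have hij : i ≠ j := by
          rintro rfl
          exact in_g.1 hj hi.cl
        have hpos := S.pos i
        have hN := N_pos (S.c i) (S.g i • z)
        have h1 : z.im = S.r i ^ 2 * (S.g i • z).im / N (S.c i) (S.g i • z) := by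
          rw [← inv_im _ _ (S.pos i)]
          exact congrArg im (g_g i z).symm
        have h2 : S.r i ^ 2 ≤ N (S.c i) (S.g i • z) := by
          have : ¬ S.In i (S.g i • z) := fun h => in_g.1 h hi.cl
          exact not_lt.1 this
        have him := (S.g i • z).im_pos
        have h3 : z.im ≤ (S.g i • z).im := by
          rw [h1, div_le_iff₀ hN]
          nlinarith
        have h4 := hq' i j hij (h0.trans hi.cl.im) (h0.trans (h3.trans hj.cl.im))
        have h5 : (q * S.r i) ^ 2 ≤ N (S.c i) (S.g i • z) :=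
          (pow_le_pow_left₀ (by positivity) h4 2).trans (N_ge hj.cl hij)
        have h6 : z.im * q ≤ (S.g i • z).im := by
          rw [h1, div_mul_eq_mul_div, div_le_iff₀ hN]
          have h7 : S.r i ^ 2 * q ≤ (q * S.r i) ^ 2 := by nlinarith [pow_pos hpos 2]
          nlinarith
        refine ih _ (h0.trans h3) (h.trans_le ?_)
        rw [pow_succ', ← mul_assoc]
        exact mul_le_mul_of_nonneg_right h6 (by positivity)
      · exact ⟨_, fun a ⟨j, hj, _⟩ => absurd ⟨j, hj⟩ hF⟩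
  obtain ⟨k, hk⟩ := pow_unbounded_of_one_lt (R / z0.im) hq
  exact key k z0 le_rfl (by rwa [div_lt_iff₀' z0.im_pos] at hk)

theorem induct (S : Sys) {P : ℍ → Prop} (h1 : ∀ z, S.F z → P z)
    (h2 : ∀ z i, S.In i z → P (S.g i • z) → P z) (z : ℍ) : P z := by
  induction z using S.wf.induction with
  | _ z ih =>
    by_cases h : ∃ i, S.In i z
    · obtain ⟨i, hi⟩ := h
      exact h2 z i hi (ih _ ⟨i, hi, rfl⟩)
    · exact h1 z fun i hi => h ⟨i, hi⟩

theorem loc_fin (S : Sys) (z : ℍ) : ∀ᶠ a in 𝓝 z, ∀ j, ¬ S.Cl j z → ¬ S.Cl j a := by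
  have h1 : ∀ᶠ a in 𝓝 z, z.im / 2 < a.im :=
    continuous_im.continuousAt.eventually (lt_mem_nhds (half_lt_self z.im_pos))
  have h2 : ∀ᶠ a in 𝓝 z, ∀ j ∈ {i | z.im / 2 ≤ S.r i}, ¬ S.Cl j z → ¬ S.Cl j a := by
    rw [(S.finite_big (half_pos z.im_pos)).eventually_all]
    intro j _
    by_cases h : S.Cl j z
    · exact Eventually.of_forall fun a h' => absurd h h'
    · exact ((continuous_N (S.c j)).continuousAt.eventually (lt_mem_nhds (not_le.1 h))).mono
        fun a ha _ => not_le.2 ha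
  filter_upwards [h1, h2] with a h3 h4 j hj hc
  exact h4 j (h3.le.trans hc.im) hj hc

open Classical in
/-- The equivariant extension of `f`. -/
noncomputable def ext (S T : Sys) (f : ℍ → ℍ) : ℍ → ℍ :=
  S.wf.fix fun z ih => if h : ∃ i, S.In i z then
    T.g (Classical.choose h) • ih (S.g (Classical.choose h) • z) ⟨_, Classical.choose_spec h, rfl⟩
  else f z

theorem ext_F {T : Sys} {f : ℍ → ℍ} {z : ℍ} (h : S.F z) : ext S T f z = f z := by
  unfold ext
  rw [WellFounded.fix_eq, dif_neg fun ⟨i, hi⟩ => h i hi]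

theorem ext_in {T : Sys} {f : ℍ → ℍ} {z : ℍ} {i : ℕ} (h : S.In i z) :
    ext S T f z = T.g i • ext S T f (S.g i • z) := by
  have h' : ∃ i, S.In i z := ⟨i, h⟩
  have h2 : Classical.choose h' = i := (Classical.choose_spec h').cl.eq h.cl
  conv_lhs => unfold ext
  rw [WellFounded.fix_eq, dif_pos h']
  subst h2
  rfl

/-- Near each closed disc `f` is a scaling that carries the disc to the corresponding disc. -/
def Compat (S T : Sys) (f : ℍ → ℍ) : Prop :=
  ∀ i, ∃ (μ : ℝ) (hμ : 0 < μ), T.c i = μ * S.c i ∧ T.r i = μ * S.r i ∧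
    ∀ z, S.Cl i z → ∀ᶠ a in 𝓝 z, f a = sc μ hμ a

theorem g_sc {T : Sys} {i : ℕ} {μ : ℝ} (hμ : 0 < μ) (h1 : T.c i = μ * S.c i)
    (h2 : T.r i = μ * S.r i) (z : ℍ) : T.g i • sc μ hμ z = sc μ hμ (S.g i • z) := by
  rw [g, g, ← inv_sc μ hμ _ _ (S.pos i) (mul_pos hμ (S.pos i))]
  congr 2

theorem F_of_bd {i : ℕ} {z : ℍ} (h1 : S.Cl i z) (h2 : ¬ S.In i z) : S.F z := fun j hj => by
  obtain rfl := hj.cl.eq h1
  exact h2 hj

theorem ext_g {T : Sys} {f : ℍ → ℍ} (hc : Compat S T f) (i : ℕ) (z : ℍ) :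
    ext S T f (S.g i • z) = T.g i • ext S T f z := by
  by_cases h1 : S.In i z
  · rw [ext_in h1, g_g]
  · by_cases h2 : S.Cl i z
    · obtain ⟨μ, hμ, h3, h4, h5⟩ := hc i
      have h6 : S.Cl i (S.g i • z) := cl_g.2 h1
      rw [ext_F (F_of_bd h2 h1), ext_F (F_of_bd h6 fun h => in_g.1 h h2),
        (h5 _ h2).self_of_nhds, (h5 _ h6).self_of_nhds, g_sc hμ h3 h4]
    · rw [ext_in (in_g.2 h2), g_g]

theorem ext_loc {T : Sys} {f : ℍ → ℍ} (hc : Compat S T f) {z : ℍ} (hz : S.F z) :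
    ∀ᶠ a in 𝓝 z, ext S T f a = f a := by
  by_cases h : ∃ i, S.Cl i z
  · obtain ⟨i, hi⟩ := h
    obtain ⟨μ, hμ, h3, h4, h5⟩ := hc i
    have h6 : S.Cl i (S.g i • z) := cl_g.2 (hz i)
    have hcont : ContinuousAt (fun a : ℍ => S.g i • a) z := (continuous_const_smul _).continuousAt
    filter_upwards [S.loc_fin z, h5 z hi, hcont.eventually (S.loc_fin (S.g i • z)),
      hcont.eventually (h5 _ h6)] with a h7 h8 h9 h10
    by_cases ha : S.In i a
    · have h11 : S.F (S.g i • a) := fun j hj => by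
        by_cases hij : j = i
        · subst hij
          exact in_g.1 hj ha.cl
        · exact h9 j (fun h => hij (h.eq h6)) hj.cl
      rw [ext_in ha, ext_F h11, h10, g_sc hμ h3 h4, g_g, h8]
    · refine ext_F fun j hj => ?_
      by_cases hij : j = i
      · subst hij
        exact ha hj
      · exact h7 j (fun h => hij (h.eq hi)) hj.cl
  · filter_upwards [S.loc_fin z] with a ha
    exact ext_F fun j hj => ha j (fun h' => h ⟨j, h'⟩) hj.cl

theorem ext_ext {T : Sys} {f f' : ℍ → ℍ} (hc' : Compat T S f')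
    (hF : ∀ z, S.F z → T.F (f z)) (hf : ∀ z, f' (f z) = z) (z : ℍ) :
    ext T S f' (ext S T f z) = z := by
  induction z using S.induct with
  | h1 z hz => rw [ext_F hz, ext_F (hF z hz), hf]
  | h2 z i hi ih => rw [ext_in hi, ext_g hc', ih, g_g]

end Sys

/-- A Moebius invariant of a pair of points. -/
noncomputable def ch (a b : ℍ) : ℝ := Real.cosh (dist a b) - 1

theorem ch_smul (A : SL(2, ℝ)) (a b : ℍ) : ch (A • a) (A • b) = ch a b := by
  unfold ch
  rw [dist_smul]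

/-- The pointwise Lipschitz property. -/
def Lip (K : ℝ) (w : ℍ → ℍ) (z : ℍ) : Prop := ∀ᶠ a in 𝓝 z, ch (w a) (w z) ≤ K * ch a z

theorem Sys.ext_lip {S T : Sys} {f : ℍ → ℍ} (hc : Sys.Compat S T f) {K : ℝ}
    (hf : ∀ z, Lip K f z) (z : ℍ) : Lip K (Sys.ext S T f) z := by
  induction z using S.induct with
  | h1 z hz =>
    filter_upwards [Sys.ext_loc hc hz, hf z] with a h1 h2
    rwa [h1, Sys.ext_F hz]
  | h2 z i _ ih =>
    have hcont : ContinuousAt (fun a : ℍ => S.g i • a) z := (continuous_const_smul _).continuousAt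
    filter_upwards [hcont.eventually ih] with a ha
    rwa [Sys.ext_g hc, Sys.ext_g hc, ch_smul, ch_smul] at ha

end Pool.Agent.H240Z.Qc
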