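import Pool.Agent.H240Z.QcDisc

/-!
The group generated by the involutions of a system of discs.
-/

namespace Pool.Agent.H240Z.Qc

open UpperHalfPlane Filter Topology
open scoped MatrixGroups

namespace Sys

variable {S : Sys}

noncomputable def act (S : Sys) (L : List ℕ) : SL(2, ℝ) := (L.map S.g).prod

theorem act_nil : S.act [] = 1 := rfl

theorem act_cons (i : ℕ) (L : List ℕ) : S.act (i :: L) = S.g i * S.act L := rfl

theorem act_append (L L' : List ℕ) : S.act (L ++ L') = S.act L * S.act L' := by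
  simp [act]

def Red (L : List ℕ) : Prop := L.IsChain (· ≠ ·)

def grpOn (S : Sys) (A : Set ℕ) : Subgroup (Equiv.Perm ℍ) :=
  Subgroup.closure ((fun i => mob (S.g i)) '' A)

def grp (S : Sys) : Subgroup (Equiv.Perm ℍ) := S.grpOn Set.univ

theorem mob_apply (A : SL(2, ℝ)) (z : ℍ) : mob A z = A • z := rfl

theorem mob_g_g (i : ℕ) : mob (S.g i) * mob (S.g i) = 1 := Equiv.ext fun z => g_g i z

theorem mob_g_inv (i : ℕ) : (mob (S.g i))⁻¹ = mob (S.g i) :=
  inv_eq_of_mul_eq_one_right (mob_g_g i)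

theorem mem_grpOn {A : Set ℕ} {γ : Equiv.Perm ℍ} (h : γ ∈ S.grpOn A) :
    ∃ L, Red L ∧ (∀ i ∈ L, i ∈ A) ∧ γ = mob (S.act L) := by
  have key : ∀ i ∈ A, ∀ γ : Equiv.Perm ℍ, (∃ L, Red L ∧ (∀ i ∈ L, i ∈ A) ∧ γ = mob (S.act L)) →
      ∃ L, Red L ∧ (∀ i ∈ L, i ∈ A) ∧ mob (S.g i) * γ = mob (S.act L) := by
    rintro i hi _ ⟨L, h1, h2, rfl⟩
    match L, h1, h2 with
    | [], _, _ => exact ⟨[i], List.isChain_singleton _, by simpa using hi, by simp [act]⟩
    | j :: L, h1, h2 =>
      by_cases hij : i = j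
      · subst hij
        refine ⟨L, h1.tail, fun k hk => h2 k (List.mem_cons_of_mem _ hk), ?_⟩
        rw [act_cons, map_mul, ← mul_assoc, mob_g_g, one_mul]
      · refine ⟨i :: j :: L, List.IsChain.cons_cons hij h1, ?_, by rw [act_cons i, map_mul]⟩
        intro k hk
        rcases List.mem_cons.1 hk with rfl | hk
        · exact hi
        · exact h2 k hk
  induction h using Subgroup.closure_induction_left with
  | one => exact ⟨[], List.isChain_nil, by simp, by simp [act]⟩
  | mul_left x hx y _ ih =>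
    obtain ⟨i, hi, rfl⟩ := hx
    exact key i hi y ih
  | inv_mul_cancel x hx y _ ih =>
    obtain ⟨i, hi, rfl⟩ := hx
    simp only [mob_g_inv]
    exact key i hi y ih

theorem act_mem {A : Set ℕ} (L : List ℕ) (h : ∀ i ∈ L, i ∈ A) : mob (S.act L) ∈ S.grpOn A := by
  induction L with
  | nil => simp [act]
  | cons i L ih =>
    rw [act_cons, map_mul]
    exact mul_mem (Subgroup.subset_closure ⟨i, h i List.mem_cons_self, rfl⟩)
      (ih fun k hk => h k (List.mem_cons_of_mem _ hk))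

theorem act_mem_grp (L : List ℕ) : mob (S.act L) ∈ S.grp := act_mem L fun _ _ => trivial

theorem pp (hI : ∀ i, ¬ S.Cl i I) : ∀ (L : List ℕ) (i : ℕ), Red (i :: L) →
    S.In i (S.act (i :: L) • I)
  | [], i, _ => by
    rw [act_cons, act_nil, mul_one]
    exact in_g.2 (hI i)
  | j :: L, i, h => by
    rw [act_cons, mul_smul]
    exact in_g.2 fun h' => (List.isChain_cons_cons.1 h).1 (h'.eq (pp hI L j h.tail).cl)

theorem act_inj (hI : ∀ i, ¬ S.Cl i I) : ∀ L L' : List ℕ, Red L → Red L' →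
    S.act L • I = S.act L' • I → L = L'
  | [], [], _, _, _ => rfl
  | [], j :: L', _, h', e => by
    have := pp hI L' j h'
    rw [← e, act_nil, one_smul] at this
    exact absurd this.cl (hI j)
  | i :: L, [], h, _, e => by
    have := pp hI L i h
    rw [e, act_nil, one_smul] at this
    exact absurd this.cl (hI i)
  | i :: L, j :: L', h, h', e => by
    have h1 := pp hI L i h
    have h2 := pp hI L' j h'
    rw [e] at h1
    obtain rfl := h1.cl.eq h2.cl
    rw [act_cons, act_cons, mul_smul, mul_smul] at e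
    rw [act_inj hI L L' h.tail h'.tail (smul_left_cancel _ e)]

theorem grp_le : S.grp ≤ mob.range := fun _ h => by
  obtain ⟨L, -, -, rfl⟩ := mem_grpOn h
  exact ⟨_, rfl⟩

theorem isFuchsian (hI : ∀ i, ¬ S.Cl i I) : IsFuchsian S.grp := by
  refine ⟨grp_le, ?_⟩
  have hc : ContinuousAt (fun A : SL(2, ℝ) => A • I) 1 :=
    (continuous_id.smul continuous_const).continuousAt
  have h1 := S.loc_fin I
  rw [← one_smul SL(2, ℝ) I] at h1
  filter_upwards [hc.eventually h1] with A hA hm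
  obtain ⟨L, h2, -, h3⟩ := mem_grpOn hm
  match L, h2, h3 with
  | [], _, h3 => simpa [act] using h3
  | i :: L, h2, h3 =>
    have h4 := pp hI L i h2
    rw [← mob_apply, ← h3] at h4
    exact absurd h4.cl (hA i (by simpa using hI i))

theorem not_fg (hI : ∀ i, ¬ S.Cl i I) : ¬ S.grp.FG := by
  rw [Subgroup.fg_iff]
  rintro ⟨G, hG, hfin⟩
  have h1 : ∀ γ ∈ G, ∃ n, γ ∈ S.grpOn (Set.Iio n) := by
    intro γ hγ
    obtain ⟨L, -, -, rfl⟩ := mem_grpOn (A := Set.univ) (S := S)
      (show γ ∈ S.grp from hG ▸ Subgroup.subset_closure hγ)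
    exact ⟨L.sum + 1, act_mem L fun i hi => Nat.lt_succ_of_le (List.le_sum_of_mem hi)⟩
  choose! n hn using h1
  obtain ⟨m, hm⟩ := (hfin.image n).bddAbove
  have h2 : S.grp ≤ S.grpOn (Set.Iio m) := by
    rw [← hG, Subgroup.closure_le]
    intro γ hγ
    exact Subgroup.closure_mono (Set.image_mono (Set.Iio_subset_Iio (hm ⟨γ, hγ, rfl⟩))) (hn γ hγ)
  obtain ⟨L, h3, h4, h5⟩ := mem_grpOn (h2 (act_mem_grp [m]))
  have h6 : [m] = L := act_inj hI _ _ (List.isChain_singleton _) h3 (by
    rw [← mob_apply, h5, mob_apply])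
  exact lt_irrefl m (h4 m (h6 ▸ List.mem_singleton_self m))

theorem conj_grp {T : Sys} (w : Equiv.Perm ℍ) (h : ∀ i z, w (S.g i • z) = T.g i • w z) :
    conjBy w S.grp = T.grp := by
  unfold conjBy grp grpOn
  rw [MonoidHom.map_closure, Set.image_image]
  congr 2
  funext i
  ext z
  simp [mob_apply, h]

/-- A quadratic function whose negative part is a half-plane. -/
def Q (α β γ : ℝ) (z : ℍ) : ℝ := α * (z.re ^ 2 + z.im ^ 2) + β * z.re + γ

theorem Q_inv (α β γ c r : ℝ) (hr : 0 < r) (z : ℍ) :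
    Q α β γ (inv c r hr • z) * N c z =
      Q (α * c ^ 2 + β * c + γ) (-2 * c * (α * c ^ 2 + β * c + γ) - (2 * α * c + β) * r ^ 2)
        ((α * c ^ 2 + β * c + γ) * c ^ 2 + (2 * α * c + β) * r ^ 2 * c + α * r ^ 4) z := by
  have h := (N_pos c z).ne'
  unfold Q
  rw [inv_re, inv_im]
  field_simp
  unfold N
  ring

theorem Q_neg {α β γ : ℝ} {i : ℕ} {z : ℍ} (hz : S.Cl i z)
    (h : ∀ t, S.c i - S.r i ≤ t → t ≤ S.c i + S.r i → α * t ^ 2 + β * t + γ < 0) :
    Q α β γ z < 0 := by
  have h1 := abs_le.1 hz.re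
  have hr := S.pos i
  unfold Cl N at hz
  unfold Q
  rcases le_or_gt 0 α with hα | hα
  · have h2 := h _ le_rfl (by linarith)
    have h3 := h _ (by linarith) le_rfl
    have h4 : α * (z.re ^ 2 + z.im ^ 2) ≤ α * (S.r i ^ 2 - S.c i ^ 2 + 2 * S.c i * z.re) :=
      mul_le_mul_of_nonneg_left (by linarith) hα
    rcases le_total 0 (2 * α * S.c i + β) with h5 | h5
    · nlinarith [mul_le_mul_of_nonneg_left (show z.re ≤ S.c i + S.r i by linarith) h5]
    · nlinarith [mul_le_mul_of_nonpos_left (show S.c i - S.r i ≤ z.re by linarith) h5]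
  · have h2 := h z.re (by linarith) (by linarith)
    nlinarith [sq_nonneg z.im]

theorem exists_long {α β γ : ℝ} (hα : α ≤ 0) (hd : 0 < β ^ 2 - 4 * α * γ) (l : ℝ) :
    ∃ a, ∀ t, a ≤ t → t ≤ a + l → α * t ^ 2 + β * t + γ < 0 := by
  rcases le_or_gt β 0 with hβ | hβ
  · have h1 : α + β < 0 := by
      by_contra h
      have h2 : α = 0 := by linarith
      have h3 : β = 0 := by linarith
      simp [h2, h3] at hd
    refine ⟨max 1 ((|γ| + 1) / (-(α + β))), fun t h2 _ => ?_⟩
    have h3 : 1 ≤ t := (le_max_left _ _).trans h2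
    have h4 := (le_max_right _ _).trans h2
    rw [div_le_iff₀ (by linarith)] at h4
    have h5 : α * t ^ 2 ≤ α * t := mul_le_mul_of_nonpos_left (by nlinarith) hα
    have := le_abs_self γ
    nlinarith
  · refine ⟨-((|γ| + 1) / β) - l, fun t _ h2 => ?_⟩
    have h3 : t ≤ -(|γ| + 1) / β := by
      rw [neg_div]
      linarith
    rw [le_div_iff₀ hβ] at h3
    have := le_abs_self γ
    nlinarith [sq_nonneg t]

theorem half_plane (hI : ∀ i, ¬ S.Cl i I)
    (hd : ∀ a b : ℚ, a < b → (∃ i, a < S.c i - S.r i ∧ S.c i + S.r i < b) ∨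
      ∃ i, S.c i - S.r i ≤ a ∧ b ≤ S.c i + S.r i) (z : ℍ) :
    ∀ α β γ : ℝ, 0 < β ^ 2 - 4 * α * γ → Q α β γ z < 0 → ∃ L, Q α β γ (S.act L • I) < 0 := by
  induction z using S.induct with
  | h1 z hz =>
    intro α β γ h1 h2
    suffices h : ∃ i, ∀ t, S.c i - S.r i ≤ t → t ≤ S.c i + S.r i → α * t ^ 2 + β * t + γ < 0 by
      obtain ⟨i, hi⟩ := h
      exact ⟨[i], Q_neg (pp hI [] i (List.isChain_singleton _)).cl hi⟩
    rcases le_or_gt α 0 with hα | hα
    · obtain ⟨R, hR⟩ := S.exists_bound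
      have hR0 : 0 < R := (S.pos 0).trans_le (hR 0)
      obtain ⟨a, ha⟩ := exists_long hα h1 (2 * R + 2)
      obtain ⟨a', h3, h4⟩ := exists_rat_btwn (show a < a + 1 by linarith)
      obtain ⟨b', h5, h6⟩ := exists_rat_btwn (show a + 2 * R + 1 < a + 2 * R + 2 by linarith)
      rcases hd a' b' (by exact_mod_cast (show (a' : ℝ) < b' by linarith)) with
        ⟨i, h7, h8⟩ | ⟨i, h7, h8⟩
      · exact ⟨i, fun t h9 h10 => ha t (by linarith) (by linarith)⟩
      · have := hR i
        linarith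
    · obtain ⟨m, hm⟩ : ∃ m, β = -2 * α * m := ⟨-β / (2 * α), by field_simp⟩
      obtain ⟨ρ2, hρ⟩ : ∃ ρ2, γ = α * (m ^ 2 - ρ2) := ⟨m ^ 2 - γ / α, by field_simp; ring⟩
      have h3 : N m z < ρ2 := by
        have : Q α β γ z = α * (N m z - ρ2) := by
          rw [hm, hρ]
          unfold Q N
          ring
        rw [this] at h2
        have := neg_of_mul_neg_right h2 hα.le
        linarith
      have h4 := N_pos m z
      have h5 : √(N m z) < √ρ2 := Real.sqrt_lt_sqrt h4.le h3
      have h6 := Real.sqrt_nonneg (N m z)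
      obtain ⟨a', h7, h8⟩ := exists_rat_btwn (show m - √ρ2 < m - √(N m z) by linarith)
      obtain ⟨b', h9, h10⟩ := exists_rat_btwn (show m + √(N m z) < m + √ρ2 by linarith)
      rcases hd a' b' (by exact_mod_cast (show (a' : ℝ) < b' by linarith)) with
        ⟨i, h11, h12⟩ | ⟨i, h11, h12⟩
      · refine ⟨i, fun t h13 h14 => ?_⟩
        have h15 : (t - m) ^ 2 < √ρ2 ^ 2 := sq_lt_sq' (by linarith) (by linarith)
        rw [Real.sq_sqrt (by linarith)] at h15
        have : α * t ^ 2 + β * t + γ = α * ((t - m) ^ 2 - ρ2) := by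
          rw [hm, hρ]
          ring
        rw [this]
        exact mul_neg_of_pos_of_neg hα (by linarith)
      · exfalso
        apply hz i
        have h13 : |m - S.c i| < S.r i - √(N m z) := abs_lt.2 ⟨by linarith, by linarith⟩
        have h14 : √(N m z) ^ 2 = N m z := Real.sq_sqrt h4.le
        have h15 : |z.re - m| ≤ √(N m z) := by
          apply Real.abs_le_sqrt
          unfold N
          nlinarith [sq_nonneg z.im]
        have h16 : N (S.c i) z = N m z + 2 * ((z.re - m) * (m - S.c i)) + (m - S.c i) ^ 2 := by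
          unfold N
          ring
        have h17 : (z.re - m) * (m - S.c i) ≤ √(N m z) * |m - S.c i| := by
          refine (le_abs_self _).trans ?_
          rw [abs_mul]
          exact mul_le_mul_of_nonneg_right h15 (abs_nonneg _)
        have h18 : (√(N m z) + |m - S.c i|) ^ 2 < S.r i ^ 2 :=
          pow_lt_pow_left₀ (by linarith) (by positivity) two_ne_zero
        have h19 := sq_abs (m - S.c i)
        unfold In
        nlinarith
  | h2 z i _ ih =>
    intro α β γ h1 h2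
    have hr := S.pos i
    have h3 := Q_inv α β γ (S.c i) (S.r i) hr (S.g i • z)
    rw [show inv (S.c i) (S.r i) hr • S.g i • z = z from g_g i z] at h3
    obtain ⟨L, hL⟩ := ih _ _ _ (by
      have : 0 < S.r i ^ 4 * (β ^ 2 - 4 * α * γ) := by positivity
      convert this using 1
      ring) (h3 ▸ mul_neg_of_neg_of_pos h2 (N_pos _ _))
    refine ⟨i :: L, ?_⟩
    rw [← Q_inv α β γ (S.c i) (S.r i) hr] at hL
    rw [act_cons, mul_smul]
    exact neg_of_mul_neg_left hL (N_pos _ _).le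

theorem firstKind (hI : ∀ i, ¬ S.Cl i I)
    (hd : ∀ a b : ℚ, a < b → (∃ i, a < S.c i - S.r i ∧ S.c i + S.r i < b) ∨
      ∃ i, S.c i - S.r i ≤ a ∧ b ≤ S.c i + S.r i) : FirstKind S.grp := by
  refine ⟨fun x => ?_, fun h => ?_⟩
  · rw [Metric.mem_closure_iff]
    intro ε hε
    obtain ⟨L, hL⟩ := half_plane hI hd ⟨⟨x, ε / 2⟩, half_pos hε⟩ 1 (-2 * x) (x ^ 2 - ε ^ 2)
      (by nlinarith [pow_pos hε 2]) (by
        unfold Q
        simp only [mk_re, mk_im]
        nlinarith [pow_pos hε 2])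
    refine ⟨_, ⟨_, act_mem_grp L, rfl⟩, ?_⟩
    rw [dist_comm, dist_eq_norm, mob_apply]
    apply lt_of_pow_lt_pow_left₀ 2 hε.le
    rw [← Complex.normSq_eq_norm_sq, normSq_sub]
    unfold Q at hL
    unfold N
    linarith
  · obtain ⟨R, hR0, hR⟩ := h.exists_pos_norm_le
    obtain ⟨L, hL⟩ := half_plane hI hd ⟨⟨0, R + 1⟩, by positivity⟩ (-1) 0 (R ^ 2)
      (by nlinarith [pow_pos hR0 2]) (by
        unfold Q
        simp only [mk_re, mk_im]
        nlinarith)
    have h1 := pow_le_pow_left₀ (norm_nonneg _) (hR _ ⟨_, act_mem_grp L, rfl⟩) 2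
    rw [← Complex.normSq_eq_norm_sq, mob_apply, Complex.normSq_apply] at h1
    unfold Q at hL
    simp only [coe_re, coe_im] at h1
    nlinarith

end Sys

end Pool.Agent.H240Z.Qc
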