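import Pool.Agent.H240Z.QcCons

/-!
The critical exponent is not constant on the quasiconformal deformation space.
-/

namespace Pool.Agent.H240Z.Qc

open UpperHalfPlane Filter Topology Set
open scoped MatrixGroups

theorem inv_congr {c c' r r' : ℝ} (h : 0 < r) (h' : 0 < r') (h1 : c = c') (h2 : r = r') :
    inv c r h = inv c' r' h' := by
  subst h1 h2
  rfl

theorem dist_small (l : ℝ) (hl : 0 < l) (hl' : l ≤ 1 / 4) :
    dist I (inv (-10) l hl • I) ≤ 12423 - Real.log (l ^ 2) := by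
  have hN : N (-10) I = 101 := by norm_num [N]
  have h1 : (inv (-10) l hl • I).re = -10 - l ^ 2 * 10 / 101 := by
    rw [inv_re, hN]
    simp
  have h2 : (inv (-10) l hl • I).im = l ^ 2 / 101 := by
    rw [inv_im, hN]
    simp
  have h3 : l ^ 2 ≤ 1 := by nlinarith
  have h4 : 0 < l ^ 2 := by positivity
  have h5 : Real.exp (dist I (inv (-10) l hl • I)) ≤ 12423 / l ^ 2 := by
    have h6 : Real.exp (dist I (inv (-10) l hl • I)) ≤
        2 * Real.cosh (dist I (inv (-10) l hl • I)) := by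
      rw [Real.cosh_eq]
      linarith [Real.exp_pos (-dist I (inv (-10) l hl • I))]
    refine h6.trans ?_
    rw [cosh_dist', h1, h2, I_re, I_im]
    obtain ⟨x, hx⟩ : ∃ x, x = l ^ 2 := ⟨_, rfl⟩
    rw [← hx] at h3 h4 ⊢
    rw [← mul_div_assoc, div_le_div_iff₀ (by positivity) h4]
    have h7 : (0 - (-10 - x * 10 / 101)) ^ 2 + 1 ^ 2 + (x / 101) ^ 2 ≤ 123 := by nlinarith
    nlinarith
  rw [← Real.le_log_iff_exp_le (by positivity), Real.log_div (by norm_num) h4.ne'] at h5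
  linarith [Real.log_le_self (show (0 : ℝ) ≤ 12423 by norm_num)]

noncomputable def ramp (M u : ℝ) : ℝ := 1 + (M - 1) * max 0 (min 1 ((u + 1) / 2))

theorem one_le_ramp {M : ℝ} (hM : 1 ≤ M) (u : ℝ) : 1 ≤ ramp M u :=
  le_add_of_nonneg_right (mul_nonneg (sub_nonneg.2 hM) (le_max_left _ _))

theorem ramp_le {M : ℝ} (hM : 1 ≤ M) (u : ℝ) : ramp M u ≤ M := by
  have h : max 0 (min 1 ((u + 1) / 2)) ≤ 1 := max_le zero_le_one (min_le_left _ _)
  have := mul_le_mul_of_nonneg_left h (sub_nonneg.2 hM)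
  unfold ramp
  linarith

theorem ramp_lip {M : ℝ} (hM : 1 ≤ M) (u v : ℝ) : |ramp M u - ramp M v| ≤ (M - 1) * |u - v| := by
  unfold ramp
  rw [add_sub_add_left_eq_sub, ← mul_sub, abs_mul, abs_of_nonneg (sub_nonneg.2 hM)]
  refine mul_le_mul_of_nonneg_left ?_ (sub_nonneg.2 hM)
  rw [max_comm 0, max_comm 0]
  refine (abs_max_sub_max_le_abs _ _ _).trans ?_
  refine (abs_min_sub_min_le_max _ _ _ _).trans (max_le (by simp) ?_)
  rw [show (u + 1) / 2 - (v + 1) / 2 = (u - v) / 2 by ring, abs_div, abs_two]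
  linarith [abs_nonneg (u - v)]

theorem ramp_neg (M u : ℝ) (h : u ≤ -1) : ramp M u = 1 := by
  unfold ramp
  rw [max_eq_left ((min_le_right _ _).trans (by linarith))]
  ring

theorem ramp_pos (M u : ℝ) (h : 1 ≤ u) : ramp M u = M := by
  unfold ramp
  rw [min_eq_left (by linarith), max_eq_right zero_le_one]
  ring

theorem exists_conj (S : Sys) (h : ∀ i, 3 * S.r i ≤ |S.c i|) (h1 : ∀ i, S.r i ≤ 1) (M : ℝ)
    (hM : 1 ≤ M) : ∃ w : Equiv.Perm ℍ, IsQC w ∧ conjBy w S.grp = (S.scale h M hM).grp := by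
  set T := S.scale h M hM with hT
  have hφ : ∀ u, 0 < ramp M u := fun u => one_pos.trans_le (one_le_ramp hM u)
  have hψ : ∀ u, 0 < (ramp M u)⁻¹ := fun u => inv_pos.2 (hφ u)
  have hM0 : 0 < M := by linarith
  have e1 : ∀ i, ramp M (if 0 < S.c i then 1 else -1) = if 0 < S.c i then M else 1 := fun i => by
    split_ifs
    · exact ramp_pos _ _ le_rfl
    · exact ramp_neg _ _ le_rfl
  have hTc : ∀ i, T.c i = (if 0 < S.c i then M else 1) * S.c i := fun _ => rfl
  have hTr : ∀ i, T.r i = (if 0 < S.c i then M else 1) * S.r i := fun _ => rfl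
  have hμ : ∀ i, 0 < (if 0 < S.c i then M else 1) := fun i => by split_ifs <;> positivity
  have hs : ∀ i, 0 < T.c i ↔ 0 < S.c i := fun i => by
    rw [hTc]
    exact mul_pos_iff_of_pos_left (hμ i)
  have hT3 : ∀ i, 3 * T.r i ≤ |T.c i| := by
    intro i
    rw [hTc, hTr, abs_mul, abs_of_pos (hμ _), mul_left_comm]
    exact mul_le_mul_of_nonneg_left (h i) (hμ _).le
  obtain ⟨c1, f1⟩ := Sys.compat_rad (S := S) (T := T) hφ
    (fun u hu => by rw [ramp_neg _ _ hu, ramp_neg _ _ le_rfl])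
    (fun u hu => by rw [ramp_pos _ _ hu, ramp_pos _ _ le_rfl]) h
    (fun i => by rw [e1, hTc]) (fun i => by rw [e1, hTr])
  obtain ⟨c2, f2⟩ := Sys.compat_rad (S := T) (T := S) (φ := fun u => (ramp M u)⁻¹) hψ
    (fun u hu => by simp only [ramp_neg _ _ hu, ramp_neg _ _ le_rfl])
    (fun u hu => by simp only [ramp_pos _ _ hu, ramp_pos _ _ le_rfl]) hT3
    (fun i => by simp only [hs, e1]; rw [hTc, inv_mul_cancel_left₀ (hμ i).ne'])
    (fun i => by simp only [hs, e1]; rw [hTr, inv_mul_cancel_left₀ (hμ i).ne'])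
  have i1 : ∀ z, rad _ hψ (rad _ hφ z) = z := fun z => by
    apply ext_re_im
    · rw [rad_re, Sys.slope_rad, rad_re, inv_mul_cancel_left₀ (hφ _).ne']
    · rw [rad_im, Sys.slope_rad, rad_im, inv_mul_cancel_left₀ (hφ _).ne']
  have i2 : ∀ z, rad _ hφ (rad _ hψ z) = z := fun z => by
    apply ext_re_im
    · rw [rad_re, Sys.slope_rad, rad_re, mul_inv_cancel_left₀ (hφ _).ne']
    · rw [rad_im, Sys.slope_rad, rad_im, mul_inv_cancel_left₀ (hφ _).ne']
  let w : Equiv.Perm ℍ := ⟨Sys.ext S T (rad _ hφ), Sys.ext T S (rad _ hψ),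
    Sys.ext_ext c2 f1 i1, Sys.ext_ext c1 f2 i2⟩
  obtain ⟨K, hK, hK1⟩ := rad_lip _ hφ one_pos (one_le_ramp hM) (ramp_le hM) (ramp_lip hM)
    (fun u hu => by rw [ramp_neg _ _ hu, ramp_neg _ _ le_rfl])
    (fun u hu => by rw [ramp_pos _ _ hu, ramp_pos _ _ le_rfl])
  obtain ⟨K', hK', hK1'⟩ := rad_lip (fun u => (ramp M u)⁻¹) hψ (M := 1) (L := M - 1)
    (inv_pos.2 hM0) (fun u => inv_anti₀ (hφ u) (ramp_le hM u))
    (fun u => inv_le_one_of_one_le₀ (one_le_ramp hM u))
    (fun u v => by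
      refine le_trans ?_ (ramp_lip hM u v)
      rw [inv_sub_inv (hφ u).ne' (hφ v).ne', abs_div, abs_sub_comm,
        abs_of_pos (mul_pos (hφ u) (hφ v))]
      exact div_le_self (abs_nonneg _) (one_le_mul_of_one_le_of_one_le (one_le_ramp hM u)
        (one_le_ramp hM v)))
    (fun u hu => by simp only [ramp_neg _ _ hu, ramp_neg _ _ le_rfl])
    (fun u hu => by simp only [ramp_pos _ _ hu, ramp_pos _ _ le_rfl])
  refine ⟨w, isQC_of w hK hK' (Sys.ext_lip c1 hK1) (Sys.ext_lip c2 hK1')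
    (z := ⟨⟨-4, 2⟩, two_pos⟩) ?_, Sys.conj_grp w (Sys.ext_g c1)⟩
  have hF : S.F ⟨⟨-4, 2⟩, two_pos⟩ := fun i hi => by
    have := hi.cl.im
    simp only [mk_im] at this
    linarith [h1 i]
  have hsl : (⟨⟨-4, 2⟩, two_pos⟩ : ℍ).re / (⟨⟨-4, 2⟩, two_pos⟩ : ℍ).im < -1 := by
    simp only [mk_re, mk_im]
    norm_num
  filter_upwards [Sys.ext_loc c1 hF,
    continuous_slope.continuousAt.eventually (gt_mem_nhds hsl)] with a h2 h3
  change Sys.ext S T (rad _ hφ) a = a
  rw [h2]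
  apply ext_re_im
  · rw [rad_re, ramp_neg _ _ h3.le, one_mul]
  · rw [rad_im, ramp_neg _ _ h3.le, one_mul]

theorem conjBy_one (Γ : Subgroup (Equiv.Perm ℍ)) : conjBy 1 Γ = Γ := by
  unfold conjBy
  rw [map_one]
  exact Subgroup.map_id Γ

theorem main : ∃ Γ : Subgroup (Equiv.Perm ℍ), IsFuchsian Γ ∧ FirstKind Γ ∧ ¬ Γ.FG ∧
    ∃ w₁ w₂ : Equiv.Perm ℍ, InTqc Γ w₁ ∧ InTqc Γ w₂ ∧
      (convSet (conjBy w₁ Γ)).Nonempty ∧ (convSet (conjBy w₂ Γ)).Nonempty ∧
      delta (conjBy w₁ Γ) < delta (conjBy w₂ Γ) := by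
  obtain ⟨ℓ, hℓ⟩ : ∃ ℓ, ℓ = dist I (inv (-3) 1 one_pos • I) + dist I (inv 3 1 one_pos • I) :=
    ⟨_, rfl⟩
  have hℓ0 : 0 ≤ ℓ := by rw [hℓ]; positivity
  obtain ⟨A, hA⟩ : ∃ A : ℝ, A = 12423 + ((4 ^ 23 : ℕ) : ℝ) * ℓ := ⟨_, rfl⟩
  have hA1 : 1 ≤ A := by
    have : 0 ≤ ((4 ^ 23 : ℕ) : ℝ) * ℓ := by positivity
    linarith
  obtain ⟨s, hs⟩ : ∃ s : ℝ, s = 1 / (2 * A) := ⟨_, rfl⟩
  have hs0 : 0 < s := by rw [hs]; positivity
  have hs1 : s ≤ 1 := by
    rw [hs, div_le_one (by positivity)]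
    linarith
  have hsA : 2 * s * A = 1 := by rw [hs]; field_simp
  obtain ⟨l, hl⟩ : ∃ l : ℝ, l = (1 / 4) ^ (11 / (2 * s)) := ⟨_, rfl⟩
  have hl0 : 0 < l := by rw [hl]; positivity
  have hl1 : l ≤ 1 / 4 := by
    rw [hl]
    refine (Real.rpow_le_rpow_of_exponent_ge (by norm_num) (by norm_num)
      (show 1 ≤ 11 / (2 * s) from ?_)).trans_eq (Real.rpow_one _)
    rw [le_div_iff₀ (by positivity)]
    linarith
  have hls : (l ^ 2) ^ s = (1 / 4) ^ 11 := by
    rw [hl, ← Real.rpow_natCast _ 2, ← Real.rpow_mul (by norm_num : (0 : ℝ) ≤ 1 / 4),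
      ← Real.rpow_mul (by norm_num : (0 : ℝ) ≤ 1 / 4), ← Real.rpow_natCast _ 11]
    congr 1
    field_simp
    norm_num
  have hq : ∀ m n : ℕ, m ≤ n → (1 / 4 : ℝ) ^ n ≤ (1 / 4) ^ m := fun m n h =>
    pow_le_pow_of_le_one (by norm_num) (by norm_num) h
  have hτ1 : ∀ i : ℕ, l ^ (2 * i ^ 2 + i + 1) ≤ 1 / 4 := fun i =>
    (pow_le_of_le_one hl0.le (by linarith) (by omega)).trans hl1
  obtain ⟨S, c0, r0, c1, r1, c2, r2, h3, hd⟩ := exists_sys l hl0 hl1
    (fun i => l ^ (2 * i ^ 2 + i + 1)) (fun i => by positivity) hτ1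
    (squeeze_zero (fun i => by positivity)
      (fun i => pow_le_pow_of_le_one hl0.le (by linarith) (show i ≤ _ by omega))
      (tendsto_pow_atTop_nhds_zero_of_lt_one hl0.le (by linarith)))
  have cases4 : ∀ i : ℕ, i = 0 ∨ i = 1 ∨ i = 2 ∨ 3 ≤ i := by omega
  have hS3 : ∀ i, 3 * S.r i ≤ |S.c i| := by
    intro i
    rcases cases4 i with rfl | rfl | rfl | h
    · rw [c0, r0]
      norm_num
    · rw [c1, r1]
      exact le_abs.2 (Or.inr (by linarith))
    · rw [c2, r2]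
      exact le_abs_self _
    · have h4 := (h3 i h).2.1
      have h5 := mul_le_mul_of_nonneg_right (hτ1 i) (abs_nonneg (S.c i))
      linarith [abs_nonneg (S.c i)]
  have hS1 : ∀ i, S.r i ≤ 1 := by
    intro i
    rcases cases4 i with rfl | rfl | rfl | h
    · rw [r0]
    · linarith
    · linarith
    · linarith [(h3 i h).1, hτ1 i]
  have hM : 1 ≤ l⁻¹ := (one_le_inv₀ hl0).2 (by linarith)
  obtain ⟨w, hw, hw'⟩ := exists_conj S hS3 hS1 l⁻¹ hM
  set T := S.scale hS3 l⁻¹ hM with hT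
  have hTc : ∀ i, T.c i = (if 0 < S.c i then l⁻¹ else 1) * S.c i := fun _ => rfl
  have hTr : ∀ i, T.r i = (if 0 < S.c i then l⁻¹ else 1) * S.r i := fun _ => rfl
  have hμ : ∀ i, 0 < (if 0 < S.c i then l⁻¹ else 1) := fun i => by split_ifs <;> positivity
  have tc0 : T.c 0 = -3 := by rw [hTc, c0]; norm_num
  have tr0 : T.r 0 = 1 := by rw [hTr, c0, r0]; norm_num
  have tc1 : T.c 1 = -10 := by rw [hTc, c1]; norm_num
  have tr1 : T.r 1 = l := by rw [hTr, c1, r1]; norm_num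
  have tc2 : T.c 2 = 3 := by rw [hTc, c2, if_pos (by positivity)]; field_simp
  have tr2 : T.r 2 = 1 := by rw [hTr, c2, r2, if_pos (by positivity)]; field_simp
  have hT3 : ∀ i, 3 * T.r i ≤ |T.c i| := by
    intro i
    rw [hTc, hTr, abs_mul, abs_of_pos (hμ _), mul_left_comm]
    exact mul_le_mul_of_nonneg_left (hS3 i) (hμ _).le
  have hIS := Sys.not_cl_I hS3
  have hIT := Sys.not_cl_I hT3
  have conv1 : s ∈ convSet S.grp := by
    refine Sys.mem_convSet hIS hs0 (Sys.fac_of hs0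
      (fun i => if i < 3 then l else l ^ (2 * i ^ 2 + i + 1)) (fun i hi => Or.inl ?_)
      (fun i j hj => ?_) fun i hi => ?_)
    · rcases cases4 i with rfl | rfl | rfl | h
      · omega
      · simp [r1]
      · simp [r2]
      · simpa only [not_lt.2 h, if_false] using (h3 i h).1
    · rcases (show (i = 1 ∧ j = 0) ∨ (i = 2 ∧ j = 0) ∨ (i = 2 ∧ j = 1) ∨ 3 ≤ i by omega) with
        ⟨rfl, rfl⟩ | ⟨rfl, rfl⟩ | ⟨rfl, rfl⟩ | h
      · rw [c0, r0, c1, r1, if_pos (by norm_num), abs_of_neg (by norm_num)]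
        linarith
      · rw [c0, r0, c2, r2, if_pos (by norm_num), abs_of_pos (by linarith)]
        nlinarith
      · rw [c1, r1, c2, r2, if_pos (by norm_num), abs_of_pos (by linarith)]
        nlinarith
      · simpa only [not_lt.2 h, if_false] using (h3 i h).2.2 j hj
    · by_cases h : i < 3
      · simp only [h, if_true]
        rw [hls]
        exact hq _ _ (by interval_cases i <;> norm_num)
      · simp only [h, if_false]
        rw [← pow_mul, mul_comm _ 2, pow_mul, ← Real.rpow_natCast, ← Real.rpow_mul (by positivity),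
          mul_comm, Real.rpow_mul (by positivity), hls, Real.rpow_natCast, ← pow_mul]
        exact hq _ _ (by omega)
  have conv2 : (11 : ℝ) ∈ convSet T.grp := by
    refine Sys.mem_convSet hIT (by norm_num) (Sys.fac_of (by norm_num)
      (fun i => if i < 3 then 1 / 3 else l ^ (2 * i ^ 2 + i + 1)) (fun i hi => Or.inr ?_)
      (fun i j hj => ?_) fun i hi => ?_)
    · by_cases h : i < 3
      · simp only [h, if_true]
        linarith [hT3 i]
      · simp only [h, if_false]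
        rw [hTc, hTr, abs_mul, abs_of_pos (hμ _), mul_left_comm]
        exact mul_le_mul_of_nonneg_left (h3 i (not_lt.1 h)).2.1 (hμ _).le
    · rcases (show (i = 1 ∧ j = 0) ∨ (i = 2 ∧ j = 0) ∨ (i = 2 ∧ j = 1) ∨ 3 ≤ i by omega) with
        ⟨rfl, rfl⟩ | ⟨rfl, rfl⟩ | ⟨rfl, rfl⟩ | h
      · rw [tc0, tr0, tc1, tr1, if_pos (by norm_num), abs_of_neg (by norm_num)]
        linarith
      · rw [tc0, tr0, tc2, tr2, if_pos (by norm_num), abs_of_pos (by linarith)]
        linarith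
      · rw [tc1, tr1, tc2, tr2, if_pos (by norm_num), abs_of_pos (by linarith)]
        linarith
      · simp only [not_lt.2 h, if_false]
        obtain ⟨-, h4, h5⟩ := h3 i h
        have h6 := h5 j hj
        have hτ : 0 < l ^ (2 * i ^ 2 + i + 1) := by positivity
        have h7 := hS3 j
        have h8 := S.pos j
        generalize l ^ (2 * i ^ 2 + i + 1) = τ at h4 h6 hτ
        rw [hTc, hTr, hTc, hTr]
        split_ifs with h9 h10 h10
        · rw [← mul_sub, abs_mul, abs_of_pos (inv_pos.2 hl0), ← mul_sub, mul_left_comm]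
          exact mul_le_mul_of_nonneg_left h6 (inv_pos.2 hl0).le
        · rw [abs_of_pos h9] at h4
          rw [abs_of_nonpos (not_lt.1 h10)] at h7
          have h11 : l⁻¹ * S.c i ≤ |l⁻¹ * S.c i - 1 * S.c j| - 1 * S.r j := by
            linarith [le_abs_self (l⁻¹ * S.c i - 1 * S.c j)]
          have h12 := mul_le_mul_of_nonneg_left h11 hτ.le
          have h13 := mul_le_mul_of_nonneg_left h4 (inv_pos.2 hl0).le
          linarith
        · rw [abs_of_nonpos (not_lt.1 h9)] at h4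
          rw [abs_of_pos h10] at h7
          have h14 : l⁻¹ * S.r j ≤ l⁻¹ * S.c j :=
            mul_le_mul_of_nonneg_left (by linarith) (inv_pos.2 hl0).le
          have h11 : -S.c i ≤ |1 * S.c i - l⁻¹ * S.c j| - l⁻¹ * S.r j := by
            linarith [neg_le_abs (1 * S.c i - l⁻¹ * S.c j)]
          have h12 := mul_le_mul_of_nonneg_left h11 hτ.le
          linarith
        · simpa using h6
    · rw [show (11 : ℝ) = ((11 : ℕ) : ℝ) by norm_num, Real.rpow_natCast]
      by_cases h : i < 3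
      · simp only [h, if_true]
        exact (pow_le_pow_left₀ (by norm_num) (show ((1 : ℝ) / 3) ^ 2 ≤ 1 / 4 by norm_num) 11).trans
          (hq _ _ (by interval_cases i <;> norm_num))
      · simp only [h, if_false]
        rw [← pow_mul, ← pow_mul]
        exact (pow_le_pow_left₀ hl0.le hl1 _).trans (hq _ _ (by omega))
  have div2 : 2 * s ∉ convSet T.grp := by
    refine Sys.not_mem_convSet hIT (4 ^ 23) ?_
    have e0 : T.g 0 = inv (-3) 1 one_pos := inv_congr _ _ tc0 tr0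
    have e1 : T.g 1 = inv (-10) l hl0 := inv_congr _ _ tc1 tr1
    have e2 : T.g 2 = inv 3 1 one_pos := inv_congr _ _ tc2 tr2
    rw [e0, e1, e2, ← hℓ]
    have h4 := dist_small l hl0 hl1
    have h5 : s * Real.log (l ^ 2) = Real.log ((1 / 4) ^ 11) := by
      rw [← hls, Real.log_rpow (by positivity)]
    have h6 : Real.log ((1 / 4) ^ 11) + Real.log ((1 / 4) ^ 11) + -1 ≤
        -(2 * s) * (dist I (inv (-10) l hl0 • I) + ((4 ^ 23 : ℕ) : ℝ) * ℓ) := by
      have h7 := mul_le_mul_of_nonneg_left h4 (show 0 ≤ 2 * s by positivity)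
      rw [hA] at hsA
      generalize ((4 ^ 23 : ℕ) : ℝ) = n at hsA ⊢
      generalize Real.log ((1 / 4) ^ 11) = x at h5 ⊢
      generalize Real.log (l ^ 2) = y at h5 h7
      linarith
    have h7 := Real.exp_le_exp.2 h6
    rw [Real.exp_add, Real.exp_add, Real.exp_log (by positivity)] at h7
    have h8 : (1 / 3 : ℝ) < Real.exp (-1) := lt_trans (by norm_num) Real.exp_neg_one_gt_d9
    refine lt_of_lt_of_le ?_ (mul_le_mul_of_nonneg_left h7 (Nat.cast_nonneg _))
    push_cast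
    norm_num
    linarith
  refine ⟨S.grp, Sys.isFuchsian hIS, Sys.firstKind hIS hd, Sys.not_fg hIS, 1, w,
    ⟨isQC_one, ?_⟩, ⟨hw, ?_⟩, ?_⟩
  · rw [conjBy_one]
    exact Sys.grp_le
  · rw [hw']
    exact Sys.grp_le
  · rw [conjBy_one, hw']
    exact ⟨⟨_, conv1⟩, ⟨_, conv2⟩, delta_lt conv1 (by linarith) div2 conv2⟩

end Pool.Agent.H240Z.Qc
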