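import Pool.Agent.H240Z.QcGrp

/-!
Convergence and divergence of the Poincare series.
-/

namespace Pool.Agent.H240Z.Qc

open UpperHalfPlane Filter Topology
open scoped MatrixGroups

def enc : List ℕ → ℕ
  | [] => 0
  | k :: L => 2 ^ k * (2 * enc L + 1)

theorem pow_odd_inj : ∀ k k' a a' : ℕ, 2 ^ k * (2 * a + 1) = 2 ^ k' * (2 * a' + 1) →
    k = k' ∧ a = a'
  | 0, 0, a, a', h => by omega
  | 0, k' + 1, a, a', h => by
    rw [pow_succ, mul_comm _ 2, mul_assoc] at h
    omega
  | k + 1, 0, a, a', h => by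
    rw [pow_succ, mul_comm _ 2, mul_assoc] at h
    omega
  | k + 1, k' + 1, a, a', h => by
    rw [pow_succ, pow_succ, mul_comm _ 2, mul_comm (2 ^ k') 2, mul_assoc, mul_assoc] at h
    obtain ⟨h1, h2⟩ := pow_odd_inj k k' a a' (by omega)
    exact ⟨by omega, h2⟩

theorem enc_inj : ∀ L L' : List ℕ, enc L = enc L' → L = L'
  | [], [], _ => rfl
  | [], k :: L, h => by
    have : 0 < enc (k :: L) := by unfold enc; positivity
    simp only [enc] at h this
    omega
  | k :: L, [], h => by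
    have : 0 < enc (k :: L) := by unfold enc; positivity
    simp only [enc] at h this
    omega
  | k :: L, k' :: L', h => by
    obtain ⟨h1, h2⟩ := pow_odd_inj _ _ _ _ h
    rw [h1, enc_inj L L' h2]

noncomputable def wt : List ℕ → ℝ
  | [] => 1
  | k :: L => (1 / 4) ^ (k + 1) * wt L

theorem wt_pos : ∀ L, 0 < wt L
  | [] => one_pos
  | k :: L => by
    have := wt_pos L
    unfold wt
    positivity

theorem wt_le : ∀ L, wt L ≤ 1 / ((enc L : ℝ) + 1) ^ 2
  | [] => by simp [wt, enc]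
  | k :: L => by
    have h1 := wt_le L
    have h2 : ((enc (k :: L) : ℝ) + 1) ≤ 2 ^ (k + 1) * (enc L + 1) := by
      have : (1 : ℝ) ≤ 2 ^ k := one_le_pow₀ one_le_two
      simp only [enc]
      push_cast
      rw [pow_succ]
      nlinarith
    have h3 : (1 / 4 : ℝ) ^ (k + 1) * (1 / ((enc L : ℝ) + 1) ^ 2) =
        1 / (2 ^ (k + 1) * (enc L + 1)) ^ 2 := by
      rw [mul_pow, ← pow_mul, mul_comm (k + 1) 2, pow_mul, one_div_pow]
      field_simp
      norm_num
    calc wt (k :: L) ≤ (1 / 4 : ℝ) ^ (k + 1) * (1 / ((enc L : ℝ) + 1) ^ 2) :=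
          mul_le_mul_of_nonneg_left h1 (by positivity)
      _ ≤ _ := by
          rw [h3]
          exact one_div_le_one_div_of_le (by positivity) (pow_le_pow_left₀ (by positivity) h2 2)

theorem summable_wt : Summable wt := by
  have h1 : Summable fun n : ℕ => 1 / ((n : ℝ) + 1) ^ 2 := by
    have := (summable_nat_add_iff 1).2 (Real.summable_one_div_nat_pow.2 one_lt_two)
    simpa using this
  exact (h1.comp_injective fun L L' => enc_inj L L').of_nonneg_of_le (fun L => (wt_pos L).le) wt_le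

namespace Sys

variable {S : Sys}

theorem im_le (hI : ∀ i, ¬ S.Cl i I) {s : ℝ} (hs : 0 < s)
    (hf : ∀ i, 1 ≤ i → ∀ w, (w = I ∨ ∃ j < i, S.Cl j w) →
      (S.r i ^ 2 / N (S.c i) w) ^ s ≤ (1 / 4) ^ (2 * i ^ 2 + i + 1)) :
    ∀ (L : List ℕ) (i : ℕ), Red (i :: L) →
      (S.act (i :: L) • I).im ^ s ≤ (1 / 4) ^ (2 * i ^ 2) * wt L := by
  have key : ∀ i w, (S.g i • w).im ^ s = (S.r i ^ 2 / N (S.c i) w) ^ s * w.im ^ s := by
    intro i w
    have := N_pos (S.c i) w
    rw [← Real.mul_rpow (by positivity) w.im_pos.le, g, inv_im]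
    congr 1
    ring
  have key2 : ∀ i w, ¬ S.Cl i w → (S.r i ^ 2 / N (S.c i) w) ^ s ≤ 1 := by
    intro i w h
    have := N_pos (S.c i) w
    exact Real.rpow_le_one (by positivity) ((div_le_one this).2 (not_le.1 h).le) hs.le
  have hq : ∀ m n : ℕ, m ≤ n → (1 / 4 : ℝ) ^ n ≤ (1 / 4) ^ m := fun m n h =>
    pow_le_pow_of_le_one (by norm_num) (by norm_num) h
  intro L
  induction L with
  | nil =>
    intro i _
    rw [act_cons, act_nil, mul_one, key, I_im, Real.one_rpow, wt]
    rcases Nat.eq_zero_or_pos i with rfl | hi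
    · simpa using key2 0 I (hI 0)
    · simpa using (hf i hi I (Or.inl rfl)).trans (hq _ _ (by omega))
  | cons j L ih =>
    intro i h
    have hij : i ≠ j := (List.isChain_cons_cons.1 h).1
    have h1 := ih j h.tail
    have h2 := (pp hI L j h.tail).cl
    have hw := wt_pos L
    rw [act_cons, mul_smul, key, wt]
    have h3 : (S.r i ^ 2 / N (S.c i) (S.act (j :: L) • I)) ^ s * (1 / 4) ^ (2 * j ^ 2) ≤
        (1 / 4) ^ (2 * i ^ 2) * (1 / 4) ^ (j + 1) := by
      rw [← pow_add]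
      rcases lt_or_gt_of_ne hij with h4 | h4
      · refine (mul_le_mul_of_nonneg_right (key2 i _ fun h' => hij (h'.eq h2))
          (by positivity)).trans ?_
        rw [one_mul]
        exact hq _ _ (by nlinarith)
      · refine (mul_le_mul (hf i (by omega) _ (Or.inr ⟨j, h4, h2⟩)) (hq 0 _ (Nat.zero_le _))
          (by positivity) (by positivity)).trans ?_
        rw [pow_zero, mul_one]
        exact hq _ _ (by omega)
    have h5 : 0 ≤ (S.r i ^ 2 / N (S.c i) (S.act (j :: L) • I)) ^ s := by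
      have := N_pos (S.c i) (S.act (j :: L) • I)
      positivity
    calc _ ≤ (S.r i ^ 2 / N (S.c i) (S.act (j :: L) • I)) ^ s * ((1 / 4) ^ (2 * j ^ 2) * wt L) :=
          mul_le_mul_of_nonneg_left h1 h5
      _ ≤ _ := by
          rw [← mul_assoc, ← mul_assoc]
          exact mul_le_mul_of_nonneg_right h3 hw.le

theorem exp_le (s : ℝ) (hs : 0 < s) (w : ℍ) : Real.exp (-s * dist I w) ≤ w.im ^ s := by
  have h := im_div_exp_dist_le I w
  rw [I_im, one_div, ← Real.exp_neg] at h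
  rw [neg_mul, ← mul_neg, mul_comm, Real.exp_mul]
  exact Real.rpow_le_rpow (Real.exp_pos _).le h hs.le

theorem mem_convSet (hI : ∀ i, ¬ S.Cl i I) {s : ℝ} (hs : 0 < s)
    (hf : ∀ i, 1 ≤ i → ∀ w, (w = I ∨ ∃ j < i, S.Cl j w) →
      (S.r i ^ 2 / N (S.c i) w) ^ s ≤ (1 / 4) ^ (2 * i ^ 2 + i + 1)) : s ∈ convSet S.grp := by
  refine ⟨hs, ?_⟩
  choose L h1 _ h3 using fun γ : S.grp => mem_grpOn γ.2
  have hinj : Function.Injective L := fun γ γ' h => Subtype.ext (by rw [h3, h3, h])
  refine ((summable_wt.mul_left 4).comp_injective hinj).of_nonneg_of_le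
    (fun _ => (Real.exp_pos _).le) fun γ => ?_
  refine (exp_le s hs _).trans ?_
  rw [h3, mob_apply, Function.comp_apply]
  have h4 := h1 γ
  generalize L γ = M at h4
  match M, h4 with
  | [], _ => simp [act_nil, wt]
  | i :: M, h4 =>
    refine (im_le hI hs hf M i h4).trans ?_
    rw [wt, ← mul_assoc, pow_succ (1 / 4 : ℝ) i]
    refine mul_le_mul_of_nonneg_right ?_ (wt_pos M).le
    have : (1 / 4 : ℝ) ^ (2 * i ^ 2) ≤ (1 / 4) ^ i :=
      pow_le_pow_of_le_one (by norm_num) (by norm_num) (by nlinarith)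
    linarith

def rep : ℕ → List ℕ
  | 0 => []
  | n + 1 => 0 :: 2 :: rep n

theorem red_rep (L : List ℕ) (h : Red (1 :: L)) : ∀ n, Red (2 :: (rep n ++ 1 :: L))
  | 0 => List.IsChain.cons_cons (by decide) h
  | n + 1 => List.IsChain.cons_cons (by decide)
      (List.IsChain.cons_cons (by decide) (red_rep L h n))

theorem rep_inj (L L' : List ℕ) : ∀ n m, rep n ++ 1 :: L = rep m ++ 1 :: L' → n = m ∧ L = L'
  | 0, 0, h => by simpa [rep] using h
  | 0, m + 1, h => by simp [rep] at h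
  | n + 1, 0, h => by simp [rep] at h
  | n + 1, m + 1, h => by
    simp only [rep, List.cons_append, List.cons.injEq, true_and] at h
    obtain ⟨h1, h2⟩ := rep_inj L L' n m h
    exact ⟨by omega, h2⟩

theorem dist_cons (i : ℕ) (L : List ℕ) :
    dist I (S.act (i :: L) • I) ≤ dist I (S.g i • I) + dist I (S.act L • I) := by
  rw [act_cons, mul_smul, ← dist_smul (S.g i) I (S.act L • I)]
  exact dist_triangle _ _ _

theorem dist_rep (L : List ℕ) : ∀ n : ℕ, dist I (S.act (rep n ++ L) • I) ≤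
    n * (dist I (S.g 0 • I) + dist I (S.g 2 • I)) + dist I (S.act L • I)
  | 0 => by simp [rep]
  | n + 1 => by
    have h1 := dist_rep L n
    have h2 := dist_cons (S := S) 0 (2 :: (rep n ++ L))
    have h3 := dist_cons (S := S) 2 (rep n ++ L)
    simp only [rep, List.cons_append]
    push_cast
    linarith

theorem not_mem_convSet (hI : ∀ i, ¬ S.Cl i I) {s : ℝ} (n : ℕ)
    (h : 1 < n * Real.exp (-s * (dist I (S.g 1 • I) +
      n * (dist I (S.g 0 • I) + dist I (S.g 2 • I))))) : s ∉ convSet S.grp := by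
  rintro ⟨hs, hsum⟩
  let Λ := {L : List ℕ // Red (1 :: L)}
  let F : Λ → ℝ := fun L => Real.exp (-s * dist I (S.act (1 :: L.1) • I))
  have hF : Summable F := by
    have hi : Function.Injective
        fun L : Λ => (⟨mob (S.act (1 :: L.1)), act_mem_grp _⟩ : S.grp) := by
      intro L L' e
      have e1 : mob (S.act (1 :: L.1)) = mob (S.act (1 :: L'.1)) := congrArg Subtype.val e
      have e2 := act_inj hI _ _ L.2 L'.2 (by rw [← mob_apply, e1, mob_apply])
      exact Subtype.ext (List.cons.inj e2).2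
    have := hsum.comp_injective hi
    simpa only [Function.comp_def, mob_apply] using this
  let e : Fin n × Λ → Λ := fun p => ⟨rep (p.1 + 1) ++ 1 :: p.2.1,
    List.IsChain.cons_cons (by decide) (List.IsChain.cons_cons (by decide) (red_rep _ p.2.2 _))⟩
  have he : Function.Injective e := by
    intro p p' h
    obtain ⟨h1, h2⟩ := rep_inj _ _ _ _ (congrArg Subtype.val h)
    exact Prod.ext (Fin.ext (by omega)) (Subtype.ext h2)
  set q := Real.exp (-s * (dist I (S.g 1 • I) + n * (dist I (S.g 0 • I) + dist I (S.g 2 • I))))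
  have hq : 0 < q := Real.exp_pos _
  have h1 : ∀ p, q * F p.2 ≤ F (e p) := by
    intro p
    rw [← Real.exp_add]
    apply Real.exp_le_exp.2
    have h2 := dist_cons (S := S) 1 (rep (p.1 + 1) ++ 1 :: p.2.1)
    have h3 := dist_rep (S := S) (1 :: p.2.1) (p.1 + 1)
    have h4 : ((p.1 + 1 : ℕ) : ℝ) * (dist I (S.g 0 • I) + dist I (S.g 2 • I)) ≤
        n * (dist I (S.g 0 • I) + dist I (S.g 2 • I)) :=
      mul_le_mul_of_nonneg_right (by exact_mod_cast p.1.2) (by positivity)
    change _ ≤ -s * dist I (S.act (1 :: (rep (p.1 + 1) ++ 1 :: p.2.1)) • I)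
    nlinarith
  have hF0 : ∀ L, 0 < F L := fun L => Real.exp_pos _
  have h2 : ∑' p : Fin n × Λ, ENNReal.ofReal (q * F p.2) ≤ ∑' L, ENNReal.ofReal (F L) :=
    (ENNReal.tsum_le_tsum fun p => ENNReal.ofReal_le_ofReal (h1 p)).trans
      (ENNReal.tsum_comp_le_tsum_of_injective he fun L => ENNReal.ofReal (F L))
  rw [ENNReal.tsum_prod (f := fun _ L => ENNReal.ofReal (q * F L)),
    ← ENNReal.ofReal_tsum_of_nonneg (fun L => (hF0 L).le) hF,
    ← ENNReal.ofReal_tsum_of_nonneg (fun L => (mul_pos hq (hF0 L)).le) (hF.mul_left q),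
    tsum_fintype, Finset.sum_const, Finset.card_univ, Fintype.card_fin, nsmul_eq_mul,
    ← ENNReal.ofReal_natCast, ← ENNReal.ofReal_mul (Nat.cast_nonneg n), tsum_mul_left] at h2
  have h3 : 0 < ∑' L, F L := hF.tsum_pos (fun L => (hF0 L).le) ⟨[], List.isChain_singleton _⟩ (hF0 _)
  have h4 := (ENNReal.ofReal_le_ofReal_iff h3.le).1 h2
  nlinarith

end Sys

theorem convSet_mono {Γ : Subgroup (Equiv.Perm ℍ)} {s t : ℝ} (hs : s ∈ convSet Γ) (h : s ≤ t) :
    t ∈ convSet Γ :=
  ⟨hs.1.trans_le h, hs.2.of_nonneg_of_le (fun _ => (Real.exp_pos _).le) fun γ =>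
    Real.exp_le_exp.2 (by nlinarith [dist_nonneg (x := I) (y := (γ : Equiv.Perm ℍ) I)])⟩

theorem delta_lt {Γ Γ' : Subgroup (Equiv.Perm ℍ)} {s t u : ℝ} (hs : s ∈ convSet Γ) (h : s < t)
    (ht : t ∉ convSet Γ') (hu : u ∈ convSet Γ') : delta Γ < delta Γ' :=
  ((csInf_le ⟨0, fun _ hx => hx.1.le⟩ hs).trans_lt h).trans_le
    (le_csInf ⟨u, hu⟩ fun _ hx => le_of_not_ge fun h' => ht (convSet_mono hx h'))

end Pool.Agent.H240Z.Qc
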