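import Pool.Agent.H240Z.ReactHeat

/-!
Estimates for a bounded mild solution.
-/

set_option autoImplicit false

namespace Pool.Agent.H240Z.React

open MeasureTheory Set Filter Topology
open scoped ENNReal

/-- A bounded mild solution on `[0, 2]` together with the constants that bound the data. -/
structure Ctx (N : ℕ) where
  /-- kernel -/
  K : EuclideanSpace ℝ (Fin N) → ℝ
  /-- nonlinearity -/
  f : ℝ → ℝ
  /-- initial value -/
  u₀ : EuclideanSpace ℝ (Fin N) → ℝ
  /-- first component -/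
  u : ℝ → EuclideanSpace ℝ (Fin N) → ℝ
  /-- second component -/
  v : ℝ → EuclideanSpace ℝ (Fin N) → ℝ
  /-- bound for `K` -/
  A : ℝ
  /-- bound for `u` -/
  B : ℝ
  /-- bound for `f` -/
  C : ℝ
  hN : 3 ≤ N
  K_meas : Measurable K
  K_int : Integrable K
  K_nonneg : ∀ x, 0 ≤ K x
  K_le : ∀ x, K x ≤ A
  f_meas : Measurable f
  f_nonneg : ∀ s, 0 ≤ f s
  f_le : ∀ s, 0 ≤ s → s ≤ B → f s ≤ C
  B_nonneg : 0 ≤ B
  mild : IsMild K f u₀ 2 u v
  bdd : ∀ᵐ x, ∀ t ∈ Icc (0 : ℝ) 2, u t x ≤ B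

namespace Ctx

variable {N : ℕ} (S : Ctx N)

/-- reaction term -/
def g (s : ℝ) (y : EuclideanSpace ℝ (Fin N)) : ℝ := S.v s y * S.f (S.u s y)

/-- convolution term -/
noncomputable def conv (s : ℝ) (x : EuclideanSpace ℝ (Fin N)) : ℝ := ∫ y, S.K (x - y) * S.u s y

/-- total mass of the kernel -/
noncomputable def κ : ℝ := ∫ y, S.K y

/-- right-hand side of the first equation -/
noncomputable def h (x : EuclideanSpace ℝ (Fin N)) (s : ℝ) : ℝ :=
  S.conv s x - S.κ * S.u s x + S.g s x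

/-- points at which everything holds -/
structure Good (x : EuclideanSpace ℝ (Fin N)) : Prop where
  u0 : ∀ t ∈ Icc (0 : ℝ) 2, 0 ≤ S.u t x
  v0 : ∀ t ∈ Icc (0 : ℝ) 2, 0 ≤ S.v t x
  uB : ∀ t ∈ Icc (0 : ℝ) 2, S.u t x ≤ S.B
  v1 : ∀ t ∈ Icc (0 : ℝ) 2, S.v t x ≤ 1
  eu : ∀ t ∈ Icc (0 : ℝ) 2, S.u t x = S.u₀ x + ∫ s in (0 : ℝ)..t, S.h x s
  ev : ∀ t ∈ Icc (0 : ℝ) 2, S.v t x = 1 - ∫ s in (0 : ℝ)..t,
    ∫ y, heat N (t - s) (x - y) * S.g s y

theorem C_nonneg : 0 ≤ S.C := (S.f_nonneg 0).trans (S.f_le 0 le_rfl S.B_nonneg)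

theorem A_nonneg : 0 ≤ S.A := (S.K_nonneg 0).trans (S.K_le 0)

theorem κ_nonneg : 0 ≤ S.κ := integral_nonneg S.K_nonneg

theorem ae_good : ∀ᵐ x, S.Good x := by
  filter_upwards [S.mild.nonneg, S.mild.eq_u, S.mild.eq_v, S.bdd] with x h1 h2 h3 h4
  refine ⟨fun t ht => (h1 t ht).1, fun t ht => (h1 t ht).2, h4, fun t ht => ?_, h2, h3⟩
  rw [h3 t ht, sub_le_self_iff]
  refine intervalIntegral.integral_nonneg ht.1 fun s hs => integral_nonneg_of_ae ?_
  filter_upwards [S.mild.nonneg] with y hy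
  exact mul_nonneg (heat_nonneg (sub_nonneg.2 hs.2) _)
    (mul_nonneg (hy s ⟨hs.1, hs.2.trans ht.2⟩).2 (S.f_nonneg _))

theorem meas_g : Measurable (Function.uncurry S.g) :=
  S.mild.meas_v.mul (S.f_meas.comp S.mild.meas_u)

theorem meas_g' {α : Type} [MeasurableSpace α] {a : α → ℝ} {b : α → EuclideanSpace ℝ (Fin N)}
    (ha : Measurable a) (hb : Measurable b) : Measurable fun p => S.g (a p) (b p) :=
  S.meas_g.comp (ha.prodMk hb)

theorem meas_u' {α : Type} [MeasurableSpace α] {a : α → ℝ} {b : α → EuclideanSpace ℝ (Fin N)}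
    (ha : Measurable a) (hb : Measurable b) : Measurable fun p => S.u (a p) (b p) :=
  S.mild.meas_u.comp (ha.prodMk hb)

theorem meas_heat' {α : Type} [MeasurableSpace α] {a : α → ℝ}
    {b : α → EuclideanSpace ℝ (Fin N)} (ha : Measurable a) (hb : Measurable b) :
    Measurable fun p => heat N (a p) (b p) :=
  meas_heat.comp (ha.prodMk hb)

variable {S}

theorem Good.g0 {y : EuclideanSpace ℝ (Fin N)} (hy : S.Good y) {s : ℝ} (hs : s ∈ Icc (0 : ℝ) 2) :
    0 ≤ S.g s y := mul_nonneg (hy.v0 s hs) (S.f_nonneg _)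

theorem Good.gC {y : EuclideanSpace ℝ (Fin N)} (hy : S.Good y) {s : ℝ} (hs : s ∈ Icc (0 : ℝ) 2) :
    S.g s y ≤ S.C := by
  have h1 := S.f_le _ (hy.u0 s hs) (hy.uB s hs)
  have h2 := hy.v1 s hs
  have h3 := S.f_nonneg (S.u s y)
  unfold g
  nlinarith

variable (S)

/-- the heat potential of the reaction term at time `s`, seen at time `t` -/
noncomputable def Φ (x : EuclideanSpace ℝ (Fin N)) (s t : ℝ) : ℝ≥0∞ :=
  ∫⁻ y, ENNReal.ofReal (heat N (t - s) (x - y)) * ENNReal.ofReal (S.g s y)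

theorem meas_Φ (x : EuclideanSpace ℝ (Fin N)) : Measurable fun p : ℝ × ℝ => S.Φ x p.1 p.2 := by
  apply Measurable.lintegral_prod_right'
    (f := fun q : (ℝ × ℝ) × EuclideanSpace ℝ (Fin N) =>
      ENNReal.ofReal (heat N (q.1.2 - q.1.1) (x - q.2)) * ENNReal.ofReal (S.g q.1.1 q.2))
  exact (meas_heat' (by fun_prop) (by fun_prop)).ennreal_ofReal.mul
    (S.meas_g' (by fun_prop) (by fun_prop)).ennreal_ofReal

theorem Φ_le (x : EuclideanSpace ℝ (Fin N)) {s t : ℝ} (hs : s ∈ Icc (0 : ℝ) 2) (hst : s ≤ t) :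
    S.Φ x s t ≤ ENNReal.ofReal S.C := by
  calc S.Φ x s t ≤ ∫⁻ y, ENNReal.ofReal (heat N (t - s) (x - y)) * ENNReal.ofReal S.C := by
        refine lintegral_mono_ae ?_
        filter_upwards [S.ae_good] with y hy
        gcongr
        exact hy.gC hs
    _ = (∫⁻ y, ENNReal.ofReal (heat N (t - s) (x - y))) * ENNReal.ofReal S.C :=
        lintegral_mul_const' _ _ ENNReal.ofReal_ne_top
    _ ≤ 1 * ENNReal.ofReal S.C := by
        gcongr
        exact heat_lint S.hN (sub_nonneg.2 hst) x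
    _ = _ := one_mul _

theorem potential {x : EuclideanSpace ℝ (Fin N)} (hx : S.Good x) {t : ℝ}
    (ht : t ∈ Icc (0 : ℝ) 2) : ∫⁻ s in Ioc 0 t, S.Φ x s t = ENNReal.ofReal (1 - S.v t x) := by
  have hm : Measurable fun s => S.Φ x s t := by
    have := (S.meas_Φ x).comp (f := fun s : ℝ => (s, t)) (by fun_prop)
    simpa only [Function.comp_def] using this
  have hfin : ∫⁻ s in Ioc 0 t, S.Φ x s t ≠ ⊤ := by
    refine ne_top_of_le_ne_top ?_ (setLIntegral_mono' (g := fun _ => ENNReal.ofReal S.C)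
      measurableSet_Ioc fun s hs => S.Φ_le x ⟨hs.1.le, hs.2.trans ht.2⟩ hs.2)
    rw [setLIntegral_const, Real.volume_Ioc]
    exact ENNReal.mul_ne_top ENNReal.ofReal_ne_top ENNReal.ofReal_ne_top
  rw [hx.ev t ht, sub_sub_cancel, intervalIntegral.integral_of_le ht.1,
    ← ENNReal.ofReal_toReal hfin, ← integral_toReal hm.aemeasurable
      (ae_lt_top hm hfin)]
  congr 1
  refine setIntegral_congr_fun measurableSet_Ioc fun s hs => ?_
  have hs' : s ∈ Icc (0 : ℝ) 2 := ⟨hs.1.le, hs.2.trans ht.2⟩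
  rw [integral_eq_lintegral_of_nonneg_ae]
  · congr 1
    refine lintegral_congr fun y => ?_
    rw [ENNReal.ofReal_mul (heat_nonneg (sub_nonneg.2 hs.2) _)]
  · filter_upwards [S.ae_good] with y hy
    exact mul_nonneg (heat_nonneg (sub_nonneg.2 hs.2) _) (hy.g0 hs')
  · exact ((meas_heat' (by fun_prop) (by fun_prop)).mul
      (S.meas_g' (by fun_prop) (by fun_prop))).aestronglyMeasurable

/-- absorbed mass in a set during the time interval `(0, 1]` -/
noncomputable def mass (D : Set (EuclideanSpace ℝ (Fin N))) : ℝ≥0∞ :=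
  ∫⁻ s in Ioc (0 : ℝ) 1, ∫⁻ y in D, ENNReal.ofReal (S.g s y)

theorem mass_le {D : Set (EuclideanSpace ℝ (Fin N))} (hD : MeasurableSet D)
    {x : EuclideanSpace ℝ (Fin N)} (hx : S.Good x) {a : ℝ≥0∞} (ha : a ≠ ⊤)
    (hlow : ∀ y ∈ D, a ≤ ∫⁻ t in Ioc (0 : ℝ) 1, ENNReal.ofReal (heat N t (x - y))) :
    a * S.mass D ≤ 2 := by
  let F : ℝ → ℝ → ℝ≥0∞ := fun s t =>
    {p : ℝ × ℝ | 0 < p.1 ∧ p.1 ≤ p.2 ∧ p.2 ≤ 2}.indicator (fun p => S.Φ x p.1 p.2) (s, t)
  have hF : Measurable (Function.uncurry F) := by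
    refine (S.meas_Φ x).indicator ?_
    exact (measurableSet_lt measurable_const measurable_fst).inter
      ((measurableSet_le measurable_fst measurable_snd).inter
        (measurableSet_le measurable_snd measurable_const))
  have h1 : ∀ s ∈ Ioc (0 : ℝ) 1, a * ∫⁻ y in D, ENNReal.ofReal (S.g s y) ≤ ∫⁻ t, F s t := by
    intro s hs
    calc a * ∫⁻ y in D, ENNReal.ofReal (S.g s y)
        = ∫⁻ y in D, a * ENNReal.ofReal (S.g s y) := (lintegral_const_mul' _ _ ha).symm
      _ ≤ ∫⁻ y in D, ∫⁻ t in Ioc s (s + 1),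
            ENNReal.ofReal (heat N (t - s) (x - y)) * ENNReal.ofReal (S.g s y) := by
          refine setLIntegral_mono' hD fun y hy => ?_
          rw [lintegral_mul_const' _ _ ENNReal.ofReal_ne_top]
          gcongr
          refine (hlow y hy).trans (le_of_eq ?_)
          rw [← lintegral_indicator measurableSet_Ioc, ← lintegral_indicator measurableSet_Ioc,
            ← lintegral_sub_right_eq_self _ s]
          refine lintegral_congr fun t => ?_
          by_cases ht : t ∈ Ioc s (s + 1)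
          · have : t - s ∈ Ioc (0 : ℝ) 1 := ⟨by linarith [ht.1], by linarith [ht.2]⟩
            rw [indicator_of_mem ht, indicator_of_mem this]
          · have : t - s ∉ Ioc (0 : ℝ) 1 := fun h => ht ⟨by linarith [h.1], by linarith [h.2]⟩
            rw [indicator_of_notMem ht, indicator_of_notMem this]
      _ ≤ ∫⁻ y, ∫⁻ t in Ioc s (s + 1),
            ENNReal.ofReal (heat N (t - s) (x - y)) * ENNReal.ofReal (S.g s y) :=
          setLIntegral_le_lintegral _ _
      _ = ∫⁻ t in Ioc s (s + 1), S.Φ x s t := by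
          rw [lintegral_lintegral_swap]
          · rfl
          · exact ((meas_heat' (by fun_prop) (by fun_prop)).ennreal_ofReal.mul
              (S.meas_g' (by fun_prop) (by fun_prop)).ennreal_ofReal).aemeasurable
      _ = ∫⁻ t in Ioc s (s + 1), F s t := by
          refine setLIntegral_congr_fun measurableSet_Ioc fun t ht => ?_
          simp only [F]
          rw [indicator_of_mem]
          exact ⟨hs.1, ht.1.le, by linarith [ht.2, hs.2]⟩
      _ ≤ _ := setLIntegral_le_lintegral _ _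
  have h2 : ∀ t, ∫⁻ s, F s t ≤ (Icc (0 : ℝ) 2).indicator (fun _ => (1 : ℝ≥0∞)) t := by
    intro t
    by_cases ht : t ∈ Icc (0 : ℝ) 2
    · rw [indicator_of_mem ht]
      have h3 : ∫⁻ s, F s t = ∫⁻ s in Ioc 0 t, S.Φ x s t := by
        rw [← lintegral_indicator measurableSet_Ioc]
        refine lintegral_congr fun s => ?_
        simp only [F]
        by_cases hs : s ∈ Ioc 0 t
        · rw [indicator_of_mem hs, indicator_of_mem]
          exact ⟨hs.1, hs.2, ht.2⟩
        · rw [indicator_of_notMem hs, indicator_of_notMem]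
          exact fun h => hs ⟨h.1, h.2.1⟩
      rw [h3, S.potential hx ht]
      exact ENNReal.ofReal_le_one.2 (by linarith [hx.v0 t ht])
    · have h3 : ∀ s, F s t = 0 := by
        intro s
        simp only [F]
        rw [indicator_of_notMem]
        exact fun h => ht ⟨h.1.le.trans h.2.1, h.2.2⟩
      simp [h3]
  calc a * S.mass D = ∫⁻ s in Ioc (0 : ℝ) 1, a * ∫⁻ y in D, ENNReal.ofReal (S.g s y) :=
        (lintegral_const_mul' _ _ ha).symm
    _ ≤ ∫⁻ s in Ioc (0 : ℝ) 1, ∫⁻ t, F s t := setLIntegral_mono' measurableSet_Ioc h1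
    _ ≤ ∫⁻ s, ∫⁻ t, F s t := setLIntegral_le_lintegral _ _
    _ = ∫⁻ t, ∫⁻ s, F s t := lintegral_lintegral_swap hF.aemeasurable
    _ ≤ ∫⁻ t, (Icc (0 : ℝ) 2).indicator (fun _ => (1 : ℝ≥0∞)) t := lintegral_mono h2
    _ = 2 := by
        rw [lintegral_indicator measurableSet_Icc, setLIntegral_const, Real.volume_Icc]
        simp

theorem K_shift_int (x : EuclideanSpace ℝ (Fin N)) : Integrable fun y => S.K (x - y) :=
  S.K_int.comp_sub_left x

theorem conv_int (x : EuclideanSpace ℝ (Fin N)) {s : ℝ} (hs : s ∈ Icc (0 : ℝ) 2) :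
    Integrable fun y => S.K (x - y) * S.u s y := by
  refine ((S.K_shift_int x).mul_const S.B).mono' ?_ ?_
  · exact ((S.K_meas.comp (by fun_prop)).mul
      (S.meas_u' (by fun_prop) (by fun_prop))).aestronglyMeasurable
  · filter_upwards [S.ae_good] with y hy
    rw [Real.norm_eq_abs, abs_of_nonneg (mul_nonneg (S.K_nonneg _) (hy.u0 s hs))]
    exact mul_le_mul_of_nonneg_left (hy.uB s hs) (S.K_nonneg _)

theorem conv_nonneg (x : EuclideanSpace ℝ (Fin N)) {s : ℝ} (hs : s ∈ Icc (0 : ℝ) 2) :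
    0 ≤ S.conv s x := by
  refine integral_nonneg_of_ae ?_
  filter_upwards [S.ae_good] with y hy
  exact mul_nonneg (S.K_nonneg _) (hy.u0 s hs)

theorem κ_shift (x : EuclideanSpace ℝ (Fin N)) : ∫ y, S.K (x - y) = S.κ :=
  integral_sub_left_eq_self S.K volume x

theorem conv_le (x : EuclideanSpace ℝ (Fin N)) {s : ℝ} (hs : s ∈ Icc (0 : ℝ) 2) :
    S.conv s x ≤ S.κ * S.B := by
  rw [← S.κ_shift x, ← integral_mul_const]
  refine integral_mono_ae (S.conv_int x hs) ((S.K_shift_int x).mul_const _) ?_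
  filter_upwards [S.ae_good] with y hy
  exact mul_le_mul_of_nonneg_left (hy.uB s hs) (S.K_nonneg _)

theorem meas_conv (x : EuclideanSpace ℝ (Fin N)) : Measurable fun s => S.conv s x := by
  have : StronglyMeasurable (Function.uncurry fun (s : ℝ) (y : EuclideanSpace ℝ (Fin N)) =>
      S.K (x - y) * S.u s y) :=
    ((S.K_meas.comp (by fun_prop)).mul
      (S.meas_u' (by fun_prop) (by fun_prop))).stronglyMeasurable
  exact this.integral_prod_right.measurable

theorem int_of_bdd {φ : ℝ → ℝ} (hφ : Measurable φ) {M : ℝ}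
    (hM : ∀ s ∈ Icc (0 : ℝ) 2, |φ s| ≤ M) {a b : ℝ} (ha : a ∈ Icc (0 : ℝ) 2)
    (hb : b ∈ Icc (0 : ℝ) 2) : IntervalIntegrable φ volume a b := by
  apply IntegrableOn.intervalIntegrable
  refine IntegrableOn.mono_set ?_ (uIcc_subset_Icc ha hb)
  refine Measure.integrableOn_of_bounded (M := M) (by simp) hφ.aestronglyMeasurable ?_
  exact (ae_restrict_iff' measurableSet_Icc).2 (Eventually.of_forall hM)

theorem g_int {x : EuclideanSpace ℝ (Fin N)} (hx : S.Good x) {a b : ℝ} (ha : a ∈ Icc (0 : ℝ) 2)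
    (hb : b ∈ Icc (0 : ℝ) 2) : IntervalIntegrable (fun s => S.g s x) volume a b :=
  int_of_bdd (S.meas_g' (by fun_prop) (by fun_prop)) (M := S.C)
    (fun s hs => by rw [abs_of_nonneg (hx.g0 hs)]; exact hx.gC hs) ha hb

theorem h_int {x : EuclideanSpace ℝ (Fin N)} (hx : S.Good x) {a b : ℝ} (ha : a ∈ Icc (0 : ℝ) 2)
    (hb : b ∈ Icc (0 : ℝ) 2) : IntervalIntegrable (S.h x) volume a b := by
  refine IntervalIntegrable.add (IntervalIntegrable.sub ?_ (IntervalIntegrable.const_mul ?_ _))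
    (S.g_int hx ha hb)
  · exact int_of_bdd (S.meas_conv x) (M := S.κ * S.B)
      (fun s hs => by rw [abs_of_nonneg (S.conv_nonneg x hs)]; exact S.conv_le x hs) ha hb
  · exact int_of_bdd (S.meas_u' (by fun_prop) (by fun_prop)) (M := S.B)
      (fun s hs => by rw [abs_of_nonneg (hx.u0 s hs)]; exact hx.uB s hs) ha hb

theorem u_step {x : EuclideanSpace ℝ (Fin N)} (hx : S.Good x) {a b : ℝ} (ha : a ∈ Icc (0 : ℝ) 2)
    (hb : b ∈ Icc (0 : ℝ) 2) (hab : a ≤ b) :
    S.u b x ≤ S.u a x + (b - a) * (S.κ * S.B + S.C) := by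
  have h0 : (0 : ℝ) ∈ Icc (0 : ℝ) 2 := ⟨le_rfl, by norm_num⟩
  rw [hx.eu a ha, hx.eu b hb, ← intervalIntegral.integral_add_adjacent_intervals
    (S.h_int hx h0 ha) (S.h_int hx ha hb)]
  have : ∫ s in a..b, S.h x s ≤ ∫ _ in a..b, (S.κ * S.B + S.C) := by
    refine intervalIntegral.integral_mono_on hab (S.h_int hx ha hb) intervalIntegrable_const
      fun s hs => ?_
    have hs' : s ∈ Icc (0 : ℝ) 2 := ⟨ha.1.trans hs.1, hs.2.trans hb.2⟩
    have h1 := S.conv_le x hs'
    have h2 := hx.gC hs'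
    have h3 := mul_nonneg S.κ_nonneg (hx.u0 s hs')
    unfold h
    linarith
  rw [intervalIntegral.integral_const, smul_eq_mul] at this
  linarith

theorem u_le {x : EuclideanSpace ℝ (Fin N)} (hx : S.Good x) {t M : ℝ} (ht : t ∈ Icc (0 : ℝ) 2)
    (hM : ∀ s ∈ Icc 0 t, S.conv s x ≤ M) :
    S.u t x ≤ S.u₀ x + t * M + ∫ s in (0 : ℝ)..t, S.g s x := by
  have h0 : (0 : ℝ) ∈ Icc (0 : ℝ) 2 := ⟨le_rfl, by norm_num⟩
  rw [hx.eu t ht]
  have : ∫ s in (0 : ℝ)..t, S.h x s ≤ ∫ s in (0 : ℝ)..t, (M + S.g s x) := by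
    refine intervalIntegral.integral_mono_on ht.1 (S.h_int hx h0 ht)
      (intervalIntegrable_const.add (S.g_int hx h0 ht)) fun s hs => ?_
    have hs' : s ∈ Icc (0 : ℝ) 2 := ⟨hs.1, hs.2.trans ht.2⟩
    have h1 := hM s hs
    have h3 := mul_nonneg S.κ_nonneg (hx.u0 s hs')
    unfold h
    linarith
  rw [intervalIntegral.integral_add intervalIntegrable_const (S.g_int hx h0 ht),
    intervalIntegral.integral_const, smul_eq_mul, sub_zero] at this
  linarith

end Ctx

end Pool.Agent.H240Z.React
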