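import Pool.Agent.H240Z.ReactA

/-!
No reaction outside the hot set, and a lower bound for `v` on the small balls.
-/

set_option autoImplicit false

namespace Pool.Agent.H240Z.React

open MeasureTheory Set Filter Topology
open scoped ENNReal

namespace Ctx

variable {N : ℕ} (S : Ctx N)

theorem mass_swap (D : Set (EuclideanSpace ℝ (Fin N))) :
    ∫⁻ y in D, ∫⁻ s in Ioc (0 : ℝ) 1, ENNReal.ofReal (S.g s y) = S.mass D := by
  unfold mass
  rw [lintegral_lintegral_swap]
  exact (S.meas_g' (by fun_prop) (by fun_prop)).ennreal_ofReal.aemeasurable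

/-- Hypotheses on the hot set `U` and the time horizon `T`. -/
structure Hot (U : Set (EuclideanSpace ℝ (Fin N))) (T : ℝ) : Prop where
  meas : MeasurableSet U
  T0 : 0 < T
  T1 : T ≤ 1 / 2
  κT : S.κ * T ≤ 1 / 2
  f0 : ∀ s, s ≤ 1 → S.f s = 0
  uin : ∀ y ∈ U, S.u₀ y = 3
  uout : ∀ y, y ∉ U → S.u₀ y = 0
  small : ENNReal.ofReal S.A * (3 * volume U + S.mass U) ≤ ENNReal.ofReal (1 / 4)

variable {S} {U : Set (EuclideanSpace ℝ (Fin N))} {T : ℝ}

theorem g_zero (H : S.Hot U T) {s : ℝ} {y : EuclideanSpace ℝ (Fin N)} (h : S.u s y ≤ 1) :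
    S.g s y = 0 := by
  rw [g, H.f0 _ h, mul_zero]

theorem int_g_zero (H : S.Hot U T) {t : ℝ} (ht : 0 ≤ t) {y : EuclideanSpace ℝ (Fin N)}
    (h : ∀ s ∈ Icc 0 t, S.u s y ≤ 1) : ∫ s in (0 : ℝ)..t, S.g s y = 0 := by
  rw [intervalIntegral.integral_congr (g := fun _ => 0)]
  · simp
  · intro s hs
    rw [uIcc_of_le ht] at hs
    exact g_zero H (h s hs)

theorem conv_step (H : S.Hot U T) {t : ℝ} (ht : t ∈ Icc 0 T)
    (hcold : ∀ᵐ y, y ∉ U → ∀ s ∈ Icc 0 t, S.u s y ≤ 1) {M : ℝ} (hM0 : 0 ≤ M)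
    (hM : ∀ s ∈ Icc 0 t, ∀ x, S.conv s x ≤ M) :
    ∀ s ∈ Icc 0 t, ∀ x, S.conv s x ≤ M / 2 + 1 / 4 := by
  intro s hs x
  have hT1 := H.T1
  have hT0 := H.T0
  have hsT : s ≤ T := hs.2.trans ht.2
  have hs2 : s ∈ Icc (0 : ℝ) 2 := ⟨hs.1, by linarith⟩
  have h0 : (0 : ℝ) ∈ Icc (0 : ℝ) 2 := ⟨le_rfl, by norm_num⟩
  have hTM : 0 ≤ T * M := by positivity
  rw [← ENNReal.ofReal_le_ofReal_iff (by positivity), conv,
    ofReal_integral_eq_lintegral_ofReal (S.conv_int x hs2) (by
      filter_upwards [S.ae_good] with y hy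
      exact mul_nonneg (S.K_nonneg _) (hy.u0 s hs2))]
  calc ∫⁻ y, ENNReal.ofReal (S.K (x - y) * S.u s y)
      ≤ ∫⁻ y, (ENNReal.ofReal (S.K (x - y) * (T * M)) + U.indicator (fun y =>
          ENNReal.ofReal S.A * (3 + ∫⁻ σ in Ioc (0 : ℝ) 1, ENNReal.ofReal (S.g σ y))) y) := by
        refine lintegral_mono_ae ?_
        filter_upwards [S.ae_good, hcold] with y hy hc
        have h1 := S.u_le hy hs2 (M := M) fun σ hσ => hM σ ⟨hσ.1, hσ.2.trans hs.2⟩ y
        have h2 : s * M ≤ T * M := by gcongr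
        have hK := S.K_nonneg (x - y)
        by_cases hyU : y ∈ U
        · rw [indicator_of_mem hyU]
          have h3 : 0 ≤ ∫ σ in (0 : ℝ)..s, S.g σ y :=
            intervalIntegral.integral_nonneg hs.1 fun σ hσ => hy.g0 ⟨hσ.1, hσ.2.trans hs2.2⟩
          have h4 : ENNReal.ofReal (∫ σ in (0 : ℝ)..s, S.g σ y) ≤
              ∫⁻ σ in Ioc (0 : ℝ) 1, ENNReal.ofReal (S.g σ y) := by
            rw [intervalIntegral.integral_of_le hs.1,
              ofReal_integral_eq_lintegral_ofReal (S.g_int hy h0 hs2).1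
                ((ae_restrict_iff' measurableSet_Ioc).2 (Eventually.of_forall fun σ hσ =>
                  hy.g0 ⟨hσ.1.le, hσ.2.trans hs2.2⟩))]
            exact lintegral_mono_set (Ioc_subset_Ioc_right (by linarith))
          rw [H.uin y hyU] at h1
          have h5 : S.K (x - y) * S.u s y ≤ S.K (x - y) * (T * M) +
              S.A * (3 + ∫ σ in (0 : ℝ)..s, S.g σ y) := by
            have h6 := S.K_le (x - y)
            nlinarith
          refine (ENNReal.ofReal_le_ofReal h5).trans (ENNReal.ofReal_add_le.trans ?_)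
          gcongr
          rw [ENNReal.ofReal_mul S.A_nonneg, ENNReal.ofReal_add (by norm_num) h3]
          gcongr
          simp
        · rw [indicator_of_notMem hyU, add_zero]
          rw [H.uout y hyU, int_g_zero H hs.1 fun σ hσ => hc hyU σ ⟨hσ.1, hσ.2.trans hs.2⟩] at h1
          apply ENNReal.ofReal_le_ofReal
          gcongr
          linarith
    _ = ENNReal.ofReal (S.κ * (T * M)) + ENNReal.ofReal S.A * (3 * volume U + S.mass U) := by
        have hm : Measurable fun y => ENNReal.ofReal (S.K (x - y) * (T * M)) :=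
          ((S.K_meas.comp (by fun_prop)).mul_const _).ennreal_ofReal
        rw [lintegral_add_left hm,
          ← ofReal_integral_eq_lintegral_ofReal ((S.K_shift_int x).mul_const _)
            (Eventually.of_forall fun y => mul_nonneg (S.K_nonneg _) hTM),
          integral_mul_const, S.κ_shift, lintegral_indicator H.meas,
          lintegral_const_mul' _ _ ENNReal.ofReal_ne_top, lintegral_add_left measurable_const,
          setLIntegral_const, S.mass_swap]
    _ ≤ ENNReal.ofReal (M / 2) + ENNReal.ofReal (1 / 4) := by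
        gcongr
        · have := H.κT
          nlinarith
        · exact H.small
    _ = _ := (ENNReal.ofReal_add (by positivity) (by norm_num)).symm

theorem conv_small (H : S.Hot U T) {t : ℝ} (ht : t ∈ Icc 0 T)
    (hcold : ∀ᵐ y, y ∉ U → ∀ s ∈ Icc 0 t, S.u s y ≤ 1) :
    ∀ s ∈ Icc 0 t, ∀ x, S.conv s x ≤ 3 / 4 := by
  have hD : 0 ≤ S.κ * S.B := mul_nonneg S.κ_nonneg S.B_nonneg
  have hT1 := H.T1
  have h1 : ∀ n : ℕ, ∀ s ∈ Icc 0 t, ∀ x, S.conv s x ≤ 1 / 2 + S.κ * S.B / 2 ^ n := by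
    intro n
    induction n with
    | zero =>
      intro s hs x
      have := S.conv_le x (s := s) ⟨hs.1, by linarith [hs.2, ht.2]⟩
      simp only [pow_zero, div_one]
      linarith
    | succ n ih =>
      intro s hs x
      refine (conv_step H ht hcold (by positivity) ih s hs x).trans (le_of_eq ?_)
      rw [pow_succ]
      field_simp
      ring
  obtain ⟨n, hn⟩ := pow_unbounded_of_one_lt (4 * (S.κ * S.B)) (one_lt_two : (1 : ℝ) < 2)
  intro s hs x
  have h2 : S.κ * S.B / 2 ^ n ≤ 1 / 4 := by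
    rw [div_le_iff₀ (by positivity)]
    linarith
  linarith [h1 n s hs x]

theorem cold (H : S.Hot U T) : ∀ᵐ y, y ∉ U → ∀ s ∈ Icc 0 T, S.u s y ≤ 1 / 2 := by
  have hT1 := H.T1
  have hT0 := H.T0
  set L := S.κ * S.B + S.C with hL
  have hL0 : 0 ≤ L := add_nonneg (mul_nonneg S.κ_nonneg S.B_nonneg) S.C_nonneg
  set δ := 1 / (2 * L + 2) with hδ
  have hδ0 : 0 < δ := by positivity
  have hδL : δ * L ≤ 1 / 2 := by
    rw [hδ, div_mul_eq_mul_div, div_le_iff₀ (by positivity)]
    linarith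
  have h1 : ∀ k : ℕ, ∀ᵐ y, y ∉ U → ∀ s ∈ Icc 0 T, s ≤ k * δ → S.u s y ≤ 1 / 2 := by
    intro k
    induction k with
    | zero =>
      filter_upwards [S.ae_good] with y hy hyU s hs hs0
      have : s = 0 := le_antisymm (by simpa using hs0) hs.1
      subst this
      rw [hy.eu 0 ⟨le_rfl, by norm_num⟩, H.uout y hyU]
      simp
    | succ k ih =>
      have hk0 : (0 : ℝ) ≤ k * δ := by positivity
      have ht : min T ((k + 1 : ℕ) * δ) ∈ Icc 0 T :=
        ⟨le_min hT0.le (by positivity), min_le_left _ _⟩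
      have hcold : ∀ᵐ y, y ∉ U → ∀ s ∈ Icc 0 (min T ((k + 1 : ℕ) * δ)), S.u s y ≤ 1 := by
        filter_upwards [S.ae_good, ih] with y hy hi hyU s hs
        have hsT : s ≤ T := hs.2.trans (min_le_left _ _)
        have hsk : s ≤ (k + 1 : ℕ) * δ := hs.2.trans (min_le_right _ _)
        push_cast at hsk
        by_cases h : s ≤ k * δ
        · linarith [hi hyU s ⟨hs.1, hsT⟩ h]
        · push Not at h
          have h2 := hi hyU (k * δ) ⟨hk0, by linarith⟩ le_rfl
          have h3 := S.u_step hy (a := k * δ) (b := s) ⟨hk0, by linarith⟩ ⟨hs.1, by linarith⟩ h.le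
          have h4 : (s - k * δ) * L ≤ δ * L := by
            gcongr
            linarith
          linarith
      have hconv := conv_small H ht hcold
      filter_upwards [S.ae_good, hcold] with y hy hc hyU s hs hsk
      have hs' : s ≤ min T ((k + 1 : ℕ) * δ) := le_min hs.2 hsk
      have h2 := S.u_le hy (t := s) ⟨hs.1, by linarith [hs.2]⟩ (M := 3 / 4)
        fun σ hσ => hconv σ ⟨hσ.1, hσ.2.trans hs'⟩ y
      rw [H.uout y hyU, int_g_zero H hs.1 fun σ hσ => hc hyU σ ⟨hσ.1, hσ.2.trans hs'⟩] at h2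
      linarith [hs.2]
  obtain ⟨k, hk⟩ := exists_nat_ge (T / δ)
  rw [div_le_iff₀ hδ0] at hk
  filter_upwards [h1 k] with y hy hyU s hs
  exact hy hyU s hs (hs.2.trans hk)

/-- potential of the part of the reaction term that lies in `D` -/
noncomputable def pot (S : Ctx N) (x : EuclideanSpace ℝ (Fin N)) (t : ℝ)
    (D : Set (EuclideanSpace ℝ (Fin N))) : ℝ≥0∞ :=
  ∫⁻ s in Ioc 0 t, ∫⁻ y in D, ENNReal.ofReal (heat N (t - s) (x - y)) * ENNReal.ofReal (S.g s y)

theorem pot_far {x : EuclideanSpace ℝ (Fin N)} {t : ℝ} (ht : t ≤ 1)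
    {D : Set (EuclideanSpace ℝ (Fin N))} (hD : MeasurableSet D) {c : ℝ}
    (hc : ∀ τ ∈ Icc (0 : ℝ) 1, ∀ y ∈ D, heat N τ (x - y) ≤ c) :
    S.pot x t D ≤ ENNReal.ofReal c * S.mass D := by
  rw [mass, ← lintegral_const_mul' _ _ ENNReal.ofReal_ne_top]
  refine le_trans (setLIntegral_mono' measurableSet_Ioc fun s hs => ?_)
    (lintegral_mono_set (Ioc_subset_Ioc_right ht))
  rw [← lintegral_const_mul' _ _ ENNReal.ofReal_ne_top]
  refine setLIntegral_mono' hD fun y hy => ?_
  gcongr
  exact hc _ ⟨by linarith [hs.2], by linarith [hs.1]⟩ y hy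

theorem pot_own {x : EuclideanSpace ℝ (Fin N)} {t : ℝ} (ht : t ≤ 1)
    {D : Set (EuclideanSpace ℝ (Fin N))} {η c : ℝ} (hη : 0 < η)
    (hc : ∀ τ, η ≤ τ → ∀ z : EuclideanSpace ℝ (Fin N), heat N τ z ≤ c) :
    S.pot x t D ≤ ENNReal.ofReal S.C * (ENNReal.ofReal η + ENNReal.ofReal c * volume D) := by
  have h1 : ∀ s ∈ Ioc 0 t, ∫⁻ y in D, ENNReal.ofReal (heat N (t - s) (x - y)) *
      ENNReal.ofReal (S.g s y) ≤ ENNReal.ofReal S.C * ((Ioc (t - η) t).indicator (fun _ => 1) s +
        ENNReal.ofReal c * volume D) := by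
    intro s hs
    have hs2 : s ∈ Icc (0 : ℝ) 2 := ⟨hs.1.le, by linarith [hs.2]⟩
    by_cases h : s ∈ Ioc (t - η) t
    · rw [indicator_of_mem h]
      refine (setLIntegral_le_lintegral _ _).trans ((S.Φ_le x hs2 hs.2).trans ?_)
      rw [mul_add, mul_one]
      exact le_self_add
    · rw [indicator_of_notMem h, zero_add, ← mul_assoc, ← setLIntegral_const]
      have h2 : η ≤ t - s := by
        by_contra h3
        exact h ⟨by linarith [not_le.1 h3], hs.2⟩
      refine lintegral_mono_ae (ae_restrict_of_ae ?_)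
      filter_upwards [S.ae_good] with y hy
      rw [mul_comm]
      gcongr
      · exact hy.gC hs2
      · exact hc _ h2 _
  refine (setLIntegral_mono' measurableSet_Ioc h1).trans ?_
  rw [lintegral_const_mul' _ _ ENNReal.ofReal_ne_top]
  gcongr
  rw [lintegral_add_right _ measurable_const, setLIntegral_const]
  refine add_le_add ?_ ?_
  · refine (setLIntegral_le_lintegral _ _).trans ?_
    rw [lintegral_indicator measurableSet_Ioc, setLIntegral_const, Real.volume_Ioc]
    simp
  · refine mul_le_of_le_one_right' ?_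
    rw [Real.volume_Ioc]
    exact ENNReal.ofReal_le_one.2 (by linarith)

theorem potential_le {D : ℕ → Set (EuclideanSpace ℝ (Fin N))} (H : S.Hot (⋃ m, D m) T)
    {x : EuclideanSpace ℝ (Fin N)} (hx : S.Good x) {t : ℝ} (ht : t ∈ Icc 0 T) :
    ENNReal.ofReal (1 - S.v t x) ≤ ∑' m, S.pot x t (D m) := by
  have hT1 := H.T1
  rw [← S.potential hx ⟨ht.1, by linarith [ht.2]⟩]
  unfold pot
  rw [← lintegral_tsum]
  · refine setLIntegral_mono' measurableSet_Ioc fun s hs => ?_
    refine le_trans ?_ (lintegral_iUnion_le _ _)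
    rw [← lintegral_indicator H.meas]
    refine lintegral_mono_ae ?_
    filter_upwards [cold H] with y hy
    by_cases hyU : y ∈ ⋃ m, D m
    · rw [indicator_of_mem hyU]
    · rw [g_zero H ((hy hyU s ⟨hs.1.le, hs.2.trans ht.2⟩).trans (by norm_num))]
      simp
  · intro m
    apply Measurable.aemeasurable
    apply Measurable.lintegral_prod_right'
      (f := fun q : ℝ × EuclideanSpace ℝ (Fin N) =>
        ENNReal.ofReal (heat N (t - q.1) (x - q.2)) * ENNReal.ofReal (S.g q.1 q.2))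
    exact (meas_heat' (by fun_prop) (by fun_prop)).ennreal_ofReal.mul
      (S.meas_g' (by fun_prop) (by fun_prop)).ennreal_ofReal

theorem mass_iUnion (D : ℕ → Set (EuclideanSpace ℝ (Fin N))) :
    S.mass (⋃ m, D m) ≤ ∑' m, S.mass (D m) := by
  simp only [← S.mass_swap]
  exact lintegral_iUnion_le _ _

theorem exists_good (c : EuclideanSpace ℝ (Fin N)) {r : ℝ} (hr : 0 < r) :
    ∃ x ∈ Metric.ball c r, S.Good x := by
  by_contra h
  push Not at h
  have h1 : volume (Metric.ball c r) = 0 :=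
    measure_mono_null (fun x hx => h x hx) (ae_iff.1 S.ae_good)
  exact (Metric.measure_ball_pos volume c hr).ne' h1

end Ctx

end Pool.Agent.H240Z.React
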