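import Pool.Agent.H240Z.ReactB

/-!
The choice of the data and the contradiction.
-/

set_option autoImplicit false

namespace Pool.Agent.H240Z.React

open MeasureTheory Set Filter Topology
open scoped ENNReal ContDiff

theorem mul_le_of_mass {a c e : ℝ} {m : ℝ≥0∞} (h : ENNReal.ofReal a * m ≤ 2) (he : 0 ≤ e)
    (hc : c ≤ e / 2 * a) : ENNReal.ofReal c * m ≤ ENNReal.ofReal e := by
  calc ENNReal.ofReal c * m ≤ ENNReal.ofReal (e / 2 * a) * m := by gcongr
    _ = ENNReal.ofReal (e / 2) * (ENNReal.ofReal a * m) := by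
        rw [ENNReal.ofReal_mul (by positivity), mul_assoc]
    _ ≤ ENNReal.ofReal (e / 2) * ENNReal.ofReal 2 := by
        gcongr
        simpa using h
    _ = _ := by
        rw [← ENNReal.ofReal_mul (by positivity)]
        congr 1
        ring

theorem tsum_eps : ∑' m : ℕ, ENNReal.ofReal ((1 / 2 : ℝ) ^ m / 16) = ENNReal.ofReal (1 / 8) := by
  rw [← ENNReal.ofReal_tsum_of_nonneg (fun m => by positivity)
    (summable_geometric_two.div_const _), tsum_div_const, tsum_geometric_two]
  norm_num

theorem sep {N : ℕ} {e x y : EuclideanSpace ℝ (Fin N)} (he : ‖e‖ = 1) {m n : ℕ} (hmn : m ≠ n)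
    (hx : dist x ((1 / 2 : ℝ) ^ n • e) < (1 / 2) ^ (n + 3))
    (hy : dist y ((1 / 2 : ℝ) ^ m • e) < (1 / 2) ^ (m + 3)) : (1 / 2 : ℝ) ^ (m + 2) ≤ ‖x - y‖ := by
  have h1 : dist ((1 / 2 : ℝ) ^ n • e) ((1 / 2 : ℝ) ^ m • e) = |(1 / 2) ^ n - (1 / 2) ^ m| := by
    rw [dist_eq_norm, ← sub_smul, norm_smul, he, mul_one, Real.norm_eq_abs]
  have h2 := dist_triangle4 ((1 / 2 : ℝ) ^ n • e) x y ((1 / 2 : ℝ) ^ m • e)
  rw [h1, dist_comm _ x, dist_eq_norm x y] at h2
  have hm : (0 : ℝ) < (1 / 2) ^ m := by positivity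
  have hn : (0 : ℝ) < (1 / 2) ^ n := by positivity
  rw [pow_add] at hx hy ⊢
  rcases lt_or_gt_of_ne hmn with h | h
  · have h3 : ((1 : ℝ) / 2) ^ n ≤ (1 / 2) ^ (m + 1) :=
      pow_le_pow_of_le_one (by norm_num) (by norm_num) h
    rw [pow_succ] at h3
    have h4 := neg_abs_le (((1 : ℝ) / 2) ^ n - (1 / 2) ^ m)
    nlinarith
  · have h3 : ((1 : ℝ) / 2) ^ m ≤ (1 / 2) ^ (n + 1) :=
      pow_le_pow_of_le_one (by norm_num) (by norm_num) h
    rw [pow_succ] at h3
    have h4 := le_abs_self (((1 : ℝ) / 2) ^ n - (1 / 2) ^ m)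
    nlinarith

theorem main (N : ℕ) (hN : 3 ≤ N) (K : EuclideanSpace ℝ (Fin N) → ℝ) (hK : ContDiff ℝ ∞ K)
    (hKc : HasCompactSupport K) (hK0 : ∀ x, 0 ≤ K x) :
    ∃ (f : ℝ → ℝ) (u₀ : EuclideanSpace ℝ (Fin N) → ℝ),
      ContDiff ℝ ∞ f ∧ (∀ s, 0 ≤ f s) ∧
      Measurable u₀ ∧ (∀ x, 0 ≤ u₀ x ∧ u₀ x ≤ 3) ∧ HasCompactSupport u₀ ∧
      ¬ ∃ (u v : ℝ → EuclideanSpace ℝ (Fin N) → ℝ) (B : ℝ),
        IsMild K f u₀ 2 u v ∧ ∀ᵐ x, ∀ t ∈ Icc (0 : ℝ) 2, u t x ≤ B := by
  obtain ⟨A, hA⟩ := hK.continuous.bounded_above_of_compact_support hKc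
  have hA0 : 0 ≤ A := (norm_nonneg _).trans (hA 0)
  set κ := ∫ y, K y with hκ
  have hκ0 : 0 ≤ κ := integral_nonneg hK0
  set T := 1 / (2 * κ + 2) with hT
  have hT0 : 0 < T := by positivity
  have hT1 : T ≤ 1 / 2 := by
    rw [hT]
    gcongr
    linarith
  have hκT : κ * T ≤ 1 / 2 := by
    rw [hT, mul_one_div, div_le_iff₀ (by positivity)]
    linarith
  let f : ℝ → ℝ := fun s => (2 * κ * s + 2 * s ^ 2 / T) * Real.smoothTransition (s - 1)
  have hf0 : ∀ s, s ≤ 1 → f s = 0 := fun s hs => by
    simp only [f]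
    rw [Real.smoothTransition.zero_of_nonpos (by linarith), mul_zero]
  have hfn : ∀ s, 0 ≤ f s := fun s => by
    by_cases hs : s ≤ 1
    · rw [hf0 s hs]
    · have : 0 < s := by linarith [not_le.1 hs]
      exact mul_nonneg (by positivity) (Real.smoothTransition.nonneg _)
  have hfs : ContDiff ℝ ∞ f := by
    refine ContDiff.mul (by fun_prop) ?_
    exact Real.smoothTransition.contDiff.comp (by fun_prop)
  let ε : ℕ → ℝ := fun m => (1 / 2 : ℝ) ^ m / 16
  have hε : ∀ m, 0 < ε m := fun m => by positivity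
  choose Cf hCf0 hCf using fun m : ℕ => heat_far hN (d := (1 / 2 : ℝ) ^ (m + 2)) (by positivity)
  choose ρ hρ0 hρ using fun m : ℕ => heat_near hN (4 * (Cf m + A) / ε m)
  choose r₀ hr₀0 hr₀ using fun m : ℕ => small_ball hN (ε := ε m / (6 * A + 2))
    (by have := hε m; positivity)
  let r : ℕ → ℝ := fun m => min (min ((1 / 2) ^ (m + 3)) (ρ m / 2)) (r₀ m)
  have hr0 : ∀ m, 0 < r m := fun m =>
    lt_min (lt_min (by positivity) (half_pos (hρ0 m))) (hr₀0 m)
  have hr1 : ∀ m, r m ≤ (1 / 2) ^ (m + 3) := fun m => (min_le_left _ _).trans (min_le_left _ _)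
  have hr2 : ∀ m, r m ≤ ρ m / 2 := fun m => (min_le_left _ _).trans (min_le_right _ _)
  let e : EuclideanSpace ℝ (Fin N) := EuclideanSpace.single ⟨0, by omega⟩ 1
  have he : ‖e‖ = 1 := by simp [e]
  let D : ℕ → Set (EuclideanSpace ℝ (Fin N)) := fun m => Metric.ball ((1 / 2 : ℝ) ^ m • e) (r m)
  have hDm : ∀ m, MeasurableSet (D m) := fun m => measurableSet_ball
  have hDv : ∀ m, volume (D m) ≤ ENNReal.ofReal (ε m / (6 * A + 2)) := fun m =>
    hr₀ m _ (hr0 m).le (min_le_right _ _) _
  have hU : MeasurableSet (⋃ m, D m) := MeasurableSet.iUnion hDm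
  refine ⟨f, (⋃ m, D m).indicator fun _ => 3, hfs, hfn, measurable_const.indicator hU,
    fun x => ?_, ?_, ?_⟩
  · by_cases hx : x ∈ ⋃ m, D m
    · rw [indicator_of_mem hx]
      norm_num
    · rw [indicator_of_notMem hx]
      norm_num
  · refine HasCompactSupport.intro (isCompact_closedBall 0 2) fun x hx => ?_
    apply indicator_of_notMem
    intro h
    apply hx
    obtain ⟨m, hm⟩ := mem_iUnion.1 h
    have h1 : dist x ((1 / 2 : ℝ) ^ m • e) < r m := hm
    have h2 : dist ((1 / 2 : ℝ) ^ m • e) 0 ≤ 1 := by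
      rw [dist_zero_right, norm_smul, he, mul_one, Real.norm_eq_abs, abs_of_pos (by positivity)]
      exact pow_le_one₀ (by norm_num) (by norm_num)
    have h3 : r m ≤ 1 := (hr1 m).trans (pow_le_one₀ (by norm_num) (by norm_num))
    have h4 := dist_triangle x ((1 / 2 : ℝ) ^ m • e) 0
    rw [Metric.mem_closedBall]
    linarith
  rintro ⟨u, v, B', hmild, hbdd⟩
  set B := max B' 0 with hB
  have hB0 : 0 ≤ B := le_max_right _ _
  let S : Ctx N :=
    { K := K, f := f, u₀ := (⋃ m, D m).indicator fun _ => 3, u := u, v := v, A := A, B := B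
      C := 2 * κ * B + 2 * B ^ 2 / T
      hN := hN
      K_meas := hK.continuous.measurable
      K_int := hK.continuous.integrable_of_hasCompactSupport hKc
      K_nonneg := hK0
      K_le := fun x => (le_abs_self _).trans (hA x)
      f_meas := hfs.continuous.measurable
      f_nonneg := hfn
      f_le := fun s h0 h1 => by
        have h2 : f s ≤ (2 * κ * s + 2 * s ^ 2 / T) * 1 :=
          mul_le_mul_of_nonneg_left (Real.smoothTransition.le_one _) (by positivity)
        refine h2.trans ?_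
        rw [mul_one]
        gcongr
      B_nonneg := hB0
      mild := hmild
      bdd := by
        filter_upwards [hbdd] with x hx t ht
        exact (hx t ht).trans (le_max_left _ _) }
  have hmass : ∀ m, ENNReal.ofReal (4 * (Cf m + A) / ε m) * S.mass (D m) ≤ 2 := by
    intro m
    obtain ⟨x, hx, hg⟩ := S.exists_good ((1 / 2 : ℝ) ^ m • e) (hr0 m)
    refine S.mass_le (hDm m) hg ENNReal.ofReal_ne_top fun y hy => hρ m _ ?_
    have h1 : dist x ((1 / 2 : ℝ) ^ m • e) < r m := hx
    have h2 : dist y ((1 / 2 : ℝ) ^ m • e) < r m := hy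
    have h3 := dist_triangle_right x y ((1 / 2 : ℝ) ^ m • e)
    rw [← dist_eq_norm]
    linarith [hr2 m]
  have hmA : ∀ m, ENNReal.ofReal A * S.mass (D m) ≤ ENNReal.ofReal (ε m / 2) := by
    intro m
    refine mul_le_of_mass (hmass m) (half_pos (hε m)).le ?_
    have h1 : ε m / 2 / 2 * (4 * (Cf m + A) / ε m) = Cf m + A := by
      have := (hε m).ne'
      field_simp
      ring
    rw [h1]
    linarith [hCf0 m]
  have hmC : ∀ m, ENNReal.ofReal (Cf m) * S.mass (D m) ≤ ENNReal.ofReal (ε m) := by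
    intro m
    refine mul_le_of_mass (hmass m) (hε m).le ?_
    have h1 : ε m / 2 * (4 * (Cf m + A) / ε m) = 2 * (Cf m + A) := by
      have := (hε m).ne'
      field_simp
      ring
    rw [h1]
    linarith [hCf0 m]
  have H : S.Hot (⋃ m, D m) T :=
    { meas := hU, T0 := hT0, T1 := hT1, κT := hκT, f0 := hf0
      uin := fun y hy => indicator_of_mem hy fun _ => (3 : ℝ)
      uout := fun y hy => indicator_of_notMem hy fun _ => (3 : ℝ)
      small := by
        change ENNReal.ofReal A * _ ≤ _
        calc ENNReal.ofReal A * (3 * volume (⋃ m, D m) + S.mass (⋃ m, D m))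
            ≤ ENNReal.ofReal A * (3 * ∑' m, volume (D m) + ∑' m, S.mass (D m)) := by
              gcongr
              · exact measure_iUnion_le _
              · exact S.mass_iUnion D
          _ = ∑' m, (ENNReal.ofReal A * (3 * volume (D m)) + ENNReal.ofReal A * S.mass (D m)) := by
              rw [ENNReal.tsum_add, ENNReal.tsum_mul_left, ENNReal.tsum_mul_left,
                ENNReal.tsum_mul_left, mul_add]
          _ ≤ ∑' m, ENNReal.ofReal (ε m) := by
              refine ENNReal.tsum_le_tsum fun m => ?_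
              have h1 : ENNReal.ofReal A * (3 * volume (D m)) ≤ ENNReal.ofReal (ε m / 2) := by
                calc ENNReal.ofReal A * (3 * volume (D m)) ≤ ENNReal.ofReal A *
                      (ENNReal.ofReal 3 * ENNReal.ofReal (ε m / (6 * A + 2))) := by
                      gcongr
                      · simp
                      · exact hDv m
                  _ ≤ _ := by
                      rw [← ENNReal.ofReal_mul (by norm_num), ← ENNReal.ofReal_mul hA0]
                      apply ENNReal.ofReal_le_ofReal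
                      have := hε m
                      rw [← mul_div_assoc, ← mul_div_assoc, div_le_div_iff₀ (by positivity)
                        (by norm_num)]
                      nlinarith
              refine (add_le_add h1 (hmA m)).trans ?_
              rw [← ENNReal.ofReal_add (half_pos (hε m)).le (half_pos (hε m)).le, add_halves]
          _ ≤ _ := by
              rw [tsum_eps]
              exact ENNReal.ofReal_le_ofReal (by norm_num) }
  have hC0 := S.C_nonneg
  have hη : 0 < 1 / (8 * (S.C + 1)) := by positivity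
  obtain ⟨c, hc0, hc⟩ := heat_late (N := N) hη
  obtain ⟨n, hn⟩ := exists_pow_lt_of_lt_one (show 0 < 1 / (8 * (S.C + 1)) / (c + 1) by positivity)
    (show (1 / 2 : ℝ) < 1 by norm_num)
  obtain ⟨x, hx, hg⟩ := S.exists_good ((1 / 2 : ℝ) ^ n • e) (hr0 n)
  have hv : ∀ t ∈ Icc 0 T, 1 / 2 ≤ S.v t x := by
    intro t ht
    have ht1 : t ≤ 1 := by linarith [ht.2]
    have h1 : ∀ m, S.pot x t (D m) ≤ ENNReal.ofReal (ε m) +
        if m = n then ENNReal.ofReal (1 / 4) else 0 := by
      intro m
      by_cases hm : m = n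
      · subst hm
        rw [if_pos rfl]
        refine le_add_left ((Ctx.pot_own ht1 hη hc).trans ?_)
        calc _ ≤ ENNReal.ofReal S.C * (ENNReal.ofReal (1 / (8 * (S.C + 1))) +
              ENNReal.ofReal c * ENNReal.ofReal (ε m / (6 * A + 2))) := by
              gcongr
              exact hDv m
          _ ≤ _ := by
              have h2 := hε m
              rw [← ENNReal.ofReal_mul hc0, ← ENNReal.ofReal_add hη.le (by positivity),
                ← ENNReal.ofReal_mul hC0]
              apply ENNReal.ofReal_le_ofReal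
              have h3 : ε m / (6 * A + 2) ≤ (1 / 2) ^ m := by
                rw [div_le_iff₀ (by positivity)]
                have : (0 : ℝ) < (1 / 2) ^ m := by positivity
                simp only [ε]
                nlinarith
              rw [lt_div_iff₀ (by positivity)] at hn
              have h4 : c * (ε m / (6 * A + 2)) ≤ 1 / (8 * (S.C + 1)) := by
                have : (0 : ℝ) < (1 / 2) ^ m := by positivity
                nlinarith
              have h5 : S.C * (1 / (8 * (S.C + 1))) ≤ 1 / 8 := by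
                rw [mul_one_div, div_le_iff₀ (by positivity)]
                linarith
              nlinarith
      · rw [if_neg hm, add_zero]
        refine (Ctx.pot_far ht1 (hDm m) (c := Cf m) fun τ hτ y hy => hCf m τ hτ _ ?_).trans (hmC m)
        exact sep he hm (lt_of_lt_of_le hx (hr1 n)) (lt_of_lt_of_le hy (hr1 m))
    have h2 := (Ctx.potential_le H hg ht).trans (ENNReal.tsum_le_tsum h1)
    rw [ENNReal.tsum_add, tsum_eps, tsum_ite_eq, ← ENNReal.ofReal_add (by norm_num) (by norm_num),
      ENNReal.ofReal_le_ofReal_iff (by norm_num)] at h2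
    linarith
  have hT2 : ∀ t ∈ Icc 0 T, t ∈ Icc (0 : ℝ) 2 := fun t ht => ⟨ht.1, by linarith [ht.2]⟩
  obtain ⟨t, ht, hlt⟩ := blowup hT0 (w := fun t => S.u t x) (h := S.h x)
    (S.h_int hg ⟨le_rfl, by norm_num⟩ (hT2 T ⟨hT0.le, le_rfl⟩))
    (fun t ht => by rw [hg.eu t (hT2 t ht), H.uin x (mem_iUnion.2 ⟨n, hx⟩)])
    (fun s hs h2 => by
      have h3 := S.conv_nonneg x (hT2 s hs)
      have h4 := hv s hs
      have h5 : S.f (S.u s x) = 2 * κ * S.u s x + 2 * S.u s x ^ 2 / T := by
        change (2 * κ * S.u s x + 2 * S.u s x ^ 2 / T) * Real.smoothTransition (S.u s x - 1) = _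
        rw [Real.smoothTransition.one_of_one_le (by linarith), mul_one]
      have h6 := S.f_nonneg (S.u s x)
      have h7 : 1 / 2 * S.f (S.u s x) ≤ S.g s x := mul_le_mul_of_nonneg_right h4 h6
      have h8 : S.κ = κ := rfl
      rw [h5, mul_div_assoc] at h7
      unfold Ctx.h
      rw [h8]
      linarith) S.B
  exact absurd (hg.uB t (hT2 t ht)) (not_le.2 hlt)

end Pool.Agent.H240Z.React
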