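import Mathlib

/-!
Mild solutions of the system `u_t + J_K u = v f(u)`, `v_t - Δ v = - v f(u)`, `v(0) = 1`.
-/

set_option autoImplicit false

namespace Pool.Agent.H240Z.React

open MeasureTheory Set

/-- The heat kernel `(4 π t) ^ (-N/2) exp (-|z|^2 / (4 t))` on `ℝ^N`. -/
noncomputable def heat (N : ℕ) (t : ℝ) (z : EuclideanSpace ℝ (Fin N)) : ℝ :=
  (4 * Real.pi * t) ^ (-(N : ℝ) / 2) * Real.exp (-‖z‖ ^ 2 / (4 * t))

/-- `(u, v)` is a nonnegative mild solution on the time interval `[0, T]` of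
`u_t + ⟨K⟩ u - K * u = v f(u)`, `v_t - Δ v = - v f(u)` with `u(0) = u₀` and `v(0) = 1`:
the first equation is integrated in time, the second is written with Duhamel's formula, and both
hold at all times for almost every `x`. -/
structure IsMild {N : ℕ} (K : EuclideanSpace ℝ (Fin N) → ℝ) (f : ℝ → ℝ)
    (u₀ : EuclideanSpace ℝ (Fin N) → ℝ) (T : ℝ)
    (u v : ℝ → EuclideanSpace ℝ (Fin N) → ℝ) : Prop where
  meas_u : Measurable (Function.uncurry u)
  meas_v : Measurable (Function.uncurry v)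
  nonneg : ∀ᵐ x, ∀ t ∈ Icc 0 T, 0 ≤ u t x ∧ 0 ≤ v t x
  eq_u : ∀ᵐ x, ∀ t ∈ Icc 0 T, u t x = u₀ x + ∫ s in (0 : ℝ)..t,
    ((∫ y, K (x - y) * u s y) - (∫ y, K y) * u s x + v s x * f (u s x))
  eq_v : ∀ᵐ x, ∀ t ∈ Icc 0 T, v t x = 1 - ∫ s in (0 : ℝ)..t,
    ∫ y, heat N (t - s) (x - y) * (v s y * f (u s y))

end Pool.Agent.H240Z.React
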