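import Pool.Agent.H240Z.ReactDefs

/-!
Elementary facts on the heat kernel, on small balls, and an ODE blow-up lemma.
-/

set_option autoImplicit false

namespace Pool.Agent.H240Z.React

open MeasureTheory Set Filter Topology
open scoped ENNReal

variable {N : ℕ}

theorem heat_nonneg {t : ℝ} (ht : 0 ≤ t) (z : EuclideanSpace ℝ (Fin N)) : 0 ≤ heat N t z := by
  unfold heat
  positivity

theorem meas_heat : Measurable fun p : ℝ × EuclideanSpace ℝ (Fin N) => heat N p.1 p.2 := by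
  unfold heat
  fun_prop

theorem heat_zero (hN : 3 ≤ N) (z : EuclideanSpace ℝ (Fin N)) : heat N 0 z = 0 := by
  have : (3 : ℝ) ≤ N := by exact_mod_cast hN
  unfold heat
  rw [mul_zero, Real.zero_rpow (by linarith), zero_mul]

theorem heat_integrable {t : ℝ} (ht : 0 < t) : Integrable (heat N t) := by
  have hb : 0 < ((1 / (4 * t) : ℝ) : ℂ).re := by
    rw [Complex.ofReal_re]
    positivity
  have h := (GaussianFourier.integrable_cexp_neg_mul_sq_norm_add
    (V := EuclideanSpace ℝ (Fin N)) hb 0 0).norm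
  unfold heat
  apply Integrable.const_mul
  refine h.congr (Eventually.of_forall fun z => ?_)
  simp only [zero_mul, add_zero, Complex.norm_exp]
  congr 1
  rw [← Complex.ofReal_neg, ← Complex.ofReal_pow, ← Complex.ofReal_mul, Complex.ofReal_re]
  ring

theorem heat_integral {t : ℝ} (ht : 0 < t) : ∫ z, heat N t z = 1 := by
  have hb : 0 < 1 / (4 * t) := by positivity
  have h := GaussianFourier.integral_rexp_neg_mul_sq_norm (V := EuclideanSpace ℝ (Fin N)) hb
  unfold heat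
  rw [integral_const_mul]
  have h2 : (fun z : EuclideanSpace ℝ (Fin N) => Real.exp (-‖z‖ ^ 2 / (4 * t))) =
      fun z => Real.exp (-(1 / (4 * t)) * ‖z‖ ^ 2) := by
    funext z
    congr 1
    ring
  rw [h2, h, finrank_euclideanSpace_fin]
  have h3 : Real.pi / (1 / (4 * t)) = 4 * Real.pi * t := by
    field_simp
  rw [h3, ← Real.rpow_add (by positivity)]
  have : -(N : ℝ) / 2 + N / 2 = 0 := by ring
  rw [this, Real.rpow_zero]

theorem heat_lint (hN : 3 ≤ N) {t : ℝ} (ht : 0 ≤ t) (x : EuclideanSpace ℝ (Fin N)) :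
    ∫⁻ y, ENNReal.ofReal (heat N t (x - y)) ≤ 1 := by
  rcases ht.eq_or_lt with rfl | ht
  · simp [heat_zero hN]
  · rw [lintegral_sub_left_eq_self (fun y => ENNReal.ofReal (heat N t y)) x,
      ← ofReal_integral_eq_lintegral_ofReal (heat_integrable ht)
        (Eventually.of_forall fun z => heat_nonneg ht.le z), heat_integral ht]
    simp

theorem heat_far (hN : 3 ≤ N) {d : ℝ} (hd : 0 < d) : ∃ C : ℝ, 0 ≤ C ∧ ∀ t ∈ Icc (0 : ℝ) 1,
    ∀ z : EuclideanSpace ℝ (Fin N), d ≤ ‖z‖ → heat N t z ≤ C := by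
  refine ⟨N.factorial * (4 / d ^ 2) ^ N, by positivity, fun t ht z hz => ?_⟩
  rcases ht.1.eq_or_lt with rfl | ht0
  · rw [heat_zero hN]
    positivity
  have hz0 : 0 < ‖z‖ := hd.trans_le hz
  have ha : 0 < ‖z‖ ^ 2 / (4 * t) := by positivity
  have h1 : Real.exp (-‖z‖ ^ 2 / (4 * t)) ≤ N.factorial * (4 * t / d ^ 2) ^ N := by
    have h2 := Real.pow_div_factorial_le_exp _ ha.le N
    rw [neg_div, Real.exp_neg]
    have h3 : 0 < (‖z‖ ^ 2 / (4 * t)) ^ N / N.factorial := by positivity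
    refine (inv_anti₀ h3 h2).trans ?_
    rw [inv_div, div_eq_mul_inv, ← inv_pow, inv_div]
    gcongr
  have h4 : (4 * Real.pi * t) ^ (-(N : ℝ) / 2) ≤ (t ^ N)⁻¹ := by
    have hpi := Real.pi_gt_three
    have hN0 : (0 : ℝ) ≤ N := Nat.cast_nonneg N
    calc (4 * Real.pi * t) ^ (-(N : ℝ) / 2) ≤ t ^ (-(N : ℝ) / 2) :=
          Real.rpow_le_rpow_of_nonpos ht0 (by nlinarith) (by linarith)
      _ ≤ t ^ (-(N : ℝ)) := Real.rpow_le_rpow_of_exponent_ge ht0 ht.2 (by linarith)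
      _ = (t ^ N)⁻¹ := by rw [Real.rpow_neg ht0.le, Real.rpow_natCast]
  unfold heat
  calc _ ≤ (t ^ N)⁻¹ * (N.factorial * (4 * t / d ^ 2) ^ N) := by gcongr
    _ = _ := by
      have : 4 * t / d ^ 2 = t * (4 / d ^ 2) := by ring
      rw [this, mul_pow]
      field_simp

theorem heat_late {η : ℝ} (hη : 0 < η) : ∃ C : ℝ, 0 ≤ C ∧ ∀ t, η ≤ t →
    ∀ z : EuclideanSpace ℝ (Fin N), heat N t z ≤ C := by
  refine ⟨(4 * Real.pi * η) ^ (-(N : ℝ) / 2), by positivity, fun t ht z => ?_⟩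
  have ht0 : 0 < t := hη.trans_le ht
  have hN0 : (0 : ℝ) ≤ N := Nat.cast_nonneg N
  have h1 : Real.exp (-‖z‖ ^ 2 / (4 * t)) ≤ 1 := by
    rw [Real.exp_le_one_iff, neg_div]
    have : 0 ≤ ‖z‖ ^ 2 / (4 * t) := by positivity
    linarith
  have h2 : (4 * Real.pi * t) ^ (-(N : ℝ) / 2) ≤ (4 * Real.pi * η) ^ (-(N : ℝ) / 2) :=
    Real.rpow_le_rpow_of_nonpos (by positivity) (by gcongr) (by linarith)
  unfold heat
  calc _ ≤ (4 * Real.pi * η) ^ (-(N : ℝ) / 2) * 1 := by gcongr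
    _ = _ := mul_one _

theorem heat_near (hN : 3 ≤ N) (a : ℝ) : ∃ r : ℝ, 0 < r ∧ ∀ z : EuclideanSpace ℝ (Fin N),
    ‖z‖ ≤ r → ENNReal.ofReal a ≤ ∫⁻ t in Ioc (0 : ℝ) 1, ENNReal.ofReal (heat N t z) := by
  set c : ℝ := (8 * Real.pi) ^ (-(N : ℝ) / 2) * Real.exp (-1) with hc
  have hc0 : 0 < c := by positivity
  have hN3 : (3 : ℝ) ≤ N := by exact_mod_cast hN
  obtain ⟨r, hr0, hr1, hra⟩ : ∃ r : ℝ, 0 < r ∧ r ≤ 1 / 2 ∧ a * r ≤ c := by
    refine ⟨min (1 / 2) (c / (|a| + 1)), by positivity, min_le_left _ _, ?_⟩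
    have h1 : min (1 / 2) (c / (|a| + 1)) ≤ c / (|a| + 1) := min_le_right _ _
    have h2 : 0 < min (1 / 2) (c / (|a| + 1)) := by positivity
    rw [le_div_iff₀ (by positivity)] at h1
    nlinarith [le_abs_self a]
  refine ⟨r, hr0, fun z hz => ?_⟩
  have hsub : Ioc (r ^ 2) (2 * r ^ 2) ⊆ Ioc (0 : ℝ) 1 := by
    intro t ht
    exact ⟨lt_of_le_of_lt (by positivity) ht.1, ht.2.trans (by nlinarith)⟩
  refine le_trans ?_ (lintegral_mono_set hsub)
  have hlow : ∀ t ∈ Ioc (r ^ 2) (2 * r ^ 2), c / r ^ 3 ≤ heat N t z := by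
    intro t ht
    have ht0 : 0 < t := lt_of_le_of_lt (by positivity) ht.1
    have h1 : Real.exp (-1) ≤ Real.exp (-‖z‖ ^ 2 / (4 * t)) := by
      rw [Real.exp_le_exp, neg_div, neg_le_neg_iff, div_le_one (by positivity)]
      have : ‖z‖ ^ 2 ≤ r ^ 2 := by gcongr
      nlinarith [ht.1]
    have h2 : (8 * Real.pi) ^ (-(N : ℝ) / 2) / r ^ 3 ≤ (4 * Real.pi * t) ^ (-(N : ℝ) / 2) := by
      have h3 : (8 * Real.pi * r ^ 2) ^ (-(N : ℝ) / 2) ≤ (4 * Real.pi * t) ^ (-(N : ℝ) / 2) :=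
        Real.rpow_le_rpow_of_nonpos (by positivity) (by nlinarith [ht.2, Real.pi_pos])
          (by linarith)
      refine le_trans ?_ h3
      rw [Real.mul_rpow (x := 8 * Real.pi) (y := r ^ 2) (by positivity) (by positivity),
        div_eq_mul_inv _ (r ^ 3)]
      refine mul_le_mul_of_nonneg_left ?_ (Real.rpow_nonneg (by positivity) _)
      rw [← Real.rpow_natCast r 2, ← Real.rpow_mul hr0.le, ← Real.rpow_natCast r 3,
        ← Real.rpow_neg hr0.le]
      apply Real.rpow_le_rpow_of_exponent_ge hr0 (by linarith)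
      push_cast
      linarith
    unfold heat
    calc c / r ^ 3 = (8 * Real.pi) ^ (-(N : ℝ) / 2) / r ^ 3 * Real.exp (-1) := by
          rw [hc]; ring
      _ ≤ _ := by gcongr
  calc ENNReal.ofReal a ≤ ENNReal.ofReal (c / r ^ 3) * ENNReal.ofReal (2 * r ^ 2 - r ^ 2) := by
        rw [← ENNReal.ofReal_mul (by positivity)]
        apply ENNReal.ofReal_le_ofReal
        have : c / r ^ 3 * (2 * r ^ 2 - r ^ 2) = c / r := by
          field_simp
          ring
        rw [this, le_div_iff₀ hr0]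
        exact hra
    _ = ∫⁻ _ in Ioc (r ^ 2) (2 * r ^ 2), ENNReal.ofReal (c / r ^ 3) := by
        rw [setLIntegral_const, Real.volume_Ioc]
    _ ≤ _ := setLIntegral_mono' measurableSet_Ioc fun t ht =>
        ENNReal.ofReal_le_ofReal (hlow t ht)

theorem small_ball (hN : 3 ≤ N) {ε : ℝ} (hε : 0 < ε) : ∃ r₀ : ℝ, 0 < r₀ ∧ ∀ r, 0 ≤ r → r ≤ r₀ →
    ∀ c : EuclideanSpace ℝ (Fin N), volume (Metric.ball c r) ≤ ENNReal.ofReal ε := by
  set V := (volume (Metric.ball (0 : EuclideanSpace ℝ (Fin N)) 1)).toReal with hV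
  have hV0 : 0 ≤ V := ENNReal.toReal_nonneg
  have hV1 : volume (Metric.ball (0 : EuclideanSpace ℝ (Fin N)) 1) = ENNReal.ofReal V :=
    (ENNReal.ofReal_toReal measure_ball_lt_top.ne).symm
  have : Nonempty (Fin N) := ⟨⟨0, by omega⟩⟩
  refine ⟨min 1 (ε / (V + 1)), by positivity, fun r hr0 hr c => ?_⟩
  rw [Measure.addHaar_ball _ _ hr0, hV1, ← ENNReal.ofReal_mul (by positivity),
    finrank_euclideanSpace_fin]
  apply ENNReal.ofReal_le_ofReal
  have h1 : r ≤ 1 := hr.trans (min_le_left _ _)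
  have h2 : r ≤ ε / (V + 1) := hr.trans (min_le_right _ _)
  rw [le_div_iff₀ (by positivity)] at h2
  have h3 : r ^ N ≤ r := pow_le_of_le_one hr0 h1 (by omega)
  nlinarith

/-- Blow-up for `w' ≥ w ^ 2 / T` in integral form. -/
theorem blowup {T : ℝ} (hT : 0 < T) {w h : ℝ → ℝ} (hi : IntervalIntegrable h volume 0 T)
    (hw : ∀ t ∈ Icc 0 T, w t = 3 + ∫ s in (0 : ℝ)..t, h s)
    (hh : ∀ s ∈ Icc 0 T, 2 ≤ w s → w s ^ 2 / T ≤ h s) (B : ℝ) : ∃ t ∈ Icc 0 T, B < w t := by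
  have hsub : ∀ a ∈ Icc 0 T, ∀ b ∈ Icc 0 T, IntervalIntegrable h volume a b := by
    intro a ha b hb
    apply hi.mono_set
    rw [uIcc_of_le hT.le]
    exact uIcc_subset_Icc ha hb
  have hdiff : ∀ a ∈ Icc 0 T, ∀ b ∈ Icc 0 T, w b = w a + ∫ s in a..b, h s := by
    intro a ha b hb
    rw [hw a ha, hw b hb, add_assoc, intervalIntegral.integral_add_adjacent_intervals
      (hsub 0 ⟨le_rfl, hT.le⟩ a ha) (hsub a ha b hb)]
  have hcont : ContinuousOn w (Icc 0 T) := by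
    have h1 := intervalIntegral.continuousOn_primitive_interval' hi left_mem_uIcc
    rw [uIcc_of_le hT.le] at h1
    exact (continuousOn_const.add h1).congr fun t ht => hw t ht
  have hge : ∀ t ∈ Icc 0 T, 2 < w t := by
    by_contra hcon
    push Not at hcon
    have hcl : IsClosed (Icc 0 T ∩ w ⁻¹' Iic 2) :=
      hcont.preimage_isClosed_of_isClosed isClosed_Icc isClosed_Iic
    have hcp : IsCompact (Icc 0 T ∩ w ⁻¹' Iic 2) :=
      isCompact_Icc.of_isClosed_subset hcl inter_subset_left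
    obtain ⟨t₀, ht₀, hle⟩ := hcon
    obtain ⟨τ, hτ, hmin⟩ := hcp.exists_isLeast ⟨t₀, ht₀, hle⟩
    have h1 : 0 ≤ ∫ s in (0 : ℝ)..τ, h s := by
      rw [intervalIntegral.integral_of_le hτ.1.1, integral_Ioc_eq_integral_Ioo]
      refine setIntegral_nonneg measurableSet_Ioo fun s hs => ?_
      have hs' : s ∈ Icc 0 T := ⟨hs.1.le, hs.2.le.trans hτ.1.2⟩
      have h2 : 2 ≤ w s := by
        by_contra h3
        exact absurd (hmin ⟨hs', (not_le.1 h3).le⟩) (not_le.2 hs.2)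
      exact le_trans (by positivity) (hh s hs' h2)
    have h2 := hw τ hτ.1
    have h3 : w τ ≤ 2 := hτ.2
    linarith
  have hmono : ∀ a ∈ Icc 0 T, ∀ b ∈ Icc 0 T, a ≤ b → w a ≤ w b := by
    intro a ha b hb hab
    rw [hdiff a ha b hb]
    have : 0 ≤ ∫ s in a..b, h s := intervalIntegral.integral_nonneg hab fun s hs => by
      have hs' : s ∈ Icc 0 T := ⟨ha.1.trans hs.1, hs.2.trans hb.2⟩
      exact le_trans (by positivity) (hh s hs' (hge s hs').le)
    linarith
  have hmem : ∀ k : ℕ, T * (1 - (1 / 2) ^ k) ∈ Icc 0 T := by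
    intro k
    have h1 : (0 : ℝ) < (1 / 2) ^ k := by positivity
    have h2 : ((1 : ℝ) / 2) ^ k ≤ 1 := pow_le_one₀ (by norm_num) (by norm_num)
    constructor <;> nlinarith
  have hstep : ∀ k : ℕ, 2 ^ (k + 1) ≤ w (T * (1 - (1 / 2) ^ k)) := by
    intro k
    induction k with
    | zero => simpa using (hge 0 ⟨le_rfl, hT.le⟩).le
    | succ k ih =>
      set a := T * (1 - (1 / 2) ^ k) with ha
      set b := T * (1 - (1 / 2) ^ (k + 1)) with hb
      have hab : b - a = T * (1 / 2) ^ (k + 1) := by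
        rw [ha, hb]
        ring
      have hab' : a ≤ b := by
        have : 0 < T * (1 / 2) ^ (k + 1) := by positivity
        linarith
      rw [hdiff a (hmem k) b (hmem (k + 1))]
      have h1 : ∫ _ in a..b, ((2 : ℝ) ^ (k + 1)) ^ 2 / T ≤ ∫ s in a..b, h s := by
        apply intervalIntegral.integral_mono_on hab' intervalIntegrable_const
          (hsub a (hmem k) b (hmem (k + 1)))
        intro s hs
        have hs' : s ∈ Icc 0 T := ⟨(hmem k).1.trans hs.1, hs.2.trans (hmem (k + 1)).2⟩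
        refine le_trans ?_ (hh s hs' (hge s hs').le)
        have := ih.trans (hmono a (hmem k) s hs' hs.1)
        gcongr
      rw [intervalIntegral.integral_const, hab, smul_eq_mul] at h1
      have h2 : T * (1 / 2) ^ (k + 1) * (((2 : ℝ) ^ (k + 1)) ^ 2 / T) = 2 ^ (k + 1) := by
        rw [one_div, inv_pow]
        field_simp
      rw [h2] at h1
      rw [pow_succ 2 (k + 1)]
      linarith
  obtain ⟨k, hk⟩ := pow_unbounded_of_one_lt B (one_lt_two : (1 : ℝ) < 2)
  refine ⟨_, hmem k, hk.trans_le (le_trans ?_ (hstep k))⟩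
  exact pow_le_pow_right₀ (by norm_num) (Nat.le_succ k)

end Pool.Agent.H240Z.React
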