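import Pool.Agent.H240Z.Wr

/-!
The direct limit of a self-similar system.
-/

set_option autoImplicit false

namespace Pool.Agent.H240Z.Tower

open Pool.Agent.H240Z.Amen

/-- A self-similar system on the rationals. -/
structure Sys where
  /-- embedding -/
  f : ℚ → ℚ
  /-- lifting of automorphisms -/
  L : (ℚ ≃o ℚ) →* (ℚ ≃o ℚ)
  /-- the group added at each step -/
  V : Subgroup (ℚ ≃o ℚ)
  mono : StrictMono f
  equi : ∀ g t, L g (f t) = f (g t)
  am : Am V
  conj : ∀ g, ∀ w ∈ V, L g * w * (L g)⁻¹ ∈ V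
  move : ∀ s t, ∃ w ∈ V, w (f s) = f t ∧ ∀ z, z < s → z < t → w (f z) = f z

theorem nonempty_sys : Nonempty Sys := by
  obtain ⟨f, L, V, h1, h2, h3, h4, h5⟩ := Wr.exists_system
  exact ⟨⟨f, L, V, h1, h2, h3, h4, h5⟩⟩

namespace Sys

variable (S : Sys)

/-- The increasing chain of groups. -/
def H : ℕ → Subgroup (ℚ ≃o ℚ)
  | 0 => ⊥
  | n + 1 => S.V ⊔ (H n).map S.L

theorem am_H (n : ℕ) : Am (S.H n) := by
  induction n with
  | zero => exact am_bot
  | succ n ih =>
    apply am_sup S.am (am_map S.L ih)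
    rintro _ ⟨g, -, rfl⟩
    exact S.conj g

theorem H_mono : Monotone S.H := by
  apply monotone_nat_of_le_succ
  intro n
  induction n with
  | zero => exact bot_le
  | succ n ih => exact sup_le_sup_left (Subgroup.map_mono ih) _

theorem trans (n : ℕ) : ∀ p q : Fin n → ℚ, StrictMono p → StrictMono q →
    ∃ h ∈ S.H n, ∀ i, h (S.f^[n] (p i)) = S.f^[n] (q i) := by
  induction n with
  | zero => exact fun p q _ _ => ⟨1, Subgroup.one_mem _, fun i => i.elim0⟩
  | succ n ih =>
    intro p q hp hq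
    obtain ⟨h, hh, h1⟩ := ih (fun i => p i.castSucc) (fun i => q i.castSucc)
      (hp.comp Fin.strictMono_castSucc) (hq.comp Fin.strictMono_castSucc)
    obtain ⟨w, hw, h2, h3⟩ := S.move (h (S.f^[n] (p (Fin.last n)))) (S.f^[n] (q (Fin.last n)))
    refine ⟨w * S.L h, Subgroup.mul_mem_sup hw (Subgroup.mem_map_of_mem _ hh), fun i => ?_⟩
    rw [Function.iterate_succ_apply', Function.iterate_succ_apply']
    change w (S.L h _) = _
    rw [S.equi]
    induction i using Fin.lastCases with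
    | last => exact h2
    | cast i =>
      rw [h1 i]
      apply h3
      · rw [← h1 i]
        exact h.strictMono (S.mono.iterate n (hp (Fin.castSucc_lt_last i)))
      · exact S.mono.iterate n (hq (Fin.castSucc_lt_last i))

/-- Iterates of the lifting homomorphism. -/
def Lk : ℕ → ((ℚ ≃o ℚ) →* (ℚ ≃o ℚ))
  | 0 => MonoidHom.id _
  | n + 1 => S.L.comp (Lk n)

theorem Lk_equi (n : ℕ) (g : ℚ ≃o ℚ) (t : ℚ) : S.Lk n g (S.f^[n] t) = S.f^[n] (g t) := by
  induction n with
  | zero => rfl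
  | succ n ih =>
    rw [Function.iterate_succ_apply', Function.iterate_succ_apply', ← ih]
    exact S.equi _ _

theorem Lk_add (m n : ℕ) (g : ℚ ≃o ℚ) : S.Lk (m + n) g = S.Lk n (S.Lk m g) := by
  induction n with
  | zero => rfl
  | succ n ih =>
    change S.L (S.Lk (m + n) g) = S.L _
    rw [ih]

/-- Points with a level. -/
structure Lv (S : Sys) where
  /-- level -/
  n : ℕ
  /-- point -/
  x : ℚ

theorem it_comm (m n : ℕ) (x : ℚ) : S.f^[m] (S.f^[n] x) = S.f^[n] (S.f^[m] x) := by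
  rw [← Function.iterate_add_apply, ← Function.iterate_add_apply, add_comm]

instance : Preorder (Lv S) where
  le a b := S.f^[b.n] a.x ≤ S.f^[a.n] b.x
  le_refl a := le_rfl
  le_trans a b c h1 h2 := by
    have h3 := (S.mono.iterate c.n).monotone h1
    have h4 := (S.mono.iterate a.n).monotone h2
    rw [S.it_comm c.n b.n, S.it_comm c.n a.n] at h3
    rw [S.it_comm a.n b.n] at h4
    exact (S.mono.iterate b.n).le_iff_le.1 (h3.trans h4)

theorem le_def (a b : Lv S) : a ≤ b ↔ S.f^[b.n] a.x ≤ S.f^[a.n] b.x := Iff.rfl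

instance : @Std.Total (Lv S) (· ≤ ·) := ⟨fun a b => le_total (S.f^[b.n] a.x) (S.f^[a.n] b.x)⟩

/-- The direct limit. -/
def X : Type := Antisymmetrization (Lv S) (· ≤ ·)

open Classical in
noncomputable instance : LinearOrder S.X :=
  inferInstanceAs (LinearOrder (Antisymmetrization (Lv S) (· ≤ ·)))

/-- The point `x` of level `n` in the limit. -/
def pt (n : ℕ) (x : ℚ) : S.X := toAntisymmetrization (· ≤ ·) (⟨n, x⟩ : Lv S)

theorem mk_le (m n : ℕ) (x y : ℚ) : S.pt m x ≤ S.pt n y ↔ S.f^[n] x ≤ S.f^[m] y :=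
  toAntisymmetrization_le_toAntisymmetrization_iff

theorem mk_eq (m n : ℕ) (x y : ℚ) : S.pt m x = S.pt n y ↔ S.f^[n] x = S.f^[m] y := by
  rw [le_antisymm_iff, le_antisymm_iff, mk_le, mk_le]

theorem mk_surj (a : S.X) : ∃ n x, a = S.pt n x := by
  induction a using Antisymmetrization.ind with
  | _ a => exact ⟨a.n, a.x, rfl⟩

theorem mk_up (n k : ℕ) (x : ℚ) : S.pt (n + k) (S.f^[k] x) = S.pt n x := by
  rw [mk_eq, ← Function.iterate_add_apply]

theorem mk_strictMono (n : ℕ) : StrictMono (S.pt n) := by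
  intro x y h
  rw [lt_iff_not_ge, mk_le]
  exact not_le.2 (S.mono.iterate n h)

/-- The action at level `m`, before passing to the quotient. -/
def actL (m : ℕ) (g : ℚ ≃o ℚ) : Lv S →o Lv S where
  toFun a := ⟨m + a.n, S.Lk a.n g (S.f^[m] a.x)⟩
  monotone' := by
    intro a b h
    rw [le_def] at h ⊢
    dsimp only
    rw [Function.iterate_add_apply, Function.iterate_add_apply]
    apply (S.mono.iterate m).monotone
    rw [← S.Lk_equi, ← S.Lk_equi, ← Lk_add, ← Lk_add, add_comm b.n]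
    apply (S.Lk _ g).monotone
    rw [S.it_comm b.n, S.it_comm a.n]
    exact (S.mono.iterate m).monotone h

/-- The action at level `m`. -/
noncomputable def act (m : ℕ) (g : ℚ ≃o ℚ) : S.X →o S.X := (S.actL m g).antisymmetrization

theorem act_mk' (m n : ℕ) (g : ℚ ≃o ℚ) (x : ℚ) :
    S.act m g (S.pt n x) = S.pt (m + n) (S.Lk n g (S.f^[m] x)) := rfl

theorem act_mk (m k : ℕ) (g : ℚ ≃o ℚ) (x : ℚ) :
    S.act m g (S.pt (m + k) x) = S.pt (m + k) (S.Lk k g x) := by
  rw [act_mk', add_comm m k, Lk_add, Lk_equi, add_comm m, mk_up]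

theorem exists_level (m : ℕ) (a : S.X) : ∃ k x, a = S.pt (m + k) x := by
  obtain ⟨n, x, rfl⟩ := S.mk_surj a
  exact ⟨n, S.f^[m] x, by rw [add_comm, mk_up]⟩

theorem act_mul (m : ℕ) (g h : ℚ ≃o ℚ) (a : S.X) :
    S.act m (g * h) a = S.act m g (S.act m h a) := by
  obtain ⟨k, x, rfl⟩ := S.exists_level m a
  rw [act_mk, act_mk, act_mk, map_mul]
  rfl

theorem act_one (m : ℕ) (a : S.X) : S.act m 1 a = a := by
  obtain ⟨k, x, rfl⟩ := S.exists_level m a
  rw [act_mk, map_one]
  rfl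

/-- The action at level `m` as a homomorphism. -/
noncomputable def lam (m : ℕ) : (ℚ ≃o ℚ) →* Equiv.Perm S.X where
  toFun g :=
    { toFun := S.act m g
      invFun := S.act m g⁻¹
      left_inv := fun a => by rw [← act_mul, inv_mul_cancel, act_one]
      right_inv := fun a => by rw [← act_mul, mul_inv_cancel, act_one] }
  map_one' := Equiv.ext fun a => S.act_one m a
  map_mul' g h := Equiv.ext fun a => S.act_mul m g h a

theorem lam_apply (m : ℕ) (g : ℚ ≃o ℚ) (a : S.X) : S.lam m g a = S.act m g a := rfl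

theorem lam_succ (m : ℕ) (g : ℚ ≃o ℚ) : S.lam (m + 1) (S.L g) = S.lam m g := by
  apply Equiv.ext
  intro a
  obtain ⟨k, x, rfl⟩ := S.exists_level (m + 1) a
  rw [lam_apply, lam_apply, act_mk, add_assoc, act_mk, Lk_add]
  rfl

/-- The groups acting on the limit. -/
noncomputable def G (m : ℕ) : Subgroup (Equiv.Perm S.X) := (S.H m).map (S.lam m)

theorem G_mono : Monotone S.G := by
  apply monotone_nat_of_le_succ
  rintro n _ ⟨g, hg, rfl⟩
  exact ⟨S.L g, Subgroup.mem_sup_right (Subgroup.mem_map_of_mem _ hg), S.lam_succ n g⟩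

theorem am_G : Am (⨆ m, S.G m) :=
  am_iSup _ S.G_mono.directed_le fun m => am_map _ (S.am_H m)

theorem mono_G {g : Equiv.Perm S.X} (hg : g ∈ ⨆ m, S.G m) : Monotone g := by
  obtain ⟨m, h, -, rfl⟩ := (Subgroup.mem_iSup_of_directed S.G_mono.directed_le).1 hg
  exact (S.act m h).monotone

theorem common {n : ℕ} (x : Fin n → S.X) : ∃ N, ∀ M, N ≤ M → ∃ p : Fin n → ℚ,
    ∀ i, x i = S.pt M (p i) := by
  choose k p hp using fun i => S.mk_surj (x i)
  refine ⟨Finset.univ.sup k, fun M hM => ⟨fun i => S.f^[M - k i] (p i), fun i => ?_⟩⟩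
  have : k i ≤ M := (Finset.le_sup (f := k) (Finset.mem_univ i)).trans hM
  rw [hp i, ← S.mk_up (k i) (M - k i), Nat.add_sub_cancel' this]

theorem trans_G {n : ℕ} (x y : Fin n → S.X) (hx : StrictMono x) (hy : StrictMono y) :
    ∃ g ∈ ⨆ m, S.G m, ∀ i, g (x i) = y i := by
  obtain ⟨N, hN⟩ := S.common x
  obtain ⟨N', hN'⟩ := S.common y
  obtain ⟨p, hp⟩ := hN (N + N') (Nat.le_add_right _ _)
  obtain ⟨q, hq⟩ := hN' (N + N') (Nat.le_add_left _ _)
  have hp' : StrictMono p := fun i j h => by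
    have := hx h
    rw [hp, hp] at this
    exact (S.mk_strictMono _).lt_iff_lt.1 this
  have hq' : StrictMono q := fun i j h => by
    have := hy h
    rw [hq, hq] at this
    exact (S.mk_strictMono _).lt_iff_lt.1 this
  obtain ⟨h, hh, h1⟩ := S.trans n p q hp' hq'
  refine ⟨S.lam (N + N' + n) h, Subgroup.mem_iSup_of_mem (N + N' + n)
    (Subgroup.mem_map_of_mem _ (S.H_mono (Nat.le_add_left _ _) hh)), fun i => ?_⟩
  rw [hp, hq, ← S.mk_up _ n (p i), ← S.mk_up _ n (q i), lam_apply, ← h1 i]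
  exact S.act_mk (N + N' + n) 0 h _

end Sys

theorem main :
    ∃ (G : Type) (_ : Group G) (X : Type) (_ : LinearOrder X) (_ : MulAction G X),
      Nontrivial X ∧
      (∀ g : G, Monotone (fun x : X => g • x)) ∧
      (∀ n : ℕ, ∀ x y : Fin n → X, StrictMono x → StrictMono y →
        ∃ g : G, ∀ i, g • x i = y i) ∧
      (∃ m : Set G → ℝ,
        (∀ A, 0 ≤ m A) ∧ m Set.univ = 1 ∧
        (∀ A B : Set G, Disjoint A B → m (A ∪ B) = m A + m B) ∧
        (∀ (g : G) (A : Set G), m ((fun h => g * h) '' A) = m A)) := by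
  obtain ⟨S⟩ := nonempty_sys
  refine ⟨↥(⨆ m, S.G m), inferInstance, S.X, inferInstance, inferInstance,
    ⟨S.pt 0 0, S.pt 0 1, (S.mk_strictMono 0 zero_lt_one).ne⟩, fun g => S.mono_G g.2,
    fun n x y hx hy => ?_, exists_mean S.am_G⟩
  obtain ⟨g, hg, h⟩ := S.trans_G x y hx hy
  exact ⟨⟨g, hg⟩, h⟩

end Pool.Agent.H240Z.Tower
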