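import Pool.Agent.H240Z.Amen

/-!
The wreath power of the integers over a linear order, acting on finitely supported functions
ordered lexicographically.
-/

set_option autoImplicit false

namespace Pool.Agent.H240Z.Wr

open Pool.Agent.H240Z.Amen

variable {T : Type} [LinearOrder T]

/-- Finitely supported integer functions on `T`, ordered lexicographically. -/
abbrev Y (T : Type) [LinearOrder T] : Type := Lex (T →₀ ℤ)

/-- The value of `x` at `j`. -/
def v (x : Y T) (j : T) : ℤ := (ofLex x) j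

theorem ext_v {x y : Y T} (h : ∀ j, v x j = v y j) : x = y :=
  ofLex.injective (Finsupp.ext h)

theorem lt_v {x y : Y T} : x < y ↔ ∃ i, (∀ j, j < i → v x j = v y j) ∧ v x i < v y i :=
  Iff.rfl

/-- Adds `c` to the coordinate `y`. -/
noncomputable def bump (x : Y T) (y : T) (c : ℤ) : Y T := toLex (ofLex x + Finsupp.single y c)

theorem v_bump_same (x : Y T) (y : T) (c : ℤ) : v (bump x y c) y = v x y + c := by
  simp [v, bump]

theorem v_bump_ne (x : Y T) {y j : T} (c : ℤ) (h : j ≠ y) : v (bump x y c) j = v x j := by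
  simp [v, bump, h.symm]

/-- The automorphisms that change the coordinate `y` only, by an amount that depends on the
coordinates below `y` only. -/
def A (y : T) : Subgroup (Y T ≃o Y T) where
  carrier := {g | (∀ x j, j ≠ y → v (g x) j = v x j) ∧
    ∀ x x', (∀ j, j < y → v x j = v x' j) → v (g x) y - v x y = v (g x') y - v x' y}
  one_mem' := ⟨fun _ _ _ => rfl, fun x x' _ => by simp⟩
  mul_mem' := by
    rintro a b ⟨ha, ha'⟩ ⟨hb, hb'⟩
    refine ⟨fun x j hj => ?_, fun x x' h => ?_⟩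
    · change v (a (b x)) j = _
      rw [ha _ _ hj, hb _ _ hj]
    · change v (a (b x)) y - _ = v (a (b x')) y - _
      have h1 := ha' (b x) (b x') fun j hj => by rw [hb _ _ hj.ne, hb _ _ hj.ne, h j hj]
      have h2 := hb' x x' h
      linarith
  inv_mem' := by
    rintro a ⟨ha, ha'⟩
    have h0 : ∀ x j, j ≠ y → v (a⁻¹ x) j = v x j := by
      intro x j hj
      rw [← ha (a⁻¹ x) j hj]
      simp
    refine ⟨h0, fun x x' h => ?_⟩
    have h1 := ha' (a⁻¹ x) (a⁻¹ x') fun j hj => by rw [h0 _ _ hj.ne, h0 _ _ hj.ne, h j hj]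
    simp only [RelIso.apply_inv_self] at h1
    linarith

theorem mem_A {y : T} {g : Y T ≃o Y T} : g ∈ A y ↔ (∀ x j, j ≠ y → v (g x) j = v x j) ∧
    ∀ x x', (∀ j, j < y → v x j = v x' j) → v (g x) y - v x y = v (g x') y - v x' y := Iff.rfl

theorem A_comm (y : T) : ∀ a ∈ A y, ∀ b ∈ A y, a * b = b * a := by
  rintro a ⟨ha, ha'⟩ b ⟨hb, hb'⟩
  apply RelIso.ext
  intro x
  apply ext_v
  intro j
  change v (a (b x)) j = v (b (a x)) j
  by_cases hj : j = y
  · subst hj
    have h1 := ha' (b x) x fun i hi => hb _ _ hi.ne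
    have h2 := hb' (a x) x fun i hi => ha _ _ hi.ne
    linarith
  · rw [ha _ _ hj, hb _ _ hj, hb _ _ hj, ha _ _ hj]

theorem A_conj {y z : T} (hz : z < y) : ∀ b ∈ A z, ∀ a ∈ A y, b * a * b⁻¹ ∈ A y := by
  intro b hb a ha
  obtain ⟨hc, hc'⟩ := (A z).inv_mem hb
  obtain ⟨hb, hb'⟩ := hb
  obtain ⟨ha, ha'⟩ := ha
  refine ⟨fun x j hj => ?_, fun x x' h => ?_⟩
  · change v (b (a (b⁻¹ x))) j = _
    by_cases hjz : j = z
    · subst hjz
      have h1 := hb' (a (b⁻¹ x)) (b⁻¹ x) fun i hi => ha _ _ (hi.trans hz).ne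
      rw [ha _ _ hj] at h1
      simp only [RelIso.apply_inv_self] at h1
      linarith
    · rw [hb _ _ hjz, ha _ _ hj, hc _ _ hjz]
  · change v (b (a (b⁻¹ x))) y - _ = v (b (a (b⁻¹ x'))) y - _
    rw [hb _ _ hz.ne', hb _ _ hz.ne']
    have h1 := ha' (b⁻¹ x) (b⁻¹ x') fun j hj => by
      by_cases hjz : j = z
      · subst hjz
        have h2 := hc' x x' fun i hi => h i (hi.trans hj)
        have h3 := h j hj
        linarith
      · rw [hc _ _ hjz, hc _ _ hjz, h j hj]
    rw [hc _ _ hz.ne', hc _ _ hz.ne'] at h1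
    exact h1

/-- The wreath power. -/
def W (T : Type) [LinearOrder T] : Subgroup (Y T ≃o Y T) := ⨆ y : T, A y

theorem am_W : Am (W T) :=
  am_chain _ (fun y => am_comm (A_comm y)) fun _ _ h => A_conj h

open Classical in
/-- Adds `c` to the coordinate `y` of the functions that vanish below `y`. -/
noncomputable def sh (y : T) (c : ℤ) (x : Y T) : Y T :=
  if ∀ j, j < y → v x j = 0 then bump x y c else x

theorem v_sh_ne (y : T) (c : ℤ) (x : Y T) {j : T} (h : j ≠ y) : v (sh y c x) j = v x j := by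
  unfold sh
  split_ifs
  · exact v_bump_ne _ _ h
  · rfl

theorem v_sh_same (y : T) (c : ℤ) {x x' : Y T} (h : ∀ j, j < y → v x j = v x' j) :
    v (sh y c x) y - v x y = v (sh y c x') y - v x' y := by
  unfold sh
  by_cases h1 : ∀ j, j < y → v x j = 0
  · have h2 : ∀ j, j < y → v x' j = 0 := fun j hj => by rw [← h j hj, h1 j hj]
    rw [if_pos h1, if_pos h2, v_bump_same, v_bump_same]
    ring
  · have h2 : ¬ ∀ j, j < y → v x' j = 0 := fun h2 => h1 fun j hj => by rw [h j hj, h2 j hj]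
    rw [if_neg h1, if_neg h2]
    ring

theorem sh_strictMono (y : T) (c : ℤ) : StrictMono (sh y c) := by
  intro x x' h
  obtain ⟨i, hi, hlt⟩ := lt_v.1 h
  refine lt_v.2 ⟨i, fun j hj => ?_, ?_⟩
  · by_cases hjy : j = y
    · subst hjy
      have h1 := v_sh_same j c (x := x) (x' := x') fun k hk => hi k (hk.trans hj)
      have h2 := hi j hj
      linarith
    · rw [v_sh_ne _ _ _ hjy, v_sh_ne _ _ _ hjy, hi j hj]
  · by_cases hiy : i = y
    · subst hiy
      have h1 := v_sh_same i c (x := x) (x' := x') hi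
      linarith
    · rwa [v_sh_ne _ _ _ hiy, v_sh_ne _ _ _ hiy]

theorem sh_sh (y : T) (c : ℤ) (x : Y T) : sh y c (sh y (-c) x) = x := by
  apply ext_v
  intro j
  by_cases hj : j = y
  · subst hj
    by_cases h1 : ∀ i, i < j → v x i = 0
    · have h2 : ∀ i, i < j → v (sh j (-c) x) i = 0 := fun i hi => by
        rw [v_sh_ne _ _ _ hi.ne, h1 i hi]
      rw [sh, if_pos h2, v_bump_same, sh, if_pos h1, v_bump_same]
      ring
    · have h2 : ¬ ∀ i, i < j → v (sh j (-c) x) i = 0 := fun h2 => h1 fun i hi => by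
        rw [← h2 i hi, v_sh_ne _ _ _ hi.ne]
      rw [sh, if_neg h2, sh, if_neg h1]
  · rw [v_sh_ne _ _ _ hj, v_sh_ne _ _ _ hj]

/-- The order automorphism given by `sh`. -/
noncomputable def shI (y : T) (c : ℤ) : Y T ≃o Y T :=
  StrictMono.orderIsoOfRightInverse (sh y c) (sh_strictMono y c) (sh y (-c)) (sh_sh y c)

theorem shI_apply (y : T) (c : ℤ) (x : Y T) : shI y c x = sh y c x := rfl

theorem shI_mem (y : T) (c : ℤ) : shI y c ∈ W T :=
  Subgroup.mem_iSup_of_mem y ⟨fun x _ hj => v_sh_ne y c x hj, fun _ _ h => v_sh_same y c h⟩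

/-- The embedding of `T`. -/
noncomputable def e (t : T) : Y T := toLex (Finsupp.single t (-1))

theorem v_e_same (t : T) : v (e t) t = -1 := by simp [v, e]

theorem v_e_ne {t j : T} (h : j ≠ t) : v (e t) j = 0 := by
  simp [v, e, h.symm]

theorem e_strictMono : StrictMono (e : T → Y T) := by
  intro s t h
  refine lt_v.2 ⟨s, fun j hj => ?_, ?_⟩
  · rw [v_e_ne hj.ne, v_e_ne (hj.trans h).ne]
  · rw [v_e_same, v_e_ne h.ne]
    norm_num

theorem sh_e_lt {y z : T} (c : ℤ) (h : z < y) : sh y c (e z) = e z := by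
  rw [sh, if_neg]
  intro h1
  have := h1 z h
  rw [v_e_same] at this
  norm_num at this

theorem sh_e_same (y : T) : sh y 1 (e y) = toLex 0 := by
  rw [sh, if_pos fun j hj => v_e_ne hj.ne]
  apply ext_v
  intro j
  by_cases hj : j = y
  · subst hj
    rw [v_bump_same, v_e_same]
    rfl
  · rw [v_bump_ne _ _ hj, v_e_ne hj]
    rfl

theorem sh_zero (y : T) : sh y (-1) (toLex 0) = e y := by
  rw [← sh_e_same y]
  have := sh_sh y (-1) (e y)
  simpa using this

theorem exists_move (s t : T) : ∃ w ∈ W T, w (e s) = e t ∧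
    ∀ z, z < s → z < t → w (e z) = e z := by
  refine ⟨shI t (-1) * shI s 1, (W T).mul_mem (shI_mem _ _) (shI_mem _ _), ?_, fun z hs ht => ?_⟩
  · change sh t (-1) (sh s 1 (e s)) = _
    rw [sh_e_same, sh_zero]
  · change sh t (-1) (sh s 1 (e z)) = _
    rw [sh_e_lt _ hs, sh_e_lt _ ht]

/-- Transport of a function along an order automorphism of the index set. -/
noncomputable def mv (g : T ≃o T) (x : Y T) : Y T :=
  toLex (Finsupp.equivMapDomain g.toEquiv (ofLex x))

theorem v_mv (g : T ≃o T) (x : Y T) (j : T) : v (mv g x) j = v x (g⁻¹ j) := rfl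

theorem mv_strictMono (g : T ≃o T) : StrictMono (mv g) := by
  intro x x' h
  obtain ⟨i, hi, hlt⟩ := lt_v.1 h
  refine lt_v.2 ⟨g i, fun j hj => ?_, ?_⟩
  · rw [v_mv, v_mv]
    apply hi
    have := (g⁻¹ : T ≃o T).strictMono hj
    simpa using this
  · simpa [v_mv] using hlt

theorem mv_mv (g : T ≃o T) (x : Y T) : mv g (mv g⁻¹ x) = x := by
  apply ext_v
  intro j
  simp [v_mv]

/-- The action of the order automorphisms of `T` on `Y T`. -/
noncomputable def lift : (T ≃o T) →* (Y T ≃o Y T) where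
  toFun g := StrictMono.orderIsoOfRightInverse (mv g) (mv_strictMono g) (mv g⁻¹) (mv_mv g)
  map_one' := by
    apply RelIso.ext
    intro x
    apply ext_v
    intro j
    rfl
  map_mul' a b := by
    apply RelIso.ext
    intro x
    apply ext_v
    intro j
    change v (mv (a * b) x) j = v (mv a (mv b x)) j
    simp [v_mv]

theorem v_lift (g : T ≃o T) (x : Y T) (j : T) : v (lift g x) j = v x (g⁻¹ j) := rfl

theorem lift_e (g : T ≃o T) (t : T) : lift g (e t) = e (g t) := by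
  apply ext_v
  intro j
  rw [v_lift]
  by_cases hj : j = g t
  · subst hj
    simp [v_e_same]
  · rw [v_e_ne hj, v_e_ne]
    intro h
    apply hj
    rw [← h]
    simp

theorem lift_conj_A (g : T ≃o T) (y : T) : ∀ a ∈ A y, lift g * a * (lift g)⁻¹ ∈ A (g y) := by
  rintro a ⟨ha, ha'⟩
  rw [← map_inv]
  refine ⟨fun x j hj => ?_, fun x x' h => ?_⟩
  · change v (lift g (a (lift g⁻¹ x))) j = _
    rw [v_lift, ha, v_lift]
    · simp
    · intro h
      apply hj
      rw [← h]
      simp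
  · change v (lift g (a (lift g⁻¹ x))) (g y) - _ = v (lift g (a (lift g⁻¹ x'))) (g y) - _
    have h1 := ha' (lift g⁻¹ x) (lift g⁻¹ x') fun j hj => by
      rw [v_lift, v_lift]
      apply h
      simpa using hj
    rw [v_lift, v_lift, inv_inv] at h1
    rw [v_lift, v_lift, RelIso.inv_apply_self]
    exact h1

theorem lift_conj_W (g : T ≃o T) : ∀ w ∈ W T, lift g * w * (lift g)⁻¹ ∈ W T := by
  have : W T ≤ (W T).comap (MulAut.conj (lift g)).toMonoidHom :=
    iSup_le fun y a ha => Subgroup.mem_iSup_of_mem (g y) (lift_conj_A g y a ha)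
  exact fun w hw => this hw

instance [NoMaxOrder T] : DenselyOrdered (Y T) := by
  refine ⟨fun x x' h => ?_⟩
  obtain ⟨i, hi, hlt⟩ := lt_v.1 h
  obtain ⟨k, hk⟩ := exists_gt i
  refine ⟨bump x k 1, lt_v.2 ⟨k, fun j hj => (v_bump_ne _ _ hj.ne).symm, ?_⟩,
    lt_v.2 ⟨i, fun j hj => ?_, ?_⟩⟩
  · rw [v_bump_same]
    linarith
  · rw [v_bump_ne _ _ (hj.trans hk).ne, hi j hj]
  · rwa [v_bump_ne _ _ hk.ne]

instance [Nonempty T] : NoMaxOrder (Y T) := by
  obtain ⟨k⟩ := ‹Nonempty T›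
  refine ⟨fun x => ⟨bump x k 1, lt_v.2 ⟨k, fun j hj => (v_bump_ne _ _ hj.ne).symm, ?_⟩⟩⟩
  rw [v_bump_same]
  linarith

instance [Nonempty T] : NoMinOrder (Y T) := by
  obtain ⟨k⟩ := ‹Nonempty T›
  refine ⟨fun x => ⟨bump x k (-1), lt_v.2 ⟨k, fun j hj => v_bump_ne _ _ hj.ne, ?_⟩⟩⟩
  rw [v_bump_same]
  linarith

instance [Countable T] : Countable (Y T) := inferInstanceAs (Countable (T →₀ ℤ))

instance : Nonempty (Y T) := ⟨toLex 0⟩

/-- The self-similar system on the rationals. -/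
theorem exists_system : ∃ (f : ℚ → ℚ) (L : (ℚ ≃o ℚ) →* (ℚ ≃o ℚ)) (V : Subgroup (ℚ ≃o ℚ)),
    StrictMono f ∧ (∀ g t, L g (f t) = f (g t)) ∧ Am V ∧
    (∀ g, ∀ w ∈ V, L g * w * (L g)⁻¹ ∈ V) ∧
    ∀ s t, ∃ w ∈ V, w (f s) = f t ∧ ∀ z, z < s → z < t → w (f z) = f z := by
  obtain ⟨Φ⟩ := Order.iso_of_countable_dense (Y ℚ) ℚ
  let c : (Y ℚ ≃o Y ℚ) →* (ℚ ≃o ℚ) :=
    { toFun := fun g => (Φ.symm.trans g).trans Φ
      map_one' := by
        apply RelIso.ext
        intro x
        simp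
      map_mul' := by
        intro a b
        apply RelIso.ext
        intro x
        simp }
  have hc : ∀ g x, c g (Φ x) = Φ (g x) := by
    intro g x
    simp [c]
  refine ⟨fun t => Φ (e t), c.comp lift, (W ℚ).map c, Φ.strictMono.comp e_strictMono, ?_,
    am_map c am_W, ?_, ?_⟩
  · intro g t
    rw [MonoidHom.comp_apply, hc, lift_e]
  · rintro g _ ⟨w, hw, rfl⟩
    refine ⟨_, lift_conj_W g w hw, ?_⟩
    simp
  · intro s t
    obtain ⟨w, hw, h1, h2⟩ := exists_move s t
    refine ⟨c w, Subgroup.mem_map_of_mem c hw, ?_, fun z hs ht => ?_⟩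
    · rw [hc, h1]
    · rw [hc, h2 z hs ht]

end Pool.Agent.H240Z.Wr
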